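import Mathlib

set_option autoImplicit false

open Finset Filter Topology

namespace Pool.Agent.H63.DHDC

theorem exists_seq {P R : ℕ → ℕ → Prop} (hP : ∀ j, ∀ᶠ k in atTop, P j k)
    (hR : ∀ k, ∀ᶠ k' in atTop, R k k') :
    ∃ κ : ℕ → ℕ, StrictMono κ ∧ (∀ j, P j (κ j)) ∧ ∀ l j, l < j → R (κ l) (κ j) := by
  have hstep : ∀ j K : ℕ, ∃ k, K < k ∧ P j k ∧ ∀ i ≤ K, R i k := by
    intro j K
    have h1 : ∀ᶠ k in atTop, ∀ i ∈ range (K + 1), R i k := by
      rw [eventually_all_finset]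
      exact fun i _ => hR i
    obtain ⟨k, h2, h3, h4⟩ := ((eventually_gt_atTop K).and ((hP j).and h1)).exists
    exact ⟨k, h2, h3, fun i hi => h4 i (mem_range.mpr (by omega))⟩
  choose f hf1 hf2 hf3 using hstep
  let κ : ℕ → ℕ := fun j => Nat.rec (f 0 0) (fun j K => f (j + 1) K) j
  have hκ0 : κ 0 = f 0 0 := rfl
  have hκs : ∀ j, κ (j + 1) = f (j + 1) (κ j) := fun _ => rfl
  have hmono : StrictMono κ := strictMono_nat_of_lt_succ fun j => by rw [hκs]; exact hf1 _ _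
  refine ⟨κ, hmono, ?_, ?_⟩
  · intro j
    cases j with
    | zero => rw [hκ0]; exact hf2 _ _
    | succ j => rw [hκs]; exact hf2 _ _
  · intro l j hlj
    obtain ⟨m, rfl⟩ : ∃ m, j = m + 1 := ⟨j - 1, by omega⟩
    rw [hκs]
    exact hf3 _ _ _ (hmono.monotone (by omega))

/-- Sparse subsequence for a bounded kernel. -/
theorem exists_sparse {b : ℕ → ℕ → ℝ} (hb : ∀ j l, 0 ≤ b j l)
    (hs : ∀ j, ∑ l ∈ range j, b j l ≤ 1) {η : ℝ} (hη : 0 < η) :
    ∃ χ : ℕ → ℕ, StrictMono χ ∧ ∀ j, ∑ l ∈ range j, b (χ j) (χ l) ≤ η := by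
  let B : ℕ → ℕ → ℝ := fun j l => if l < j then b j l else 0
  have hB0 : ∀ j l, 0 ≤ B j l := fun j l => by
    simp only [B]; split_ifs
    · exact hb _ _
    · exact le_rfl
  have hBs : ∀ j (S : Finset ℕ), ∑ l ∈ S, B j l ≤ 1 := by
    intro j S
    simp only [B]
    rw [← sum_filter]
    refine (sum_le_sum_of_subset_of_nonneg ?_ fun l _ _ => hb _ _).trans (hs j)
    intro l hl
    exact mem_range.mpr (mem_filter.mp hl).2
  have hB1 : ∀ j l, B j l ≤ 1 := fun j l => by simpa using hBs j {l}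
  have hK : IsCompact (Set.pi Set.univ fun _ : ℕ => Set.Icc (0:ℝ) 1) :=
    isCompact_univ_pi fun _ => isCompact_Icc
  obtain ⟨β, -, φ, hφ, hlim⟩ := hK.tendsto_subseq (x := B) fun j l _ => ⟨hB0 j l, hB1 j l⟩
  have hl : ∀ l, Tendsto (fun k => B (φ k) l) atTop (𝓝 (β l)) := fun l =>
    (tendsto_pi_nhds.mp hlim) l
  have hβ0 : ∀ l, 0 ≤ β l := fun l => ge_of_tendsto' (hl l) fun k => hB0 _ _
  have hβs : ∀ S : Finset ℕ, ∑ l ∈ S, β l ≤ 1 := fun S =>
    le_of_tendsto' (tendsto_finsetSum S fun l _ => hl l) fun k => hBs _ _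
  have hsum : Summable β := summable_of_sum_le hβ0 hβs
  have hβt : Tendsto (fun k => β (φ k)) atTop (𝓝 0) :=
    hsum.tendsto_atTop_zero.comp hφ.tendsto_atTop
  obtain ⟨κ, hκ, h1, h2⟩ := exists_seq
    (P := fun j k => β (φ k) ≤ η / 4 * (1 / 2) ^ j)
    (R := fun k k' => B (φ k') (φ k) ≤ β (φ k) + η / 4 * (1 / 2) ^ k)
    (fun j => by
      have h0 : (0:ℝ) < η / 4 * (1 / 2) ^ j := by positivity
      filter_upwards [hβt.eventually (gt_mem_nhds h0)] with k hk using hk.le)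
    (fun k => by
      have h0 : (0:ℝ) < η / 4 * (1 / 2) ^ k := by positivity
      have : β (φ k) < β (φ k) + η / 4 * (1 / 2) ^ k := by linarith
      filter_upwards [(hl (φ k)).eventually (gt_mem_nhds this)] with k' hk' using hk'.le)
  refine ⟨φ ∘ κ, hφ.comp hκ, fun j => ?_⟩
  have h3 : ∀ l ∈ range j, b ((φ ∘ κ) j) ((φ ∘ κ) l) ≤ η / 2 * (1 / 2) ^ l := by
    intro l hlj
    rw [mem_range] at hlj
    have h4 := h2 l j hlj
    have h5 := h1 l
    have h6 : B (φ (κ j)) (φ (κ l)) = b (φ (κ j)) (φ (κ l)) := by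
      simp only [B]; rw [if_pos (hφ (hκ hlj))]
    rw [h6] at h4
    have h7 : (1 / 2 : ℝ) ^ κ l ≤ (1 / 2) ^ l :=
      pow_le_pow_of_le_one (by norm_num) (by norm_num) (hκ.le_apply)
    simp only [Function.comp_apply]
    have h8 : η / 4 * (1 / 2) ^ κ l ≤ η / 4 * (1 / 2) ^ l :=
      mul_le_mul_of_nonneg_left h7 (by positivity)
    linarith
  refine (sum_le_sum h3).trans ?_
  rw [← mul_sum]
  have h9 : ∑ l ∈ range j, (1 / 2 : ℝ) ^ l ≤ 2 := by
    rw [geom_sum_eq (by norm_num)]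
    have : (0:ℝ) < (1 / 2) ^ j := by positivity
    rw [div_le_iff_of_neg (by norm_num)]
    linarith
  nlinarith

end Pool.Agent.H63.DHDC
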