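import Pool.Agent.H63.DHDC.Lower
import Pool.Agent.H63.DHDC.Select

set_option autoImplicit false

open Finset Filter Topology

namespace Pool.Agent.H63.DHDC

open Fam

theorem norm_le_iff' (u : X) {C : ℝ} : ‖u‖ ≤ C ↔ ∀ ω, rho ω (fn u) ≤ C := Fam.norm_le_iff u

theorem rho_le_norm (u : X) (ω : Conf) : rho ω (fn u) ≤ ‖u‖ := Fam.le_norm u ω

/-- Indices of level below `L`. -/
def below (L : ℕ) : Set Idx := {x | x.1 < L}

theorem below_finite (L : ℕ) : (below L).Finite := by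
  refine Set.Finite.subset ((Finset.range L).sigma fun n => (univ : Finset (F n))).finite_toSet ?_
  intro x hx
  simp only [Finset.coe_sigma, Set.mem_sigma_iff, Finset.coe_range, Set.mem_Iio]
  exact ⟨hx, by simp⟩

theorem exists_trunc (u : X) {ε : ℝ} (hε : 0 < ε) :
    ∃ L₀, ∀ L ≥ L₀, ‖u - restr (below L) u‖ ≤ ε := by
  obtain ⟨Fi, hF⟩ := Fam.exists_tail u hε
  refine ⟨Fi.sup (fun x => x.1) + 1, fun L hL => le_trans (Fam.norm_mono fun x => ?_) hF⟩
  simp only [fn_sub, fn_restr, Pi.sub_apply]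
  by_cases hx : x ∈ below L
  · rw [Set.indicator_of_mem hx]; simp
  · have hx' : x ∉ (↑Fi : Set Idx) := by
      intro h
      refine hx (lt_of_le_of_lt (Finset.le_sup (f := fun x : Idx => x.1) (mem_coe.mp h)) ?_)
      change Fi.sup (fun x => x.1) < L
      omega
    rw [Set.indicator_of_notMem hx, Set.indicator_of_notMem hx']

/-- Disjoint elements have disjoint supports. -/
theorem eq_zero_of_disj {u v : X} (h : |u| ⊓ |v| = 0) (x : Idx) (hx : fn u x ≠ 0) : fn v x = 0 := by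
  have h1 : fn (|u| ⊓ |v|) x = 0 := by rw [h]; rfl
  rw [fn_inf, fn_abs, fn_abs, Pi.inf_apply, Pi.abs_apply, Pi.abs_apply] at h1
  have h2 : 0 < |fn u x| := abs_pos.mpr hx
  have h3 : |fn v x| ≤ 0 := by
    by_contra h4
    push Not at h4
    have := lt_min h2 h4
    rw [← h1] at this
    exact absurd this (lt_irrefl _)
  simpa using h3

theorem vanish {y : ℕ → X} (hd : ∀ m l, m ≠ l → |y m| ⊓ |y l| = 0) (L : ℕ) :
    ∀ᶠ m in atTop, ∀ x ∈ below L, fn (y m) x = 0 := by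
  rw [(below_finite L).eventually_all]
  intro x _
  by_cases h : ∃ m, fn (y m) x ≠ 0
  · obtain ⟨m, hm⟩ := h
    filter_upwards [eventually_gt_atTop m] with l hl
    exact eq_zero_of_disj (hd m l hl.ne) x hm
  · push Not at h
    exact Eventually.of_forall h

/-- Block data extracted from a normalized disjoint sequence. -/
structure Blocks (y : ℕ → X) where
  φ : ℕ → ℕ
  lo : ℕ → ℕ
  hφ : StrictMono φ
  hlo : Monotone lo
  v : ℕ → X
  hsupp : ∀ j (n : ℕ) (t : F n), fn (v j) ⟨n, t⟩ ≠ 0 → lo j ≤ n ∧ n < lo (j + 1)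
  hle : ∀ j x, |fn (v j) x| ≤ |fn (y (φ j)) x|
  herr : ∀ j, ‖y (φ j) - v j‖ ≤ (1 / 4) ^ (j + 1)
  heq : ∀ j x, fn (v j) x ≠ 0 → fn (v j) x = fn (y (φ j)) x

theorem exists_blocks {y : ℕ → X} (hd : ∀ m l, m ≠ l → |y m| ⊓ |y l| = 0) :
    Nonempty (Blocks y) := by
  classical
  have hstep : ∀ (p : ℕ × ℕ) (j : ℕ), ∃ q : ℕ × ℕ, p.1 < q.1 ∧ p.2 ≤ q.2 ∧
      (∀ x ∈ below p.2, fn (y q.1) x = 0) ∧
      ‖y q.1 - restr (below q.2) (y q.1)‖ ≤ (1 / 4) ^ (j + 1) := by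
    intro p j
    obtain ⟨m, hm1, hm2⟩ := ((eventually_gt_atTop p.1).and (vanish hd p.2)).exists
    obtain ⟨L₀, hL⟩ := exists_trunc (y m) (ε := (1 / 4) ^ (j + 1)) (by positivity)
    exact ⟨(m, max p.2 L₀), hm1, le_max_left _ _, hm2, hL _ (le_max_right _ _)⟩
  choose f hf1 hf2 hf3 hf4 using hstep
  let a : ℕ → ℕ × ℕ := fun j => Nat.rec (0, 0) (fun j p => f p j) j
  have has : ∀ j, a (j + 1) = f (a j) j := fun _ => rfl
  refine ⟨⟨fun j => (a (j + 1)).1, fun j => (a j).2, ?_, ?_,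
    fun j => restr (below (a (j + 1)).2) (y (a (j + 1)).1), ?_, ?_, ?_, ?_⟩⟩
  · refine strictMono_nat_of_lt_succ fun j => ?_
    rw [has (j + 1)]; exact hf1 _ _
  · refine monotone_nat_of_le_succ fun j => ?_
    rw [has j]; exact hf2 _ _
  · intro j n t hne
    rw [fn_restr] at hne
    have h1 : (⟨n, t⟩ : Idx) ∈ below (a (j + 1)).2 := by
      by_contra h
      exact hne (Set.indicator_of_notMem h _)
    rw [Set.indicator_of_mem h1] at hne
    refine ⟨?_, h1⟩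
    by_contra h
    push Not at h
    refine hne ?_
    rw [has j]
    exact hf3 (a j) j ⟨n, t⟩ h
  · intro j x
    rw [fn_restr]
    exact Fam.abs_ind_le _ _ _
  · intro j
    rw [has j]; exact hf4 _ _
  · intro j x hx
    rw [fn_restr] at hx ⊢
    by_cases h1 : x ∈ below (a (j + 1)).2
    · rw [Set.indicator_of_mem h1]
    · rw [Set.indicator_of_notMem h1] at hx; exact absurd rfl hx

theorem norm_v_le {y : ℕ → X} (hn : ∀ m, ‖y m‖ = 1) (b : Blocks y) (j : ℕ) : ‖b.v j‖ ≤ 1 := by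
  rw [← hn (b.φ j)]
  exact Fam.norm_mono (b.hle j)

theorem lo_disj {y : ℕ → X} (b : Blocks y) {j l : ℕ} (hjl : j ≠ l) (n : ℕ) (h1 : b.lo j ≤ n)
    (h2 : n < b.lo (j + 1)) (h3 : b.lo l ≤ n) (h4 : n < b.lo (l + 1)) : False := by
  rcases lt_or_gt_of_ne hjl with h | h
  · have := b.hlo (show j + 1 ≤ l by omega)
    omega
  · have := b.hlo (show l + 1 ≤ j by omega)
    omega

/-- Upper estimate for a subsequence. -/
theorem upper_seq {y : ℕ → X} (hn : ∀ m, ‖y m‖ = 1) (b : Blocks y) {ψ : ℕ → ℕ}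
    (hψ : StrictMono ψ) (s : Finset ℕ) (c : ℕ → ℝ) :
    ‖∑ j ∈ s, c j • y (b.φ (ψ j))‖ ≤ 5 * Real.sqrt (∑ j ∈ s, c j ^ 2) := by
  have h1 : ‖∑ j ∈ s, c j • b.v (ψ j)‖ ≤ 4 * Real.sqrt (∑ j ∈ s, c j ^ 2) := by
    rw [norm_le_iff']
    intro ω
    rw [Fam.fn_sum]
    simp only [fn_smul]
    refine upper (v := fun j => fn (b.v (ψ j))) (lo := fun j => b.lo (ψ j))
      (hi := fun j => b.lo (ψ j + 1)) (fun j _ n t h => b.hsupp _ n t h) ?_ ?_ c ω
    · intro j _ l _ hjl n a1 a2 a3 a4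
      exact lo_disj b (fun h => hjl (hψ.injective h)) n a1 a2 a3 a4
    · intro j _ ω'
      exact (rho_le_norm _ ω').trans (norm_v_le hn b _)
  have h2 : ‖∑ j ∈ s, c j • (y (b.φ (ψ j)) - b.v (ψ j))‖ ≤ Real.sqrt (∑ j ∈ s, c j ^ 2) := by
    refine (norm_sum_le _ _).trans ?_
    have h3 : ∀ j ∈ s, ‖c j • (y (b.φ (ψ j)) - b.v (ψ j))‖ ≤ |c j| * (1 / 2) ^ (j + 1) := by
      intro j _
      rw [norm_smul, Real.norm_eq_abs]
      refine mul_le_mul_of_nonneg_left ((b.herr (ψ j)).trans ?_) (abs_nonneg _)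
      calc (1 / 4 : ℝ) ^ (ψ j + 1) ≤ (1 / 4) ^ (j + 1) :=
            pow_le_pow_of_le_one (by norm_num) (by norm_num) (by have := hψ.le_apply (x := j); omega)
        _ ≤ (1 / 2) ^ (j + 1) := pow_le_pow_left₀ (by norm_num) (by norm_num) _
    refine (sum_le_sum h3).trans (Real.le_sqrt_of_sq_le ?_)
    refine (sum_mul_sq_le_sq_mul_sq _ _ _).trans ?_
    simp only [sq_abs]
    have h4 : ∑ j ∈ s, ((1 / 2 : ℝ) ^ (j + 1)) ^ 2 ≤ 1 := by
      have h5 : ∀ j ∈ s, ((1 / 2 : ℝ) ^ (j + 1)) ^ 2 ≤ 1 / 2 * (1 / 2) ^ j := by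
        intro j _
        rw [← pow_mul, show (1 / 2 : ℝ) * (1 / 2) ^ j = (1 / 2) ^ (j + 1) by rw [pow_succ]; ring]
        exact pow_le_pow_of_le_one (by norm_num) (by norm_num) (by omega)
      refine (sum_le_sum h5).trans ?_
      have h6 : s ⊆ range (s.sup id + 1) := fun j hj =>
        mem_range.mpr (Nat.lt_succ_of_le (Finset.le_sup (f := id) hj))
      refine (sum_le_sum_of_subset_of_nonneg h6 fun _ _ _ => by positivity).trans ?_
      rw [← mul_sum]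
      have := geom_half (s.sup id + 1)
      linarith
    have h5 : 0 ≤ ∑ j ∈ s, c j ^ 2 := sum_nonneg fun _ _ => sq_nonneg _
    nlinarith
  have h3 : ∑ j ∈ s, c j • y (b.φ (ψ j)) = ∑ j ∈ s, c j • b.v (ψ j) +
      ∑ j ∈ s, c j • (y (b.φ (ψ j)) - b.v (ψ j)) := by
    rw [← sum_add_distrib]
    exact sum_congr rfl fun j _ => by rw [smul_sub]; abel
  rw [h3]
  refine (norm_add_le _ _).trans ?_
  linarith

/-- Coordinates of a combination of disjoint elements. -/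
theorem abs_sum_ge {y : ℕ → X} (hd : ∀ m l, m ≠ l → |y m| ⊓ |y l| = 0) {θ : ℕ → ℕ}
    (hθ : Function.Injective θ) {s : Finset ℕ} (c : ℕ → ℝ) {j : ℕ} (hj : j ∈ s) {x : Idx}
    {r : ℝ} (hr : r ≠ 0 → fn (y (θ j)) x = r) :
    |c j| * |r| ≤ |fn (∑ l ∈ s, c l • y (θ l)) x| := by
  by_cases h0 : r = 0
  · rw [h0]; simp
  · have h1 := hr h0
    rw [Fam.fn_sum, Finset.sum_apply, sum_eq_single j]
    · rw [fn_smul, Pi.smul_apply, smul_eq_mul, abs_mul, h1]
    · intro l _ hlj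
      rw [fn_smul, Pi.smul_apply, smul_eq_mul]
      have : fn (y (θ l)) x = 0 :=
        eq_zero_of_disj (hd (θ j) (θ l) (fun h => hlj (hθ h).symm)) x (by rw [h1]; exact h0)
      rw [this, mul_zero]
    · intro h; exact absurd hj h

end Pool.Agent.H63.DHDC
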