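import Pool.Agent.H63.DHDC.Prob

set_option autoImplicit false

open Finset

namespace Pool.Agent.H63.DHDC

/-- Number of elements of `S` below `n`. -/
def pos (S : Finset ℕ) (n : ℕ) : ℕ := (S.filter (· < n)).card

theorem pos_add (S : Finset ℕ) {m n : ℕ} (h : m ≤ n) :
    pos S n = pos S m + (S.filter fun l => m ≤ l ∧ l < n).card := by
  unfold pos
  rw [← card_union_of_disjoint]
  · congr 1
    ext l
    by_cases hl : l ∈ S
    · simp only [mem_filter, mem_union, hl, true_and]
      omega
    · simp [hl]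
  · rw [disjoint_left]
    intro l h1 h2
    rw [mem_filter] at h1 h2
    omega

theorem pos_le_card (S : Finset ℕ) (n : ℕ) : pos S n ≤ S.card := card_filter_le _ _

theorem pos_lt {S : Finset ℕ} {m n : ℕ} (hm : m ∈ S) (h : m < n) : pos S m < pos S n := by
  rw [pos_add S h.le]
  have : 0 < (S.filter fun l => m ≤ l ∧ l < n).card :=
    card_pos.mpr ⟨m, mem_filter.mpr ⟨hm, le_rfl, h⟩⟩
  omega

theorem card_last_eq {r : ℕ} {S : Finset ℕ} {n : ℕ} (h : r ≤ pos S n) :
    (last r S n).card = r := by
  refine le_antisymm (card_last_le _ _ _) ?_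
  by_contra hcon
  push Not at hcon
  have hne : ((S.filter (· < n)) \ last r S n).Nonempty := by
    rw [← card_pos]
    have h1 := le_card_sdiff (last r S n) (S.filter (· < n))
    have h2 : (S.filter (· < n)).card = pos S n := rfl
    omega
  set m := ((S.filter (· < n)) \ last r S n).max' hne with hm
  have hm1 : m ∈ (S.filter (· < n)) \ last r S n := max'_mem _ _
  rw [mem_sdiff, mem_filter] at hm1
  refine hm1.2 (mem_last.mpr ⟨hm1.1.1, hm1.1.2, ?_⟩)
  have h3 : (S.filter fun l => m ≤ l ∧ l < n) ⊆ insert m (last r S n) := by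
    intro l hl
    rw [mem_filter] at hl
    rw [mem_insert]
    by_cases h4 : l ∈ last r S n
    · exact Or.inr h4
    · left
      have h5 : l ∈ (S.filter (· < n)) \ last r S n :=
        mem_sdiff.mpr ⟨mem_filter.mpr ⟨hl.1, hl.2.2⟩, h4⟩
      exact le_antisymm (le_max' _ _ h5) hl.2.1
  exact (card_le_card h3).trans ((card_insert_le _ _).trans hcon)

/-- Elements with an early position are few. -/
theorem card_early (S : Finset ℕ) (r : ℕ) : (S.filter fun n => pos S n < r).card ≤ r := by
  have h := card_le_card_of_injOn (s := S.filter fun n => pos S n < r) (t := range r)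
    (fun n => pos S n) (fun n hn => mem_range.mpr (mem_filter.mp hn).2) ?_
  · rwa [card_range] at h
  · intro m hm n hn hmn
    have hm' := (mem_filter.mp hm).1
    have hn' := (mem_filter.mp hn).1
    rcases lt_trichotomy m n with h | h | h
    · exact absurd hmn (pos_lt hm' h).ne
    · exact h
    · exact absurd hmn (pos_lt hn' h).ne'

/-- The counting lemma. -/
theorem card_bad_le {r : ℕ} (hr : 0 < r) (S T : Finset ℕ) :
    ((S ∩ T).filter fun n => Disjoint (last r S n) (last r T n)).card ≤
      (S.card + T.card) / r + 1 := by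
  set B := (S ∩ T).filter fun n => Disjoint (last r S n) (last r T n) with hB
  have key : ∀ m ∈ B, ∀ n ∈ B, m < n → pos S m + pos T m + r ≤ pos S n + pos T n := by
    intro m hm n hn hmn
    rw [hB, mem_filter, mem_inter] at hm hn
    rw [pos_add S hmn.le, pos_add T hmn.le]
    by_contra hcon
    push Not at hcon
    have h1 : m ∈ last r S n := mem_last.mpr ⟨hm.1.1, hmn, by omega⟩
    have h2 : m ∈ last r T n := mem_last.mpr ⟨hm.1.2, hmn, by omega⟩
    exact disjoint_left.mp hn.2 h1 h2
  have h := card_le_card_of_injOn (s := B) (t := range ((S.card + T.card) / r + 1))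
    (fun n => (pos S n + pos T n) / r) ?_ ?_
  · rwa [card_range] at h
  · intro n _
    refine mem_coe.mpr (mem_range.mpr (Nat.lt_succ_of_le (Nat.div_le_div_right ?_)))
    exact Nat.add_le_add (pos_le_card _ _) (pos_le_card _ _)
  · intro m hm n hn hmn
    have aux : ∀ m ∈ B, ∀ n ∈ B, m < n →
        (pos S m + pos T m) / r < (pos S n + pos T n) / r := by
      intro m hm n hn hlt
      have h1 := Nat.div_le_div_right (c := r) (key m hm n hn hlt)
      rw [Nat.add_div_right _ hr] at h1
      omega
    rcases lt_trichotomy m n with h | h | h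
    · exact absurd hmn (aux m hm n hn h).ne
    · exact h
    · exact absurd hmn (aux n hn m hm h).ne'

/-- Greedy descending selection. -/
theorem exists_free {V : ℕ → Finset ℕ} {B : ℕ} (N : ℕ) :
    ∀ M : Finset ℕ, (∀ n ∈ M, (V n).card ≤ B) → N * (B + 1) ≤ M.card →
      ∃ S ⊆ M, S.card = N ∧ ∀ n ∈ S, ∀ m ∈ S, m < n → m ∉ V n := by
  induction N with
  | zero => intro M _ _; exact ⟨∅, empty_subset _, rfl, by simp⟩
  | succ N ih =>
    intro M hV hM
    have hne : M.Nonempty := by
      rw [← card_pos]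
      have : 0 < (N + 1) * (B + 1) := by positivity
      omega
    set n := M.max' hne with hn
    have hnM : n ∈ M := max'_mem _ _
    set M' := (M.erase n) \ V n with hM'
    have hsub : M' ⊆ M := sdiff_subset.trans (erase_subset _ _)
    have hcard : N * (B + 1) ≤ M'.card := by
      have h1 := le_card_sdiff (V n) (M.erase n)
      rw [card_erase_of_mem hnM] at h1
      have h2 := hV n hnM
      have h3 : (N + 1) * (B + 1) = N * (B + 1) + (B + 1) := by ring
      have h4 : M'.card = ((M.erase n) \ V n).card := rfl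
      omega
    obtain ⟨S, hS1, hS2, hS3⟩ := ih M' (fun m hm => hV m (hsub hm)) hcard
    have hS4 : ∀ m ∈ S, m < n ∧ m ∉ V n := by
      intro m hm
      have h1 := mem_sdiff.mp (hS1 hm)
      have h2 := mem_erase.mp h1.1
      exact ⟨lt_of_le_of_ne (le_max' _ _ h2.2) h2.1, h1.2⟩
    have hnS : n ∉ S := fun h => lt_irrefl _ (hS4 n h).1
    refine ⟨insert n S, ?_, ?_, ?_⟩
    · rw [insert_subset_iff]
      exact ⟨hnM, hS1.trans hsub⟩
    · rw [card_insert_of_notMem hnS, hS2]
    · intro a ha b hb hab
      rw [mem_insert] at ha hb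
      rcases ha with rfl | ha
      · rcases hb with rfl | hb
        · exact absurd hab (lt_irrefl _)
        · exact (hS4 b hb).2
      · rcases hb with rfl | hb
        · have := (hS4 a ha).1; omega
        · exact hS3 a ha b hb hab

/-- Coordinates of row `k`. -/
def row (k : ℕ) (R : Finset ℕ) : Finset (ℕ × ℕ) := R.image fun m => (k, m)

theorem row_subset {k n : ℕ} {R : Finset ℕ} (hk : k < n) (hR : ∀ m ∈ R, m < n) :
    row k R ⊆ Q n := by
  intro z hz
  obtain ⟨m, hm, rfl⟩ := mem_image.mp hz
  simp only [Q, mem_product, mem_range]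
  exact ⟨hk, hR m hm⟩

theorem pb_row (k : ℕ) (R : Finset ℕ) : pb (row k R) = eps k ^ R.card := by
  unfold pb row
  rw [prod_image (fun a _ b _ h => (Prod.mk.inj h).2)]
  exact prod_const (eps k)

theorem row_disjoint (k : ℕ) {R R' : Finset ℕ} (h : Disjoint R R') :
    Disjoint (row k R) (row k R') := by
  rw [disjoint_left]
  intro z h1 h2
  obtain ⟨m, hm, rfl⟩ := mem_image.mp h1
  obtain ⟨m', hm', he⟩ := mem_image.mp h2
  have : m' = m := (Prod.mk.inj he).2
  subst this
  exact disjoint_left.mp h hm hm'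

/-- Exceptional set of predecessors. -/
theorem exists_exceptional {n k r : ℕ} (hk : k < n) (hr : 0 < r) {f : F n → ℝ} {G : ℝ}
    (hf : ∑ t, f t ^ 2 ≤ G) (hf1 : ∑ t, f t * xv n t = 1) {L : ℕ} (hL : 4 * G / eps k ^ r ≤ L) :
    ∃ V : Finset ℕ, V.card ≤ L * r ∧ ∀ R : Finset ℕ, (∀ m ∈ R, m < n) → R.card = r →
      Disjoint R V → eps k ^ r / 2 ≤ ∑ t : F n, ind (row k R) t * (f t * xv n t) := by
  classical
  set p := eps k ^ r with hp
  have hp0 : 0 < p := pow_pos (eps_pos k) r
  let bad : Finset ℕ → Prop := fun R => ∑ t : F n, ind (row k R) t * (f t * xv n t) < p / 2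
  let fams : Finset (Finset (Finset ℕ)) := ((range n).powersetCard r).powerset.filter fun 𝓕 =>
    (∀ R ∈ 𝓕, bad R) ∧ ∀ R ∈ 𝓕, ∀ R' ∈ 𝓕, R ≠ R' → Disjoint R R'
  obtain ⟨𝓕, h𝓕, hmax⟩ := exists_max_image fams (fun 𝓕 => 𝓕.card) ⟨∅, by simp [fams]⟩
  rw [mem_filter, mem_powerset] at h𝓕
  obtain ⟨hsub, hbad, hdis⟩ := h𝓕
  have hmem : ∀ R ∈ 𝓕, (∀ m ∈ R, m < n) ∧ R.card = r := by
    intro R hR
    have := mem_powersetCard.mp (hsub hR)
    exact ⟨fun m hm => mem_range.mp (this.1 hm), this.2⟩
  refine ⟨𝓕.biUnion id, ?_, ?_⟩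
  · have h1 := bessel (n := n) 𝓕 (fun R => row k R)
      (fun R hR => row_subset hk (hmem R hR).1)
      (fun R hR R' hR' hne => row_disjoint k (hdis R hR R' hR' hne)) f
    have h2 : ∀ R ∈ 𝓕, p / 4 ≤ ((∑ t : F n, ind (row k R) t * (f t * xv n t)) -
        pb (row k R) * ∑ t, f t * xv n t) ^ 2 / pb (row k R) := by
      intro R hR
      rw [pb_row, (hmem R hR).2, hf1, mul_one, ← hp, le_div_iff₀ hp0]
      have h3 := hbad R hR
      simp only [bad] at h3
      nlinarith
    have h3 := (sum_le_sum h2).trans (h1.trans hf)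
    rw [sum_const, nsmul_eq_mul] at h3
    have h4 : (𝓕.card : ℝ) ≤ L := by
      refine le_trans ?_ hL
      rw [le_div_iff₀ hp0]
      linarith
    have h5 : 𝓕.card ≤ L := by exact_mod_cast h4
    refine (card_biUnion_le_card_mul _ _ r fun R hR => (hmem R hR).2.le).trans ?_
    exact Nat.mul_le_mul_right r h5
  · intro R hR1 hR2 hR3
    by_contra hcon
    push Not at hcon
    have hRne : R.Nonempty := card_pos.mp (by omega)
    have hRn : R ∉ 𝓕 := by
      intro h
      obtain ⟨m, hm⟩ := hRne
      exact disjoint_left.mp hR3 hm (mem_biUnion.mpr ⟨R, h, hm⟩)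
    have hd : ∀ R' ∈ 𝓕, Disjoint R R' := by
      intro R' hR'
      exact hR3.mono_right (subset_biUnion_of_mem id hR')
    have hin : insert R 𝓕 ∈ fams := by
      rw [mem_filter, mem_powerset]
      refine ⟨insert_subset_iff.mpr ⟨mem_powersetCard.mpr
        ⟨fun m hm => mem_range.mpr (hR1 m hm), hR2⟩, hsub⟩, ?_, ?_⟩
      · intro R' hR'
        rw [mem_insert] at hR'
        rcases hR' with rfl | hR'
        · exact hcon
        · exact hbad R' hR'
      · intro R₁ h1 R₂ h2 hne
        rw [mem_insert] at h1 h2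
        rcases h1 with rfl | h1
        · rcases h2 with rfl | h2
          · exact absurd rfl hne
          · exact hd _ h2
        · rcases h2 with rfl | h2
          · exact (hd _ h1).symm
          · exact hdis _ h1 _ h2 hne
    have := hmax _ hin
    rw [card_insert_of_notMem hRn] at this
    omega

end Pool.Agent.H63.DHDC
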