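import Pool.Agent.H63.DHDC.Blocks

set_option autoImplicit false

open Finset Filter Topology

namespace Pool.Agent.H63.DHDC

open Fam

theorem half_le_norm_v {y : ℕ → X} (hn : ∀ m, ‖y m‖ = 1) (b : Blocks y) (j : ℕ) :
    1 / 2 < ‖b.v j‖ := by
  have h1 := b.herr j
  have h2 : (1 / 4 : ℝ) ^ (j + 1) ≤ (1 / 4) ^ 1 :=
    pow_le_pow_of_le_one (by norm_num) (by norm_num) (by omega)
  have h3 : ‖y (b.φ j)‖ ≤ ‖b.v j‖ + ‖y (b.φ j) - b.v j‖ := by
    calc ‖y (b.φ j)‖ = ‖b.v j + (y (b.φ j) - b.v j)‖ := by congr 1; abel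
      _ ≤ _ := norm_add_le _ _
  rw [hn] at h3
  norm_num at h2
  linarith

theorem al_le_levels {i : ℕ} {T : Finset ℕ} {g : (n : ℕ) → F n → ℝ} (h : AdmT i T g)
    {u : Idx → ℝ} {c : ℝ} (hc : ∀ n, ∑ t : F n, u ⟨n, t⟩ ^ 2 ≤ c) :
    al i T g u ≤ 2 ^ i * Real.sqrt c := by
  unfold al
  have h1 : ∑ n ∈ T, ∑ t, g n t * |u ⟨n, t⟩| ≤ ∑ _n ∈ T, Real.sqrt c :=
    sum_le_sum fun n hn => (pr_le (h.2 n hn).sq_le _).trans (Real.sqrt_le_sqrt (hc n))
  rw [sum_const, nsmul_eq_mul] at h1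
  have h2 : (T.card : ℝ) ≤ 4 ^ i := by exact_mod_cast h.1
  have h3 : (T.card : ℝ) * Real.sqrt c ≤ 4 ^ i * Real.sqrt c :=
    mul_le_mul_of_nonneg_right h2 (Real.sqrt_nonneg _)
  calc (1 / 2 : ℝ) ^ i * ∑ n ∈ T, ∑ t, g n t * |u ⟨n, t⟩| ≤ (1 / 2) ^ i * (4 ^ i * Real.sqrt c) :=
        mul_le_mul_of_nonneg_left (h1.trans h3) (by positivity)
    _ = 2 ^ i * Real.sqrt c := by rw [← mul_assoc, half_four]

/-- The flat case. -/
theorem caseA {y : ℕ → X} (hn : ∀ m, ‖y m‖ = 1) (hd : ∀ m l, m ≠ l → |y m| ⊓ |y l| = 0)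
    (b : Blocks y)
    (hA : ∀ c > 0, ∀ᶠ j in atTop, ∀ n, ∑ t : F n, fn (b.v j) ⟨n, t⟩ ^ 2 ≤ c) :
    ∃ ψ : ℕ → ℕ, StrictMono ψ ∧ ∃ K : ℝ, 0 < K ∧ ∀ (s : Finset ℕ) (c : ℕ → ℝ) (C : ℝ),
      (∀ ω, rho ω (fn (∑ j ∈ s, c j • y (b.φ (ψ j)))) ≤ C) → ∑ j ∈ s, c j ^ 2 ≤ K * C ^ 2 := by
  classical
  have hstep : ∀ p : ℕ × ℕ, ∃ (j : ℕ) (ω : Conf), p.1 < j ∧ p.2 < ω.I ∧
      1 / 4 ≤ ∑ i ∈ Ico p.2 ω.I, ω.β i * al i (ω.T i) (ω.g i) (fn (b.v j)) := by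
    rintro ⟨N, a⟩
    have hc : (0:ℝ) < ((1 / 4) / 2 ^ a) ^ 2 := by positivity
    obtain ⟨j, hj1, hj2⟩ := ((hA _ hc).and (eventually_gt_atTop N)).exists
    obtain ⟨ω, hω⟩ := Fam.exists_lt_of_lt_norm (b.v j) (half_le_norm_v hn b j)
    rw [fam_rho] at hω
    have h1 : rho ω (fn (b.v j)) =
        ∑ i ∈ (range ω.I).filter (· < a), ω.β i * al i (ω.T i) (ω.g i) (fn (b.v j)) +
        ∑ i ∈ (range ω.I).filter (¬ · < a), ω.β i * al i (ω.T i) (ω.g i) (fn (b.v j)) := by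
      rw [sum_filter_add_sum_filter_not]; rfl
    have h2 : ∑ i ∈ (range ω.I).filter (· < a), ω.β i * al i (ω.T i) (ω.g i) (fn (b.v j)) ≤
        1 / 4 := by
      have h3 : ∀ i ∈ (range ω.I).filter (· < a),
          ω.β i * al i (ω.T i) (ω.g i) (fn (b.v j)) ≤ 2 ^ i * ((1 / 4) / 2 ^ a) := by
        intro i hi
        rw [mem_filter, mem_range] at hi
        have h4 := al_le_levels (ω.adm i) hj1
        rw [Real.sqrt_sq (by positivity)] at h4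
        have h5 := al_nonneg (ω.adm i) (fn (b.v j))
        have h6 := ω.β_le hi.1
        nlinarith [ω.β_nonneg i]
      refine (sum_le_sum h3).trans ?_
      rw [← sum_mul]
      have h7 : ∑ i ∈ (range ω.I).filter (· < a), (2:ℝ) ^ i ≤ 2 ^ a := by
        have h8 : (range ω.I).filter (· < a) ⊆ range a := fun i hi =>
          mem_range.mpr (mem_filter.mp hi).2
        refine (sum_le_sum_of_subset_of_nonneg h8 fun _ _ _ => by positivity).trans ?_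
        rw [geom_sum_eq (by norm_num)]
        norm_num
      calc (∑ i ∈ (range ω.I).filter (· < a), (2:ℝ) ^ i) * ((1 / 4) / 2 ^ a) ≤
          2 ^ a * ((1 / 4) / 2 ^ a) := mul_le_mul_of_nonneg_right h7 (by positivity)
        _ = 1 / 4 := by field_simp
    have h3 : (range ω.I).filter (¬ · < a) = Ico a ω.I := by
      ext i; simp only [mem_filter, mem_range, mem_Ico]; omega
    rw [h3] at h1
    have h4 : 1 / 4 ≤ ∑ i ∈ Ico a ω.I, ω.β i * al i (ω.T i) (ω.g i) (fn (b.v j)) := by linarith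
    refine ⟨j, ω, hj2, ?_, h4⟩
    by_contra hcon
    push Not at hcon
    rw [Ico_eq_empty_of_le hcon, sum_empty] at h4
    norm_num at h4
  choose J W h1 h2 h3 using hstep
  let st : ℕ → ℕ × ℕ := fun l => Nat.rec (0, 0) (fun _ p => (J p, (W p).I)) l
  have hst : ∀ l, st (l + 1) = (J (st l), (W (st l)).I) := fun _ => rfl
  let a : ℕ → ℕ := fun l => (st l).2
  have ha0 : a 0 = 0 := rfl
  have has : ∀ l, a (l + 1) = (W (st l)).I := fun l => by simp only [a, hst]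
  have ham : StrictMono a := strictMono_nat_of_lt_succ fun l => by
    rw [has]; exact h2 (st l)
  let ψ : ℕ → ℕ := fun l => J (st l)
  have hψ : StrictMono ψ := strictMono_nat_of_lt_succ fun l => by
    have := h1 (st (l + 1))
    rw [hst] at this
    simpa only [ψ, hst] using this
  refine ⟨ψ, hψ, 16, by norm_num, fun s c C hC => ?_⟩
  set w := fn (∑ j ∈ s, c j • y (b.φ (ψ j))) with hw
  let lam : ℕ → ℕ := fun i => Nat.findGreatest (fun l => a l ≤ i) i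
  have hlam : ∀ l i, i ∈ Ico (a l) (a (l + 1)) → lam i = l := by
    intro l i hi
    rw [mem_Ico] at hi
    refine Nat.findGreatest_eq_iff.mpr ⟨(ham.le_apply).trans hi.1, fun _ => hi.1, ?_⟩
    intro m hm _ hcon
    have := ham.monotone (show l + 1 ≤ m by omega)
    omega
  let T : ℕ → Finset ℕ := fun i => (W (st (lam i))).T i
  let g : ℕ → (n : ℕ) → F n → ℝ := fun i => (W (st (lam i))).g i
  have hadm : ∀ i, AdmT i (T i) (g i) := fun i => (W (st (lam i))).adm i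
  have key : ∀ l ∈ s, c l ^ 2 / 16 ≤ ∑ i ∈ Ico (a l) (a (l + 1)), al i (T i) (g i) w ^ 2 := by
    intro l hl
    have e1 : ∀ i ∈ Ico (a l) (a (l + 1)),
        (|c l| * al i ((W (st l)).T i) ((W (st l)).g i) (fn (b.v (ψ l)))) ^ 2 ≤
          al i (T i) (g i) w ^ 2 := by
      intro i hi
      have h4 : T i = (W (st l)).T i := by simp only [T, hlam l i hi]
      have h5 : g i = (W (st l)).g i := by simp only [g, hlam l i hi]
      rw [h4, h5]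
      have h6 : |c l| * al i ((W (st l)).T i) ((W (st l)).g i) (fn (b.v (ψ l))) ≤
          al i ((W (st l)).T i) ((W (st l)).g i) w := by
        rw [← al_smul]
        refine al_mono ((W (st l)).adm i) fun x => ?_
        rw [Pi.smul_apply, smul_eq_mul, abs_mul]
        exact abs_sum_ge hd (θ := fun j => b.φ (ψ j)) (b.hφ.injective.comp hψ.injective) c hl
          fun h => (b.heq _ x h).symm
      exact pow_le_pow_left₀ (mul_nonneg (abs_nonneg _) (al_nonneg ((W (st l)).adm i) _)) h6 2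
    refine le_trans ?_ (sum_le_sum e1)
    simp_rw [mul_pow, sq_abs]
    rw [← mul_sum]
    have e2 := h3 (st l)
    have e3 : Ico (st l).2 (W (st l)).I = Ico (a l) (a (l + 1)) := by rw [has]
    rw [e3] at e2
    have e4 := sum_mul_sq_le_sq_mul_sq (Ico (a l) (a (l + 1))) (fun i => (W (st l)).β i)
      (fun i => al i ((W (st l)).T i) ((W (st l)).g i) (fn (b.v (ψ l))))
    have e5 : ∑ i ∈ Ico (a l) (a (l + 1)), (W (st l)).β i ^ 2 ≤ 1 := by
      refine le_trans (sum_le_sum_of_subset_of_nonneg ?_ fun _ _ _ => sq_nonneg _) (W (st l)).β_sq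
      intro i hi
      rw [mem_Ico, has] at hi
      exact mem_range.mpr hi.2
    have e6 : 0 ≤ ∑ i ∈ Ico (a l) (a (l + 1)),
        al i ((W (st l)).T i) ((W (st l)).g i) (fn (b.v (ψ l))) ^ 2 :=
      sum_nonneg fun _ _ => sq_nonneg _
    have e7 : (1 / 4 : ℝ) ^ 2 ≤ (∑ i ∈ Ico (a l) (a (l + 1)), (W (st l)).β i *
        al i ((W (st l)).T i) ((W (st l)).g i) (fn (b.v (ψ l)))) ^ 2 :=
      pow_le_pow_left₀ (by norm_num) e2 2
    have e8 : 1 / 16 ≤ ∑ i ∈ Ico (a l) (a (l + 1)),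
        al i ((W (st l)).T i) ((W (st l)).g i) (fn (b.v (ψ l))) ^ 2 := by
      have := e7.trans e4
      nlinarith
    nlinarith [mul_le_mul_of_nonneg_left e8 (sq_nonneg (c l))]
  have h4 := sum_le_sum key
  rw [← sum_div] at h4
  have h5 : ∑ l ∈ s, ∑ i ∈ Ico (a l) (a (l + 1)), al i (T i) (g i) w ^ 2 ≤ C ^ 2 := by
    rw [← sum_biUnion]
    · have h6 : (s.biUnion fun l => Ico (a l) (a (l + 1))) ⊆ range (a (s.sup id + 1)) := by
        intro i hi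
        obtain ⟨l, hl, hi'⟩ := mem_biUnion.mp hi
        rw [mem_Ico] at hi'
        have h7 : l ≤ s.sup id := Finset.le_sup (f := id) hl
        exact mem_range.mpr (hi'.2.trans_le (ham.monotone (Nat.succ_le_succ h7)))
      exact (sum_le_sum_of_subset_of_nonneg h6 fun _ _ _ => sq_nonneg _).trans
        (sum_al_sq_le hC _ T g hadm)
    · intro l _ m _ hlm
      rw [Function.onFun, disjoint_left]
      intro i hi hi'
      exact hlm ((hlam l i hi).symm.trans (hlam m i hi'))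
  linarith

theorem level_le {u : Idx → ℝ} {C : ℝ} (hC : ∀ ω, rho ω u ≤ C) (n : ℕ) :
    ∑ t : F n, u ⟨n, t⟩ ^ 2 ≤ C ^ 2 := by
  set s := ∑ t : F n, u ⟨n, t⟩ ^ 2 with hs
  have hs0 : 0 ≤ s := sum_nonneg fun _ _ => sq_nonneg _
  rcases eq_or_lt_of_le hs0 with h0 | h0
  · rw [← h0]; positivity
  have hq : 0 < Real.sqrt s := Real.sqrt_pos.mpr h0
  let g : (m : ℕ) → F m → ℝ := fun m t => |u ⟨m, t⟩| / Real.sqrt s
  have hadm : AdmT 0 {n} g := by
    refine ⟨by simp, fun m hm => ?_⟩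
    rw [mem_singleton] at hm
    subst hm
    have e1 : ∑ t, g m t ^ 2 ≤ 1 := by
      simp only [g, div_pow, sq_abs, Real.sq_sqrt h0.le]
      rw [← sum_div, ← hs, div_self h0.ne']
    refine ⟨fun t => by positivity, Or.inr ⟨e1, ?_⟩⟩
    have e2 := sum_mul_sq_le_sq_mul_sq univ (g m) (xv m)
    have e3 : ∑ t, xv m t ^ 2 = 1 := by
      rw [← sum_xv_sq m]; exact sum_congr rfl fun t _ => by ring
    rw [e3, mul_one] at e2
    have e4 : 0 ≤ ∑ t, g m t * xv m t := sum_nonneg fun t _ => mul_nonneg (by positivity) (xv_pos _ _).le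
    simp only [dl, pow_zero]
    nlinarith
  have h1 := al_le_of_rho hC hadm
  have h2 : al 0 {n} g u = Real.sqrt s := by
    unfold al
    simp only [pow_zero, one_mul, sum_singleton, g]
    have : ∀ t : F n, |u ⟨n, t⟩| / Real.sqrt s * |u ⟨n, t⟩| = u ⟨n, t⟩ ^ 2 / Real.sqrt s := by
      intro t; rw [div_mul_eq_mul_div, ← sq, sq_abs]
    simp_rw [this]
    rw [← sum_div, ← hs, div_eq_iff hq.ne', Real.mul_self_sqrt h0.le]
  rw [h2] at h1
  calc s = Real.sqrt s ^ 2 := (Real.sq_sqrt h0.le).symm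
    _ ≤ C ^ 2 := by nlinarith

/-- The peaked case. -/
theorem caseB {y : ℕ → X} (hn : ∀ m, ‖y m‖ = 1) (hd : ∀ m l, m ≠ l → |y m| ⊓ |y l| = 0)
    (b : Blocks y) {c₀ : ℝ} (hc₀ : 0 < c₀)
    (hB : ∃ᶠ j in atTop, ∃ n, c₀ < ∑ t : F n, fn (b.v j) ⟨n, t⟩ ^ 2) :
    ∃ ψ : ℕ → ℕ, StrictMono ψ ∧ ∃ K : ℝ, 0 < K ∧ ∀ (s : Finset ℕ) (c : ℕ → ℝ) (C : ℝ),
      (∀ ω, rho ω (fn (∑ j ∈ s, c j • y (b.φ (ψ j)))) ≤ C) → ∑ j ∈ s, c j ^ 2 ≤ K * C ^ 2 := by
  classical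
  obtain ⟨ψ₁, hψ₁, hlv⟩ := extraction_of_frequently_atTop hB
  choose lv₁ hlv₁ using hlv
  let f : (k : ℕ) → F (lv₁ k) → ℝ := fun k t => |fn (b.v (ψ₁ k)) ⟨lv₁ k, t⟩|
  have hf0 : ∀ k t, 0 ≤ f k t := fun k t => abs_nonneg _
  have hf1 : ∀ k, c₀ < ∑ t, f k t ^ 2 := fun k => by
    simp only [f, sq_abs]; exact hlv₁ k
  have hf2 : ∀ k, ∑ t, f k t ^ 2 ≤ 1 := fun k => by
    simp only [f, sq_abs]
    have := level_le (fun ω => (rho_le_norm (b.v (ψ₁ k)) ω).trans (norm_v_le hn b _)) (lv₁ k)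
    simpa using this
  have hloc : ∀ k, b.lo (ψ₁ k) ≤ lv₁ k ∧ lv₁ k < b.lo (ψ₁ k + 1) := by
    intro k
    by_contra hcon
    have : ∑ t : F (lv₁ k), fn (b.v (ψ₁ k)) ⟨lv₁ k, t⟩ ^ 2 = 0 := by
      refine sum_eq_zero fun t _ => ?_
      by_contra h
      exact hcon (b.hsupp _ _ t (fun h' => h (by rw [h']; simp)))
    have h2 := hlv₁ k
    rw [this] at h2
    linarith
  have hlvm : StrictMono lv₁ := by
    intro k l hkl
    have h1 := b.hlo (show ψ₁ k + 1 ≤ ψ₁ l from hψ₁ hkl)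
    have := (hloc k).2
    have := (hloc l).1
    omega
  -- application of the lower estimate
  have hfinish : ∀ (χ : ℕ → ℕ), StrictMono χ → ∀ κ : ℝ, 0 < κ →
      (∀ i, ∀ T : Finset ℕ, (∀ j ∈ T, i ≤ j) → ∀ j ∈ T, ∃ g : F (lv₁ (χ j)) → ℝ,
        Adm i (T.image fun j => lv₁ (χ j)) (lv₁ (χ j)) g ∧ κ ≤ ∑ t, g t * f (χ j) t) →
      ∃ ψ : ℕ → ℕ, StrictMono ψ ∧ ∃ K : ℝ, 0 < K ∧ ∀ (s : Finset ℕ) (c : ℕ → ℝ) (C : ℝ),
      (∀ ω, rho ω (fn (∑ j ∈ s, c j • y (b.φ (ψ j)))) ≤ C) → ∑ j ∈ s, c j ^ 2 ≤ K * C ^ 2 := by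
    intro χ hχ κ hκ hl
    refine ⟨fun j => ψ₁ (χ j), hψ₁.comp hχ, 5 / κ ^ 2, by positivity, fun s c C hC => ?_⟩
    have h1 := lower (v := fun j => fn (b.v (ψ₁ (χ j)))) (lv := fun j => lv₁ (χ j)) hκ.le
      (s := s) (c := c) (fun j _ l _ h => hχ.injective (hlvm.injective h))
      (fun i T _ hT j hj => hl i T hT j hj)
      (w := fn (∑ j ∈ s, c j • y (b.φ (ψ₁ (χ j)))))
      (fun j hj t => abs_sum_ge hd (θ := fun j => b.φ (ψ₁ (χ j)))
        (b.hφ.injective.comp (hψ₁.injective.comp hχ.injective)) c hj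
          fun h => (b.heq _ _ h).symm) hC
    rw [div_mul_eq_mul_div, le_div_iff₀ (by positivity)]
    linarith
  by_cases hcase : ∀ δ > 0, ∀ᶠ k in atTop, ∑ t, f k t * xv (lv₁ k) t ≤ δ
  · -- concentrated sequences
    obtain ⟨χ, hχ, hχ2⟩ := extraction_forall_of_eventually'
      (P := fun n k => ∑ t, f k t * xv (lv₁ k) t ≤ Real.sqrt c₀ * dl n)
      (fun n => by
        have : 0 < Real.sqrt c₀ * dl n := mul_pos (Real.sqrt_pos.mpr hc₀) (dl_pos n)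
        obtain ⟨N, hN⟩ := eventually_atTop.mp (hcase _ this)
        exact ⟨N, hN⟩)
    refine hfinish χ hχ (Real.sqrt c₀) (Real.sqrt_pos.mpr hc₀) fun i T hT j hj => ?_
    set s := ∑ t, f (χ j) t ^ 2 with hs
    have hs0 : 0 < s := hc₀.trans (hf1 _)
    have hq : 0 < Real.sqrt s := Real.sqrt_pos.mpr hs0
    have hqc : Real.sqrt c₀ ≤ Real.sqrt s := Real.sqrt_le_sqrt (hf1 _).le
    refine ⟨fun t => f (χ j) t / Real.sqrt s, ⟨fun t => div_nonneg (hf0 _ _) hq.le,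
      Or.inr ⟨?_, ?_⟩⟩, ?_⟩
    · simp only [div_pow, Real.sq_sqrt hs0.le]
      rw [← sum_div, ← hs, div_self hs0.ne']
    · have e1 : ∀ t, f (χ j) t / Real.sqrt s * xv (lv₁ (χ j)) t =
          f (χ j) t * xv (lv₁ (χ j)) t / Real.sqrt s := fun t => by ring
      simp_rw [e1]
      rw [← sum_div, div_le_iff₀ hq]
      have e2 := hχ2 j
      have e3 := dl_anti (hT j hj)
      have e4 := dl_pos i
      have e5 := dl_pos j
      calc ∑ t, f (χ j) t * xv (lv₁ (χ j)) t ≤ Real.sqrt c₀ * dl j := e2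
        _ ≤ Real.sqrt s * dl i := mul_le_mul hqc e3 e5.le hq.le
        _ = _ := mul_comm _ _
    · have e1 : ∀ t, f (χ j) t / Real.sqrt s * f (χ j) t = f (χ j) t ^ 2 / Real.sqrt s :=
        fun t => by ring
      simp_rw [e1]
      rw [← sum_div, ← hs, le_div_iff₀ hq]
      calc Real.sqrt c₀ * Real.sqrt s ≤ Real.sqrt s * Real.sqrt s :=
            mul_le_mul_of_nonneg_right hqc hq.le
        _ = s := Real.mul_self_sqrt hs0.le
  · -- spread sequences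
    push Not at hcase
    obtain ⟨a, ha, hfr⟩ := hcase
    obtain ⟨χ₁, hχ₁, hχ₁a⟩ := extraction_of_frequently_atTop hfr
    let bb : ℕ → ℕ → ℝ := fun j l => bm (lv₁ (χ₁ j)) (f (χ₁ j)) (lv₁ (χ₁ l))
    have hinj : Function.Injective fun l => lv₁ (χ₁ l) := hlvm.injective.comp hχ₁.injective
    have hbs : ∀ j, ∑ l ∈ range j, bb j l ≤ 1 := by
      intro j
      have e1 : ∑ l ∈ range j, bb j l =
          ∑ m ∈ (range j).image (fun l => lv₁ (χ₁ l)), bm (lv₁ (χ₁ j)) (f (χ₁ j)) m := by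
        rw [sum_image fun x _ z _ h => hinj h]
      rw [e1]
      refine le_trans (sum_le_sum_of_subset_of_nonneg ?_ fun _ _ _ => bm_nonneg _ _ _)
        ((sum_bm_le _ _).trans (hf2 _))
      intro m hm
      obtain ⟨l, hl, rfl⟩ := mem_image.mp hm
      exact mem_range.mpr (hlvm (hχ₁ (mem_range.mp hl)))
    obtain ⟨χ₂, hχ₂, hsp⟩ := exists_sparse (b := bb) (fun j l => bm_nonneg _ _ _) hbs
      (η := a ^ 2 / 4) (by positivity)
    refine hfinish (χ₁ ∘ χ₂) (hχ₁.comp hχ₂) (a / 2) (by positivity) fun i T hT j hj => ?_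
    refine ⟨fun t => xv _ t * indH (lv₁ ((χ₁ ∘ χ₂) j))
      (T.image fun j => lv₁ ((χ₁ ∘ χ₂) j)) t, adm_H _ _ _, ?_⟩
    refine half_le (hf0 _) ha (hχ₁a _).le ?_
    refine le_trans ?_ (hsp j)
    have hinj2 : Function.Injective fun l => lv₁ (χ₁ (χ₂ l)) := hinj.comp hχ₂.injective
    have e1 : ∑ l ∈ range j, bb (χ₂ j) (χ₂ l) =
        ∑ m ∈ (range j).image (fun l => lv₁ (χ₁ (χ₂ l))),
          bm (lv₁ (χ₁ (χ₂ j))) (f (χ₁ (χ₂ j))) m := by
      rw [sum_image fun x _ z _ h => hinj2 h]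
    rw [e1]
    refine sum_le_sum_of_subset_of_nonneg ?_ fun _ _ _ => bm_nonneg _ _ _
    intro m hm
    rw [mem_filter] at hm
    obtain ⟨l, hl, rfl⟩ := mem_image.mp hm.1
    refine mem_image_of_mem _ (mem_range.mpr ?_)
    exact (hχ₁.comp hχ₂).lt_iff_lt.mp (hlvm.lt_iff_lt.mp hm.2)

/-- Every normalized disjoint sequence has a subsequence equivalent to the basis of `l2`. -/
theorem two_DH {y : ℕ → X} (hn : ∀ m, ‖y m‖ = 1) (hd : ∀ m l, m ≠ l → |y m| ⊓ |y l| = 0) :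
    ∃ φ : ℕ → ℕ, StrictMono φ ∧ ∃ C : ℝ, 0 < C ∧ ∀ (s : Finset ℕ) (c : ℕ → ℝ),
      Real.sqrt (∑ j ∈ s, c j ^ 2) ≤ C * ‖∑ j ∈ s, c j • y (φ j)‖ ∧
      ‖∑ j ∈ s, c j • y (φ j)‖ ≤ C * Real.sqrt (∑ j ∈ s, c j ^ 2) := by
  obtain ⟨b⟩ := exists_blocks hd
  have hmain : ∃ ψ : ℕ → ℕ, StrictMono ψ ∧ ∃ K : ℝ, 0 < K ∧ ∀ (s : Finset ℕ) (c : ℕ → ℝ) (C : ℝ),
      (∀ ω, rho ω (fn (∑ j ∈ s, c j • y (b.φ (ψ j)))) ≤ C) → ∑ j ∈ s, c j ^ 2 ≤ K * C ^ 2 := by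
    by_cases hA : ∀ c > 0, ∀ᶠ j in atTop, ∀ n, ∑ t : F n, fn (b.v j) ⟨n, t⟩ ^ 2 ≤ c
    · exact caseA hn hd b hA
    · push Not at hA
      obtain ⟨c₀, hc₀, hB⟩ := hA
      exact caseB hn hd b hc₀ hB
  obtain ⟨ψ, hψ, K, hK, hlow⟩ := hmain
  refine ⟨fun j => b.φ (ψ j), b.hφ.comp hψ, max 5 (Real.sqrt K), by positivity, fun s c => ⟨?_, ?_⟩⟩
  · have h1 := hlow s c _ (rho_le_norm _)
    have h2 : Real.sqrt (∑ j ∈ s, c j ^ 2) ≤ Real.sqrt (K * ‖∑ j ∈ s, c j • y (b.φ (ψ j))‖ ^ 2) :=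
      Real.sqrt_le_sqrt h1
    rw [Real.sqrt_mul hK.le, Real.sqrt_sq (norm_nonneg _)] at h2
    exact h2.trans (mul_le_mul_of_nonneg_right (le_max_right _ _) (norm_nonneg _))
  · exact (upper_seq hn b hψ s c).trans
      (mul_le_mul_of_nonneg_right (le_max_left _ _) (Real.sqrt_nonneg _))

end Pool.Agent.H63.DHDC
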