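import Pool.Agent.H63.DHDC.NotDC

set_option autoImplicit false

open Finset Filter Topology

namespace Pool.Agent.H63.DHDC

open Fam

noncomputable instance : IsOrderedModule ℝ X :=
  IsOrderedModule.of_smul_nonneg fun a ha b hb => by
    intro x
    exact mul_nonneg ha (hb x)

theorem xx_disj (m n : ℕ) (h : m ≠ n) : |xx m| ⊓ |xx n| = 0 := by
  refine fn_inj (funext fun x => ?_)
  obtain ⟨l, t⟩ := x
  rw [fn_inf, fn_abs, fn_abs, Pi.inf_apply, Pi.abs_apply, Pi.abs_apply, fn_zero, Pi.zero_apply]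
  unfold xx
  by_cases hl : l = m
  · have : l ≠ n := fun h' => h (hl ▸ h')
    rw [fn_lev_ne this, abs_zero, inf_eq_right.mpr (abs_nonneg _)]
  · rw [fn_lev_ne hl, abs_zero, inf_eq_left.mpr (abs_nonneg _)]

theorem X_separable : TopologicalSpace.SeparableSpace X := Fam.separable fam

end Pool.Agent.H63.DHDC
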