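import Pool.Agent.H63.DHDC.Upper

set_option autoImplicit false

open Finset

namespace Pool.Agent.H63.DHDC

theorem succ_le_four_pow (i : ℕ) : i + 1 ≤ 4 ^ i := by
  induction i with
  | zero => simp
  | succ n ih => rw [pow_succ]; omega

/-- A decreasing rearrangement estimate without rearrangements. -/
theorem comb {s : Finset ℕ} {c : ℕ → ℝ} (hc : ∀ j, 0 ≤ c j) {S : ℕ → ℝ} {B : ℝ}
    (hS : ∀ i, ∀ T ⊆ s, (∀ j ∈ T, i ≤ j) → T.card ≤ 4 ^ i → ∑ j ∈ T, c j ≤ S i)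
    (hB : ∀ i, S i ≤ B) :
    ∃ J, ∑ j ∈ s, c j ^ 2 ≤ 5 * ∑ i ∈ range J, (1 / 4) ^ i * S i ^ 2 := by
  have ht : Filter.Tendsto (fun J : ℕ => (1 / 4 : ℝ) ^ J * B) Filter.atTop (nhds 0) := by
    have := (tendsto_pow_atTop_nhds_zero_of_lt_one (r := (1 / 4 : ℝ)) (by norm_num)
      (by norm_num)).mul_const B
    simpa using this
  have hev : ∀ᶠ J in Filter.atTop, ∀ j ∈ s, 0 < c j → (1 / 4 : ℝ) ^ J * B < c j := by
    rw [Filter.eventually_all_finset]
    intro j _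
    by_cases h : 0 < c j
    · filter_upwards [ht.eventually (gt_mem_nhds h)] with J hJ _ using hJ
    · exact Filter.Eventually.of_forall fun J h' => absurd h' h
  obtain ⟨J, hJ⟩ := hev.exists
  refine ⟨J, ?_⟩
  have hS0 : ∀ i, 0 ≤ S i := fun i => by
    simpa using hS i ∅ (empty_subset _) (by simp) (by simp)
  have key : ∀ j ∈ s, c j ^ 2 ≤ ∑ i ∈ range J,
      if (1 / 4 : ℝ) ^ (i + 1) * S (i + 1) < c j then ((1 / 4) ^ i * S i) ^ 2 else 0 := by
    intro j hj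
    rcases eq_or_lt_of_le (hc j) with h0 | h0
    · rw [← h0]
      simp only [ne_eq, OfNat.ofNat_ne_zero, not_false_eq_true, zero_pow]
      exact sum_nonneg fun i _ => by split_ifs <;> positivity
    · have hex : ∃ i < J, c j ≤ (1 / 4 : ℝ) ^ i * S i ∧ (1 / 4 : ℝ) ^ (i + 1) * S (i + 1) < c j := by
        by_contra hcon
        push Not at hcon
        have hall : ∀ i ≤ J, c j ≤ (1 / 4 : ℝ) ^ i * S i := by
          intro i
          induction i with
          | zero =>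
            intro _
            have := hS 0 {j} (by simpa using hj) (by simp) (by simp)
            simpa using this
          | succ m ih =>
            intro hm
            exact hcon m (by omega) (ih (by omega))
        have h1 := hall J le_rfl
        have h2 := hJ j hj h0
        have h3 : (1 / 4 : ℝ) ^ J * S J ≤ (1 / 4 : ℝ) ^ J * B :=
          mul_le_mul_of_nonneg_left (hB J) (by positivity)
        linarith
      obtain ⟨i, hi, h1, h2⟩ := hex
      have h3 : (if (1 / 4 : ℝ) ^ (i + 1) * S (i + 1) < c j then ((1 / 4) ^ i * S i) ^ 2 else 0) ≤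
          ∑ i ∈ range J, if (1 / 4 : ℝ) ^ (i + 1) * S (i + 1) < c j then ((1 / 4) ^ i * S i) ^ 2
            else 0 :=
        single_le_sum (f := fun i => if (1 / 4 : ℝ) ^ (i + 1) * S (i + 1) < c j then
          ((1 / 4) ^ i * S i) ^ 2 else 0) (fun i _ => by positivity) (mem_range.mpr hi)
      rw [if_pos h2] at h3
      exact (pow_le_pow_left₀ (hc j) h1 2).trans h3
  refine (sum_le_sum key).trans ?_
  rw [sum_comm, mul_sum]
  refine sum_le_sum fun i _ => ?_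
  rw [← sum_filter, sum_const, nsmul_eq_mul]
  have hcard : ((s.filter fun j => (1 / 4 : ℝ) ^ (i + 1) * S (i + 1) < c j).card : ℝ) ≤
      5 * 4 ^ i := by
    have h1 : (s.filter fun j => (1 / 4 : ℝ) ^ (i + 1) * S (i + 1) < c j) ⊆
        (s.filter fun j => i + 1 ≤ j ∧ (1 / 4 : ℝ) ^ (i + 1) * S (i + 1) < c j) ∪
          range (i + 1) := by
      intro j hj
      rw [mem_filter] at hj
      rw [mem_union, mem_filter, mem_range]
      rcases Nat.lt_or_ge j (i + 1) with h | h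
      · exact Or.inr h
      · exact Or.inl ⟨hj.1, h, hj.2⟩
    have h2 : (s.filter fun j => i + 1 ≤ j ∧ (1 / 4 : ℝ) ^ (i + 1) * S (i + 1) < c j).card ≤
        4 ^ (i + 1) := by
      by_contra hcon
      push Not at hcon
      obtain ⟨T, hT, hTc⟩ := exists_subset_card_eq hcon.le
      have hT' : ∀ j ∈ T, j ∈ s ∧ i + 1 ≤ j ∧ (1 / 4 : ℝ) ^ (i + 1) * S (i + 1) < c j :=
        fun j hj => mem_filter.mp (hT hj)
      have h3 := hS (i + 1) T (fun j hj => (hT' j hj).1) (fun j hj => (hT' j hj).2.1) hTc.le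
      have hTne : T.Nonempty := by
        rw [← card_pos, hTc]; positivity
      have h4 : ∑ _j ∈ T, (1 / 4 : ℝ) ^ (i + 1) * S (i + 1) < ∑ j ∈ T, c j :=
        sum_lt_sum_of_nonempty hTne fun j hj => (hT' j hj).2.2
      rw [sum_const, hTc, nsmul_eq_mul, ← mul_assoc] at h4
      push_cast at h4
      rw [← mul_pow] at h4
      norm_num at h4
      linarith
    have h3 := (card_le_card h1).trans (card_union_le _ _)
    rw [card_range] at h3
    have h4 := succ_le_four_pow i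
    have h5 : (s.filter fun j => (1 / 4 : ℝ) ^ (i + 1) * S (i + 1) < c j).card ≤ 5 * 4 ^ i := by
      have h6 : (4:ℕ) ^ (i + 1) = 4 * 4 ^ i := pow_succ' 4 i
      omega
    exact_mod_cast h5
  have h1 : (0:ℝ) ≤ ((1 / 4) ^ i * S i) ^ 2 := sq_nonneg _
  refine (mul_le_mul_of_nonneg_right hcard h1).trans (le_of_eq ?_)
  have h2 : (4:ℝ) ^ i * (1 / 4) ^ i = 1 := by rw [← mul_pow]; norm_num
  calc 5 * (4:ℝ) ^ i * ((1 / 4) ^ i * S i) ^ 2 =
      5 * ((4 ^ i * (1 / 4) ^ i) * ((1 / 4) ^ i * S i ^ 2)) := by ring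
    _ = _ := by rw [h2]; ring

/-- Lower square estimate. -/
theorem lower {v : ℕ → Idx → ℝ} {lv : ℕ → ℕ} {κ : ℝ} (hκ : 0 ≤ κ) {s : Finset ℕ} {c : ℕ → ℝ}
    (hinj : ∀ j ∈ s, ∀ l ∈ s, lv j = lv l → j = l)
    (hl : ∀ i, ∀ T ⊆ s, (∀ j ∈ T, i ≤ j) → ∀ j ∈ T, ∃ g : F (lv j) → ℝ,
      Adm i (T.image lv) (lv j) g ∧ κ ≤ ∑ t, g t * |v j ⟨lv j, t⟩|)
    {w : Idx → ℝ} (hw : ∀ j ∈ s, ∀ t, |c j| * |v j ⟨lv j, t⟩| ≤ |w ⟨lv j, t⟩|)
    {C : ℝ} (hC : ∀ ω, rho ω w ≤ C) :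
    κ ^ 2 * ∑ j ∈ s, c j ^ 2 ≤ 5 * C ^ 2 := by
  classical
  -- maximal sets
  have hmax : ∀ i, ∃ T ⊆ s, (∀ j ∈ T, i ≤ j) ∧ T.card ≤ 4 ^ i ∧
      ∀ T' ⊆ s, (∀ j ∈ T', i ≤ j) → T'.card ≤ 4 ^ i → ∑ j ∈ T', |c j| ≤ ∑ j ∈ T, |c j| := by
    intro i
    obtain ⟨T, hT, hTm⟩ := exists_max_image
      (s.powerset.filter fun T => (∀ j ∈ T, i ≤ j) ∧ T.card ≤ 4 ^ i) (fun T => ∑ j ∈ T, |c j|)
      ⟨∅, by simp⟩
    rw [mem_filter, mem_powerset] at hT
    refine ⟨T, hT.1, hT.2.1, hT.2.2, fun T' h1 h2 h3 => hTm T' ?_⟩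
    rw [mem_filter, mem_powerset]
    exact ⟨h1, h2, h3⟩
  choose P hP1 hP2 hP3 hP4 using hmax
  have hg : ∀ i (m : ℕ), ∃ g : F m → ℝ, m ∈ (P i).image lv → (Adm i ((P i).image lv) m g ∧
      ∀ j ∈ P i, lv j = m → κ * |c j| ≤ ∑ t, g t * |w ⟨m, t⟩|) := by
    intro i m
    by_cases hm : m ∈ (P i).image lv
    · obtain ⟨j, hj, rfl⟩ := mem_image.mp hm
      obtain ⟨g, hg1, hg2⟩ := hl i (P i) (hP1 i) (hP2 i) j hj
      refine ⟨g, fun _ => ⟨hg1, fun l hl' hlj => ?_⟩⟩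
      have : l = j := hinj l (hP1 i hl') j (hP1 i hj) hlj
      subst this
      calc κ * |c l| ≤ (∑ t, g t * |v l ⟨lv l, t⟩|) * |c l| :=
            mul_le_mul_of_nonneg_right hg2 (abs_nonneg _)
        _ = ∑ t, g t * (|c l| * |v l ⟨lv l, t⟩|) := by
            rw [sum_mul]; exact sum_congr rfl fun t _ => by ring
        _ ≤ ∑ t, g t * |w ⟨lv l, t⟩| :=
            sum_le_sum fun t _ => mul_le_mul_of_nonneg_left (hw l (hP1 i hl') t) (hg1.1 t)
    · exact ⟨fun _ => 0, fun h => absurd h hm⟩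
  choose g hg using hg
  have hadm : ∀ i, AdmT i ((P i).image lv) (g i) := fun i =>
    ⟨card_image_le.trans (hP3 i), fun m hm => (hg i m hm).1⟩
  have hal : ∀ i, (1 / 2) ^ i * (κ * ∑ j ∈ P i, |c j|) ≤ al i ((P i).image lv) (g i) w := by
    intro i
    unfold al
    refine mul_le_mul_of_nonneg_left ?_ (by positivity)
    rw [sum_image (fun a ha b hb h => hinj a (hP1 i ha) b (hP1 i hb) h), mul_sum]
    exact sum_le_sum fun j hj => (hg i (lv j) (mem_image_of_mem _ hj)).2 j hj rfl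
  obtain ⟨J, hJ⟩ := comb (s := s) (c := fun j => |c j|) (fun j => abs_nonneg _)
    (S := fun i => ∑ j ∈ P i, |c j|) (B := ∑ j ∈ s, |c j|) (fun i T h1 h2 h3 => hP4 i T h1 h2 h3)
    (fun i => sum_le_sum_of_subset_of_nonneg (hP1 i) fun _ _ _ => abs_nonneg _)
  have h1 := sum_al_sq_le hC J (fun i => (P i).image lv) g hadm
  have h2 : κ ^ 2 * ∑ i ∈ range J, (1 / 4) ^ i * (∑ j ∈ P i, |c j|) ^ 2 ≤ C ^ 2 := by
    refine le_trans ?_ h1
    rw [mul_sum]
    refine sum_le_sum fun i _ => ?_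
    have h3 : 0 ≤ (1 / 2) ^ i * (κ * ∑ j ∈ P i, |c j|) :=
      mul_nonneg (by positivity) (mul_nonneg hκ (sum_nonneg fun _ _ => abs_nonneg _))
    have h4 := pow_le_pow_left₀ h3 (hal i) 2
    refine le_trans (le_of_eq ?_) h4
    have h5 : (1 / 4 : ℝ) ^ i = (1 / 2) ^ i * (1 / 2) ^ i := by rw [← mul_pow]; norm_num
    rw [h5]; ring
  simp only [sq_abs] at hJ
  nlinarith [sq_nonneg κ, mul_le_mul_of_nonneg_left hJ (sq_nonneg κ)]

end Pool.Agent.H63.DHDC
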