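import Mathlib

set_option autoImplicit false

open Finset

namespace Pool.Agent.H63.DHDC

/-- Coordinates visible at level `n`. -/
def Q (n : ℕ) : Finset (ℕ × ℕ) := range n ×ˢ range n

/-- Atoms of level `n`. -/
abbrev F (n : ℕ) : Type := ↥((Q n).powerset)

noncomputable def eps (k : ℕ) : ℝ := (1 / 2) ^ (4 * k + 4)

def rr (k : ℕ) : ℕ := 2 ^ (3 * k + 1)

theorem eps_pos (k : ℕ) : 0 < eps k := by unfold eps; positivity

theorem eps_le (k : ℕ) : eps k ≤ 1 / 2 := by
  unfold eps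
  calc (1 / 2 : ℝ) ^ (4 * k + 4) ≤ (1 / 2) ^ 1 := pow_le_pow_of_le_one (by norm_num) (by norm_num) (by omega)
    _ = 1 / 2 := by norm_num

/-- Weight of an atom. -/
noncomputable def wt (n : ℕ) (t : Finset (ℕ × ℕ)) : ℝ :=
  (∏ z ∈ t, eps z.1) * ∏ z ∈ Q n \ t, (1 - eps z.1)

theorem wt_pos (n : ℕ) (t : Finset (ℕ × ℕ)) : 0 < wt n t := by
  unfold wt
  refine mul_pos (prod_pos fun z _ => eps_pos _) (prod_pos fun z _ => ?_)
  linarith [eps_le z.1]

/-- Square root of the weight. -/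
noncomputable def xv (n : ℕ) (t : F n) : ℝ := Real.sqrt (wt n t)

theorem xv_pos (n : ℕ) (t : F n) : 0 < xv n t := Real.sqrt_pos.mpr (wt_pos n _)

theorem xv_sq (n : ℕ) (t : F n) : xv n t * xv n t = wt n t := Real.mul_self_sqrt (wt_pos n _).le

/-- Probability that all coordinates of `Z` are marked. -/
noncomputable def pb (Z : Finset (ℕ × ℕ)) : ℝ := ∏ z ∈ Z, eps z.1

theorem pb_pos (Z : Finset (ℕ × ℕ)) : 0 < pb Z := prod_pos fun z _ => eps_pos _

theorem pb_le_one (Z : Finset (ℕ × ℕ)) : pb Z ≤ 1 :=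
  prod_le_one (fun z _ => (eps_pos _).le) fun z _ => by linarith [eps_le z.1]

/-- Indicator of the event that all of `Z` is marked. -/
noncomputable def ind (Z : Finset (ℕ × ℕ)) (t : Finset (ℕ × ℕ)) : ℝ := if Z ⊆ t then 1 else 0

theorem ind_nonneg (Z t : Finset (ℕ × ℕ)) : 0 ≤ ind Z t := by unfold ind; split_ifs <;> norm_num

theorem ind_le_one (Z t : Finset (ℕ × ℕ)) : ind Z t ≤ 1 := by unfold ind; split_ifs <;> norm_num

theorem ind_mul_ind (Z Z' t : Finset (ℕ × ℕ)) : ind Z t * ind Z' t = ind (Z ∪ Z') t := by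
  unfold ind
  by_cases h : Z ⊆ t <;> by_cases h' : Z' ⊆ t <;> simp [h, h', union_subset_iff]

theorem sum_wt {n : ℕ} {Z : Finset (ℕ × ℕ)} (hZ : Z ⊆ Q n) :
    ∑ t : F n, ind Z t * wt n t = pb Z := by
  rw [Finset.sum_coe_sort (Q n).powerset (fun t => ind Z t * wt n t)]
  have h := Finset.prod_add (fun z : ℕ × ℕ => eps z.1)
    (fun z => if z ∈ Z then 0 else 1 - eps z.1) (Q n)
  have h1 : ∏ z ∈ Q n, (eps z.1 + if z ∈ Z then 0 else 1 - eps z.1) = pb Z := by
    have h2 : ∀ z ∈ Q n, (eps z.1 + if z ∈ Z then 0 else 1 - eps z.1) =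
        if z ∈ Z then eps z.1 else 1 := by
      intro z _
      split_ifs <;> ring
    rw [prod_congr rfl h2, prod_ite_mem, inter_eq_right.mpr hZ]
    rfl
  rw [h1] at h
  rw [h]
  refine sum_congr rfl fun t _ => ?_
  unfold ind wt
  by_cases hz : Z ⊆ t
  · rw [if_pos hz, one_mul]
    congr 1
    refine prod_congr rfl fun z hz' => ?_
    rw [if_neg]
    intro h3
    exact (mem_sdiff.mp hz').2 (hz h3)
  · rw [if_neg hz, zero_mul]
    obtain ⟨z, h1, h2⟩ := not_subset.mp hz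
    rw [prod_eq_zero (i := z) (mem_sdiff.mpr ⟨hZ h1, h2⟩) (by simp [h1]), mul_zero]

theorem sum_wt_one (n : ℕ) : ∑ t : F n, wt n t = 1 := by
  have := sum_wt (n := n) (Z := ∅) (empty_subset _)
  simpa [ind, pb] using this

theorem sum_xv_sq (n : ℕ) : ∑ t : F n, xv n t * xv n t = 1 := by
  simp_rw [xv_sq]; exact sum_wt_one n

theorem sum_ind_xv_sq {n : ℕ} {Z : Finset (ℕ × ℕ)} (hZ : Z ⊆ Q n) :
    ∑ t : F n, ind Z t * (xv n t * xv n t) = pb Z := by
  simp_rw [xv_sq]; exact sum_wt hZ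

/-- Bessel inequality for independent events. -/
theorem bessel {n : ℕ} {J : Type} [DecidableEq J] (s : Finset J) (Z : J → Finset (ℕ × ℕ))
    (hZ : ∀ j ∈ s, Z j ⊆ Q n) (hd : ∀ j ∈ s, ∀ l ∈ s, j ≠ l → Disjoint (Z j) (Z l))
    (f : F n → ℝ) :
    ∑ j ∈ s, ((∑ t : F n, ind (Z j) t * (f t * xv n t)) - pb (Z j) * ∑ t : F n, f t * xv n t) ^ 2 / pb (Z j) ≤
      ∑ t : F n, f t ^ 2 := by
  set a : J → ℝ := fun j => (∑ t : F n, ind (Z j) t * (f t * xv n t)) - pb (Z j) * ∑ t : F n, f t * xv n t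
    with ha
  set A : ℝ := ∑ j ∈ s, a j ^ 2 / pb (Z j) with hA
  have hA0 : 0 ≤ A := sum_nonneg fun j _ => div_nonneg (sq_nonneg _) (pb_pos _).le
  let G : F n → ℝ := fun t => ∑ j ∈ s, a j / pb (Z j) * (ind (Z j) t - pb (Z j)) * xv n t
  have h1 : ∑ t : F n, f t * G t = A := by
    simp only [G, mul_sum]
    rw [sum_comm]
    refine sum_congr rfl fun j _ => ?_
    have : ∀ t : F n, f t * (a j / pb (Z j) * (ind (Z j) t - pb (Z j)) * xv n t) =
        a j / pb (Z j) * (ind (Z j) t * (f t * xv n t) - pb (Z j) * (f t * xv n t)) := by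
      intro t; ring
    simp_rw [this]
    rw [← mul_sum, sum_sub_distrib, ← mul_sum]
    rw [show (∑ t : F n, ind (Z j) t * (f t * xv n t)) - pb (Z j) * ∑ t : F n, f t * xv n t = a j from rfl]
    ring
  have h2 : ∑ t : F n, G t ^ 2 ≤ A := by
    have e1 : ∀ t : F n, G t ^ 2 = ∑ j ∈ s, ∑ l ∈ s, (a j / pb (Z j)) * (a l / pb (Z l)) *
        ((ind (Z j) t * ind (Z l) t) * wt n t - pb (Z l) * (ind (Z j) t * wt n t) -
          pb (Z j) * (ind (Z l) t * wt n t) + pb (Z j) * pb (Z l) * wt n t) := by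
      intro t
      simp only [G]
      rw [sq, sum_mul_sum]
      refine sum_congr rfl fun j _ => sum_congr rfl fun l _ => ?_
      rw [← xv_sq]; ring
    simp_rw [e1]
    rw [sum_comm]
    have e2 : ∀ j ∈ s, ∑ t : F n, ∑ l ∈ s, (a j / pb (Z j)) * (a l / pb (Z l)) *
        ((ind (Z j) t * ind (Z l) t) * wt n t - pb (Z l) * (ind (Z j) t * wt n t) -
          pb (Z j) * (ind (Z l) t * wt n t) + pb (Z j) * pb (Z l) * wt n t) ≤
        a j ^ 2 / pb (Z j) := by
      intro j hj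
      rw [sum_comm]
      have e3 : ∀ l ∈ s, ∑ t : F n, (a j / pb (Z j)) * (a l / pb (Z l)) *
        ((ind (Z j) t * ind (Z l) t) * wt n t - pb (Z l) * (ind (Z j) t * wt n t) -
          pb (Z j) * (ind (Z l) t * wt n t) + pb (Z j) * pb (Z l) * wt n t) =
          (a j / pb (Z j)) * (a l / pb (Z l)) * (pb (Z j ∪ Z l) - pb (Z j) * pb (Z l)) := by
        intro l hl
        rw [← mul_sum, sum_add_distrib, sum_sub_distrib, sum_sub_distrib, ← mul_sum, ← mul_sum,
          ← mul_sum, sum_wt (hZ j hj), sum_wt (hZ l hl), sum_wt_one]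
        simp_rw [ind_mul_ind]
        rw [sum_wt (union_subset (hZ j hj) (hZ l hl))]
        ring
      rw [sum_congr rfl e3, sum_eq_single j]
      · rw [union_self]
        have hp := pb_pos (Z j)
        have : a j / pb (Z j) * (a j / pb (Z j)) * (pb (Z j) - pb (Z j) * pb (Z j)) =
            a j ^ 2 / pb (Z j) - a j ^ 2 := by
          field_simp
        rw [this]
        linarith [sq_nonneg (a j)]
      · intro l hl hlj
        have : pb (Z j ∪ Z l) = pb (Z j) * pb (Z l) := prod_union (hd j hj l hl hlj.symm)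
        rw [this]; ring
      · intro h; exact absurd hj h
    exact sum_le_sum e2
  have h3 : A ^ 2 ≤ (∑ t : F n, f t ^ 2) * A := by
    calc A ^ 2 = (∑ t : F n, f t * G t) ^ 2 := by rw [h1]
      _ ≤ (∑ t : F n, f t ^ 2) * ∑ t : F n, G t ^ 2 := sum_mul_sq_le_sq_mul_sq _ _ _
      _ ≤ (∑ t : F n, f t ^ 2) * A := mul_le_mul_of_nonneg_left h2 (sum_nonneg fun t _ => sq_nonneg _)
  rcases eq_or_lt_of_le hA0 with h0 | h0
  · rw [← h0]; exact sum_nonneg fun t _ => sq_nonneg _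
  · rw [sq] at h3
    exact le_of_mul_le_mul_right h3 h0

/-- The last `r` elements of `T` below `n`. -/
def last (r : ℕ) (T : Finset ℕ) (n : ℕ) : Finset ℕ :=
  T.filter fun m => m < n ∧ (T.filter fun l => m ≤ l ∧ l < n).card ≤ r

theorem mem_last {r : ℕ} {T : Finset ℕ} {n m : ℕ} :
    m ∈ last r T n ↔ m ∈ T ∧ m < n ∧ (T.filter fun l => m ≤ l ∧ l < n).card ≤ r := by
  simp [last]

theorem card_last_le (r : ℕ) (T : Finset ℕ) (n : ℕ) : (last r T n).card ≤ r := by
  rcases (last r T n).eq_empty_or_nonempty with h | h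
  · simp [h]
  · set m := (last r T n).min' h
    have hm : m ∈ last r T n := min'_mem _ _
    refine le_trans (card_le_card ?_) (mem_last.mp hm).2.2
    intro l hl
    rw [mem_filter]
    exact ⟨(mem_last.mp hl).1, min'_le _ _ hl, (mem_last.mp hl).2.1⟩

theorem last_mono {r : ℕ} {T T' : Finset ℕ} {n : ℕ} (hT : T' ⊆ T)
    (h : ∀ m ∈ T', ∀ l ∈ T, m ≤ l → l < n → l ∈ T') : last r T' n ⊆ last r T n := by
  intro m hm
  rw [mem_last] at hm ⊢
  refine ⟨hT hm.1, hm.2.1, ?_⟩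
  refine le_trans (card_le_card ?_) hm.2.2
  intro l hl
  rw [mem_filter] at hl ⊢
  exact ⟨h m hm.1 l hl.1 hl.2.1 hl.2.2, hl.2⟩

/-- No marks on the recent part of the history. -/
def H (n : ℕ) (T : Finset ℕ) (t : Finset (ℕ × ℕ)) : Prop :=
  ∀ k < n, ∀ m ∈ last (rr k) T n, (k, m) ∉ t

open Classical in
/-- Indicator of `H`. -/
noncomputable def indH (n : ℕ) (T : Finset ℕ) (t : Finset (ℕ × ℕ)) : ℝ := if H n T t then 1 else 0

theorem indH_nonneg (n : ℕ) (T : Finset ℕ) (t : Finset (ℕ × ℕ)) : 0 ≤ indH n T t := by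
  unfold indH; split_ifs <;> norm_num

theorem indH_le_one (n : ℕ) (T : Finset ℕ) (t : Finset (ℕ × ℕ)) : indH n T t ≤ 1 := by
  unfold indH; split_ifs <;> norm_num

theorem indH_mono {n : ℕ} {T T' : Finset ℕ} (hT : T' ⊆ T)
    (h : ∀ m ∈ T', ∀ l ∈ T, m ≤ l → l < n → l ∈ T') (t : Finset (ℕ × ℕ)) :
    indH n T t ≤ indH n T' t := by
  unfold indH
  by_cases h1 : H n T t
  · have h2 : H n T' t := fun k hk m hm => h1 k hk m (last_mono hT h hm)
    simp [h1, h2]
  · simp only [h1, if_false]; split_ifs <;> norm_num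

theorem indH_ge (n : ℕ) (T : Finset ℕ) (t : Finset (ℕ × ℕ)) :
    1 - ∑ k ∈ range n, ∑ m ∈ last (rr k) T n, ind {(k, m)} t ≤ indH n T t := by
  unfold indH
  by_cases h1 : H n T t
  · rw [if_pos h1]
    have : 0 ≤ ∑ k ∈ range n, ∑ m ∈ last (rr k) T n, ind {(k, m)} t :=
      sum_nonneg fun k _ => sum_nonneg fun m _ => ind_nonneg _ _
    linarith
  · rw [if_neg h1]
    unfold H at h1
    push Not at h1
    obtain ⟨k, hk, m, hm, ht⟩ := h1
    have h2 : ind {(k, m)} t = 1 := by simp [ind, ht]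
    have h3 : ind {(k, m)} t ≤ ∑ m ∈ last (rr k) T n, ind {(k, m)} t :=
      single_le_sum (f := fun m => ind {(k, m)} t) (fun m _ => ind_nonneg _ _) hm
    have h4 : ∑ m ∈ last (rr k) T n, ind {(k, m)} t ≤
        ∑ k ∈ range n, ∑ m ∈ last (rr k) T n, ind {(k, m)} t :=
      single_le_sum (f := fun k => ∑ m ∈ last (rr k) T n, ind {(k, m)} t)
        (fun k _ => sum_nonneg fun m _ => ind_nonneg _ _) (mem_range.mpr hk)
    linarith

/-- Correlation of `f` with the mark `(k, m)`. -/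
noncomputable def dm (n : ℕ) (f : F n → ℝ) (k m : ℕ) : ℝ :=
  (∑ t : F n, ind {(k, m)} t * (f t * xv n t)) - eps k * ∑ t : F n, f t * xv n t

/-- Total correlation with the marks in column `m`. -/
noncomputable def bm (n : ℕ) (f : F n → ℝ) (m : ℕ) : ℝ :=
  ∑ k ∈ range n, dm n f k m ^ 2 / eps k

theorem bm_nonneg (n : ℕ) (f : F n → ℝ) (m : ℕ) : 0 ≤ bm n f m :=
  sum_nonneg fun k _ => div_nonneg (sq_nonneg _) (eps_pos _).le

theorem sum_bm_le (n : ℕ) (f : F n → ℝ) : ∑ m ∈ range n, bm n f m ≤ ∑ t : F n, f t ^ 2 := by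
  have h := bessel (n := n) (range n ×ˢ range n) (fun j : ℕ × ℕ => {j})
    (fun j hj => by simpa [Q] using hj) (fun j _ l _ hjl => by simpa using hjl) f
  refine le_trans (le_of_eq ?_) h
  rw [sum_product_right]
  refine sum_congr rfl fun m _ => ?_
  unfold bm dm
  refine sum_congr rfl fun k _ => ?_
  simp [pb]

theorem sum_rr_eps (n : ℕ) : ∑ k ∈ range n, (rr k : ℝ) * eps k ≤ 1 / 4 := by
  have h : ∀ k, (rr k : ℝ) * eps k = 1 / 8 * (1 / 2) ^ k := by
    intro k
    unfold rr eps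
    push_cast
    have : (2:ℝ) ^ (3 * k + 1) * (1 / 2) ^ (4 * k + 4) = (2 * (1 / 2)) ^ (3 * k + 1) * (1 / 2) ^ (k + 3) := by
      rw [mul_pow, mul_assoc, ← pow_add]; congr 2; ring
    rw [this]
    norm_num
    rw [pow_add]; norm_num; ring
  simp_rw [h]
  rw [← mul_sum]
  have h2 : ∑ k ∈ range n, (1 / 2 : ℝ) ^ k ≤ 2 := by
    rw [geom_sum_eq (by norm_num)]
    have : (0:ℝ) < (1 / 2) ^ n := by positivity
    rw [div_le_iff_of_neg (by norm_num)]
    linarith
  linarith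

/-- The history event keeps half of the mass. -/
theorem half_le {n : ℕ} {f : F n → ℝ} (hf : ∀ t, 0 ≤ f t) {T : Finset ℕ} {a : ℝ} (ha : 0 < a)
    (hfa : a ≤ ∑ t : F n, f t * xv n t)
    (hb : ∑ m ∈ T.filter (· < n), bm n f m ≤ a ^ 2 / 4) :
    a / 2 ≤ ∑ t : F n, (xv n t * indH n T t) * f t := by
  set A := ∑ t : F n, f t * xv n t with hA
  have hA0 : 0 < A := ha.trans_le hfa
  have h1 : ∑ t : F n, (1 - ∑ k ∈ range n, ∑ m ∈ last (rr k) T n, ind {(k, m)} t) * (f t * xv n t) ≤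
      ∑ t : F n, (xv n t * indH n T t) * f t := by
    refine sum_le_sum fun t _ => ?_
    have h2 := mul_le_mul_of_nonneg_right (indH_ge n T t) (mul_nonneg (hf t) (xv_pos n t).le)
    linarith [h2]
  have h2 : ∑ t : F n, (1 - ∑ k ∈ range n, ∑ m ∈ last (rr k) T n, ind {(k, m)} t) *
      (f t * xv n t) = A - ∑ k ∈ range n, ∑ m ∈ last (rr k) T n, (dm n f k m + eps k * A) := by
    simp_rw [sub_mul, one_mul]
    rw [sum_sub_distrib]
    congr 1
    simp_rw [sum_mul]
    rw [sum_comm]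
    refine sum_congr rfl fun k _ => ?_
    rw [sum_comm]
    refine sum_congr rfl fun m _ => ?_
    unfold dm
    ring
  have h3 : ∑ k ∈ range n, ∑ m ∈ last (rr k) T n, (dm n f k m + eps k * A) ≤ A / 2 := by
    have e1 : ∀ k ∈ range n, ∑ m ∈ last (rr k) T n, (dm n f k m + eps k * A) ≤
        (3 / 2 * A) * ((rr k : ℝ) * eps k) +
          (2 * A)⁻¹ * ∑ m ∈ last (rr k) T n, dm n f k m ^ 2 / eps k := by
      intro k _
      have e2 : ∀ m, dm n f k m + eps k * A ≤ 3 / 2 * (eps k * A) +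
          (2 * A)⁻¹ * (dm n f k m ^ 2 / eps k) := by
        intro m
        have hk := eps_pos k
        have h5 : (2 * A)⁻¹ * (dm n f k m ^ 2 / eps k) = dm n f k m ^ 2 / (2 * (eps k * A)) := by
          field_simp
        rw [h5]
        have h6 : 0 < 2 * (eps k * A) := by positivity
        have h7 : dm n f k m - 1 / 2 * (eps k * A) ≤ dm n f k m ^ 2 / (2 * (eps k * A)) := by
          rw [le_div_iff₀ h6]
          nlinarith [sq_nonneg (dm n f k m - eps k * A)]
        linarith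
      refine (sum_le_sum fun m _ => e2 m).trans ?_
      rw [sum_add_distrib, sum_const, nsmul_eq_mul, ← mul_sum]
      have h8 : ((last (rr k) T n).card : ℝ) ≤ rr k := by exact_mod_cast card_last_le _ _ _
      have h9 : 0 ≤ 3 / 2 * (eps k * A) := by have := eps_pos k; positivity
      nlinarith [mul_le_mul_of_nonneg_right h8 h9]
    refine (sum_le_sum e1).trans ?_
    rw [sum_add_distrib, ← mul_sum, ← mul_sum]
    have e3 : ∑ k ∈ range n, ∑ m ∈ last (rr k) T n, dm n f k m ^ 2 / eps k ≤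
        ∑ m ∈ T.filter (· < n), bm n f m := by
      unfold bm
      rw [sum_comm (s := T.filter (· < n))]
      refine sum_le_sum fun k _ => sum_le_sum_of_subset_of_nonneg ?_
        fun m _ _ => div_nonneg (sq_nonneg _) (eps_pos _).le
      intro m hm
      rw [mem_last] at hm
      exact mem_filter.mpr ⟨hm.1, hm.2.1⟩
    have e4 := sum_rr_eps n
    have e5 : (2 * A)⁻¹ * ∑ k ∈ range n, ∑ m ∈ last (rr k) T n, dm n f k m ^ 2 / eps k ≤
        A / 8 := by
      have h10 : ∑ k ∈ range n, ∑ m ∈ last (rr k) T n, dm n f k m ^ 2 / eps k ≤ A ^ 2 / 4 :=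
        (e3.trans hb).trans (by nlinarith)
      calc (2 * A)⁻¹ * ∑ k ∈ range n, ∑ m ∈ last (rr k) T n, dm n f k m ^ 2 / eps k ≤
          (2 * A)⁻¹ * (A ^ 2 / 4) := mul_le_mul_of_nonneg_left h10 (by positivity)
        _ = A / 8 := by field_simp; norm_num
    have e6 : 3 / 2 * A * ∑ k ∈ range n, (rr k : ℝ) * eps k ≤ 3 / 2 * A * (1 / 4) :=
      mul_le_mul_of_nonneg_left e4 (by positivity)
    linarith
  have h4 := h1
  rw [h2] at h4
  linarith

theorem bm_xv (n m : ℕ) (hm : m < n) : bm n (xv n) m = 0 := by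
  unfold bm
  refine sum_eq_zero fun k hk => ?_
  have : dm n (xv n) k m = 0 := by
    unfold dm
    rw [sum_ind_xv_sq, sum_xv_sq]
    · simp [pb]
    · simp only [Q, singleton_subset_iff, mem_product, mem_range]
      exact ⟨mem_range.mp hk, hm⟩
  rw [this]; simp

theorem half_le_xv (n : ℕ) (T : Finset ℕ) : 1 / 2 ≤ ∑ t : F n, (xv n t * indH n T t) * xv n t := by
  refine half_le (fun t => (xv_pos n t).le) one_pos (by rw [sum_xv_sq]) ?_
  rw [sum_eq_zero]
  · norm_num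
  · intro m hm
    exact bm_xv n m (mem_filter.mp hm).2

end Pool.Agent.H63.DHDC
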