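import Pool.Agent.H63.DHDC.Space
import Pool.Agent.H63.DHDC.Prob

set_option autoImplicit false

open Finset

namespace Pool.Agent.H63.DHDC

/-- Index set. -/
abbrev Idx : Type := Σ n : ℕ, F n

noncomputable def dl (i : ℕ) : ℝ := (1 / 2) ^ i

theorem dl_pos (i : ℕ) : 0 < dl i := by unfold dl; positivity

theorem dl_anti {i j : ℕ} (h : j ≤ i) : dl i ≤ dl j :=
  pow_le_pow_of_le_one (by norm_num) (by norm_num) h

/-- Admissible vectors. -/
def Adm (i : ℕ) (T : Finset ℕ) (n : ℕ) (g : F n → ℝ) : Prop :=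
  (∀ t, 0 ≤ g t) ∧ ((∀ t : F n, g t ≤ xv n t * indH n T t) ∨
    ((∑ t, g t ^ 2 ≤ 1) ∧ ∑ t, g t * xv n t ≤ dl i))

theorem Adm.sq_le {i : ℕ} {T : Finset ℕ} {n : ℕ} {g : F n → ℝ} (h : Adm i T n g) :
    ∑ t, g t ^ 2 ≤ 1 := by
  rcases h.2 with h2 | h2
  · rw [← sum_xv_sq n]
    refine sum_le_sum fun t _ => ?_
    have h3 : g t ≤ xv n t := (h2 t).trans (by
      have := mul_le_mul_of_nonneg_left (indH_le_one n T t) (xv_pos n t).le
      linarith)
    rw [sq]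
    exact mul_le_mul h3 h3 (h.1 t) (xv_pos n t).le
  · exact h2.1

theorem Adm.mono {i j : ℕ} {T T' : Finset ℕ} {n : ℕ} {g : F n → ℝ} (h : Adm i T n g)
    (hij : j ≤ i) (hT : T' ⊆ T) (hf : ∀ m ∈ T', ∀ l ∈ T, m ≤ l → l < n → l ∈ T') :
    Adm j T' n g := by
  refine ⟨h.1, ?_⟩
  rcases h.2 with h2 | h2
  · left
    intro t
    exact (h2 t).trans (mul_le_mul_of_nonneg_left (indH_mono hT hf _) (xv_pos n t).le)
  · right
    exact ⟨h2.1, h2.2.trans (dl_anti hij)⟩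

theorem adm_H (i : ℕ) (T : Finset ℕ) (n : ℕ) : Adm i T n (fun t => xv n t * indH n T t) :=
  ⟨fun t => mul_nonneg (xv_pos n t).le (indH_nonneg _ _ _), Or.inl fun _ => le_rfl⟩

/-- Value of a functional at scale `i`. -/
noncomputable def al (i : ℕ) (T : Finset ℕ) (g : (n : ℕ) → F n → ℝ) (u : Idx → ℝ) : ℝ :=
  (1 / 2) ^ i * ∑ n ∈ T, ∑ t, g n t * |u ⟨n, t⟩|

/-- The condition on a scale. -/
def AdmT (i : ℕ) (T : Finset ℕ) (g : (n : ℕ) → F n → ℝ) : Prop :=
  T.card ≤ 4 ^ i ∧ ∀ n ∈ T, Adm i T n (g n)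

theorem admT_empty (i : ℕ) (g : (n : ℕ) → F n → ℝ) : AdmT i ∅ g := ⟨by simp, by simp⟩

theorem al_empty (i : ℕ) (g : (n : ℕ) → F n → ℝ) (u : Idx → ℝ) : al i ∅ g u = 0 := by simp [al]

theorem al_nonneg {i : ℕ} {T : Finset ℕ} {g : (n : ℕ) → F n → ℝ} (h : AdmT i T g)
    (u : Idx → ℝ) : 0 ≤ al i T g u :=
  mul_nonneg (by positivity) (sum_nonneg fun n hn => sum_nonneg fun t _ =>
    mul_nonneg ((h.2 n hn).1 t) (abs_nonneg _))

theorem al_add_le {i : ℕ} {T : Finset ℕ} {g : (n : ℕ) → F n → ℝ} (h : AdmT i T g)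
    (u v : Idx → ℝ) : al i T g (u + v) ≤ al i T g u + al i T g v := by
  unfold al
  rw [← mul_add, ← sum_add_distrib]
  refine mul_le_mul_of_nonneg_left (sum_le_sum fun n hn => ?_) (by positivity)
  rw [← sum_add_distrib]
  refine sum_le_sum fun t _ => ?_
  rw [← mul_add]
  exact mul_le_mul_of_nonneg_left (abs_add_le _ _) ((h.2 n hn).1 t)

theorem al_smul (i : ℕ) (T : Finset ℕ) (g : (n : ℕ) → F n → ℝ) (c : ℝ)
    (u : Idx → ℝ) : al i T g (c • u) = |c| * al i T g u := by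
  unfold al
  have h : ∀ n : ℕ, ∑ t : F n, g n t * |(c • u) ⟨n, t⟩| = |c| * ∑ t : F n, g n t * |u ⟨n, t⟩| := by
    intro n
    rw [mul_sum]
    refine sum_congr rfl fun t _ => ?_
    rw [Pi.smul_apply, smul_eq_mul, abs_mul]
    ring
  simp_rw [h]
  rw [← mul_sum]
  ring

theorem al_mono {i : ℕ} {T : Finset ℕ} {g : (n : ℕ) → F n → ℝ} (h : AdmT i T g)
    {u v : Idx → ℝ} (huv : ∀ x, |u x| ≤ |v x|) : al i T g u ≤ al i T g v := by
  unfold al
  refine mul_le_mul_of_nonneg_left (sum_le_sum fun n hn => sum_le_sum fun t _ => ?_) (by positivity)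
  exact mul_le_mul_of_nonneg_left (huv _) ((h.2 n hn).1 t)

theorem pr_le {n : ℕ} {g : F n → ℝ} (hg : ∑ t, g t ^ 2 ≤ 1) (f : F n → ℝ) :
    ∑ t, g t * |f t| ≤ Real.sqrt (∑ t, f t ^ 2) := by
  refine Real.le_sqrt_of_sq_le ?_
  refine (sum_mul_sq_le_sq_mul_sq _ _ _).trans ?_
  simp only [sq_abs]
  have : 0 ≤ ∑ t, f t ^ 2 := sum_nonneg fun t _ => sq_nonneg _
  nlinarith

theorem al_le_of_level {i : ℕ} {T : Finset ℕ} {g : (n : ℕ) → F n → ℝ} (h : AdmT i T g)
    {u : Idx → ℝ} {n₀ : ℕ} (hu : ∀ n, n ≠ n₀ → ∀ t : F n, u ⟨n, t⟩ = 0) :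
    al i T g u ≤ (1 / 2) ^ i * Real.sqrt (∑ t : F n₀, u ⟨n₀, t⟩ ^ 2) := by
  unfold al
  refine mul_le_mul_of_nonneg_left ?_ (by positivity)
  by_cases hn : n₀ ∈ T
  · rw [sum_eq_single n₀]
    · exact pr_le (h.2 n₀ hn).sq_le _
    · intro n _ hne
      exact sum_eq_zero fun t _ => by rw [hu n hne t]; simp
    · intro h; exact absurd hn h
  · rw [sum_eq_zero]
    · positivity
    · intro n hnT
      have hne : n ≠ n₀ := fun h => hn (h ▸ hnT)
      exact sum_eq_zero fun t _ => by rw [hu n hne t]; simp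

/-- Configurations. -/
structure Conf where
  I : ℕ
  β : ℕ → ℝ
  T : ℕ → Finset ℕ
  g : ℕ → (n : ℕ) → F n → ℝ
  β_nonneg : ∀ i, 0 ≤ β i
  β_sq : ∑ i ∈ range I, β i ^ 2 ≤ 1
  adm : ∀ i, AdmT i (T i) (g i)

/-- The seminorm of a configuration. -/
noncomputable def rho (ω : Conf) (u : Idx → ℝ) : ℝ :=
  ∑ i ∈ range ω.I, ω.β i * al i (ω.T i) (ω.g i) u

theorem Conf.β_le (ω : Conf) {i : ℕ} (hi : i < ω.I) : ω.β i ≤ 1 := by
  have h1 : ω.β i ^ 2 ≤ 1 :=
    (single_le_sum (f := fun i => ω.β i ^ 2) (fun i _ => sq_nonneg _) (mem_range.mpr hi)).trans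
      ω.β_sq
  have := ω.β_nonneg i
  nlinarith

theorem geom_half (I : ℕ) : ∑ i ∈ range I, (1 / 2 : ℝ) ^ i ≤ 2 := by
  rw [geom_sum_eq (by norm_num)]
  have : (0:ℝ) < (1 / 2) ^ I := by positivity
  rw [div_le_iff_of_neg (by norm_num)]
  linarith

theorem rho_le_of_level (ω : Conf) {u : Idx → ℝ} {n₀ : ℕ}
    (hu : ∀ n, n ≠ n₀ → ∀ t : F n, u ⟨n, t⟩ = 0) :
    rho ω u ≤ 2 * Real.sqrt (∑ t : F n₀, u ⟨n₀, t⟩ ^ 2) := by
  unfold rho
  have h1 : ∀ i ∈ range ω.I, ω.β i * al i (ω.T i) (ω.g i) u ≤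
      (1 / 2) ^ i * Real.sqrt (∑ t : F n₀, u ⟨n₀, t⟩ ^ 2) := by
    intro i hi
    have h2 := al_le_of_level (ω.adm i) hu
    have h3 := ω.β_le (mem_range.mp hi)
    have h4 := al_nonneg (ω.adm i) u
    calc ω.β i * al i (ω.T i) (ω.g i) u ≤ 1 * al i (ω.T i) (ω.g i) u :=
          mul_le_mul_of_nonneg_right h3 h4
      _ ≤ _ := by rw [one_mul]; exact h2
  refine (sum_le_sum h1).trans ?_
  rw [← sum_mul]
  exact mul_le_mul_of_nonneg_right (geom_half _) (Real.sqrt_nonneg _)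

/-- Configuration with coefficients. -/
def mkConf (I : ℕ) (β : ℕ → ℝ) (T : ℕ → Finset ℕ) (g : ℕ → (n : ℕ) → F n → ℝ)
    (h1 : ∀ i, 0 ≤ β i) (h2 : ∑ i ∈ range I, β i ^ 2 ≤ 1) (h3 : ∀ i, AdmT i (T i) (g i)) : Conf :=
  ⟨I, β, T, g, h1, h2, h3⟩

instance : Nonempty Conf :=
  ⟨⟨0, fun _ => 0, fun _ => ∅, fun _ _ _ => 0, fun _ => le_rfl, by simp, fun i => admT_empty i _⟩⟩

/-- Quadratic lower bound. -/
theorem sum_al_sq_le {u : Idx → ℝ} {C : ℝ} (hC : ∀ ω, rho ω u ≤ C) (I : ℕ)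
    (T : ℕ → Finset ℕ) (g : ℕ → (n : ℕ) → F n → ℝ) (h : ∀ i, AdmT i (T i) (g i)) :
    ∑ i ∈ range I, al i (T i) (g i) u ^ 2 ≤ C ^ 2 := by
  set s := ∑ i ∈ range I, al i (T i) (g i) u ^ 2 with hs
  have hs0 : 0 ≤ s := sum_nonneg fun i _ => sq_nonneg _
  rcases eq_or_lt_of_le hs0 with h0 | h0
  · rw [← h0]; positivity
  · have hq : 0 < Real.sqrt s := Real.sqrt_pos.mpr h0
    have h1 := hC (mkConf I (fun i => al i (T i) (g i) u / Real.sqrt s) T g
      (fun i => div_nonneg (al_nonneg (h i) u) hq.le)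
      (by
        simp_rw [div_pow]
        rw [← sum_div, Real.sq_sqrt h0.le, ← hs, div_self h0.ne']) h)
    have h2 : rho (mkConf I (fun i => al i (T i) (g i) u / Real.sqrt s) T g
      (fun i => div_nonneg (al_nonneg (h i) u) hq.le)
      (by
        simp_rw [div_pow]
        rw [← sum_div, Real.sq_sqrt h0.le, ← hs, div_self h0.ne']) h) u = Real.sqrt s := by
      unfold rho mkConf
      simp only
      have : ∀ i, al i (T i) (g i) u / Real.sqrt s * al i (T i) (g i) u =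
          al i (T i) (g i) u ^ 2 / Real.sqrt s := by intro i; ring
      simp_rw [this]
      rw [← sum_div, ← hs, div_eq_iff hq.ne', Real.mul_self_sqrt h0.le]
    rw [h2] at h1
    calc s = Real.sqrt s ^ 2 := (Real.sq_sqrt h0.le).symm
      _ ≤ C ^ 2 := by
        have := Real.sqrt_nonneg s
        nlinarith

open Classical in
/-- The family of seminorms. -/
noncomputable def fam : Fam Idx Conf where
  ρ := rho
  add_le ω u v := by
    unfold rho
    rw [← sum_add_distrib]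
    refine sum_le_sum fun i _ => ?_
    rw [← mul_add]
    exact mul_le_mul_of_nonneg_left (al_add_le (ω.adm i) u v) (ω.β_nonneg i)
  smul ω c u := by
    unfold rho
    rw [mul_sum]
    refine sum_congr rfl fun i _ => ?_
    rw [al_smul]; ring
  mono ω u v h := by
    unfold rho
    exact sum_le_sum fun i _ => mul_le_mul_of_nonneg_left (al_mono (ω.adm i) h) (ω.β_nonneg i)
  cont ω := by
    unfold rho al
    fun_prop
  bdd x := by
    refine ⟨2 * Real.sqrt (∑ t : F x.1, (Set.indicator {x} (fun _ => (1:ℝ))) (⟨x.1, t⟩ : Idx) ^ 2),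
      fun ω => ?_⟩
    refine rho_le_of_level ω fun n hn t => ?_
    rw [Set.indicator_of_notMem]
    intro h
    rw [Set.mem_singleton_iff] at h
    exact hn (by rw [← h])
  pos x := by
    obtain ⟨n, t₀⟩ := x
    let g : (m : ℕ) → F m → ℝ := fun m t => if (⟨m, t⟩ : Idx) = ⟨n, t₀⟩ then 1 else 0
    have hg : g n = fun t => if t = t₀ then 1 else 0 := by
      ext t
      simp only [g, Sigma.mk.injEq, heq_eq_eq, true_and]
    have hx : xv n t₀ ≤ 1 := by
      have h1 : xv n t₀ * xv n t₀ ≤ 1 := by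
        rw [← sum_xv_sq n]
        exact single_le_sum (f := fun t => xv n t * xv n t)
          (fun t _ => mul_self_nonneg _) (mem_univ t₀)
      nlinarith [xv_pos n t₀]
    have hadm : ∀ i, AdmT i (if i = 0 then {n} else ∅) g := by
      intro i
      by_cases hi : i = 0
      · subst hi
        rw [if_pos rfl]
        refine ⟨by simp, fun m hm => ?_⟩
        rw [mem_singleton] at hm
        subst hm
        rw [hg]
        refine ⟨fun t => by dsimp only; split_ifs <;> norm_num, Or.inr ⟨by simp, ?_⟩⟩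
        simp only [ite_mul, one_mul, zero_mul, sum_ite_eq', mem_univ, if_true]
        simpa [dl] using hx
      · rw [if_neg hi]; exact admT_empty i g
    refine ⟨mkConf 1 (fun _ => 1) (fun i => if i = 0 then {n} else ∅) (fun _ => g)
      (fun _ => zero_le_one) (by simp) hadm, 1, one_pos, fun u => ?_⟩
    unfold rho mkConf al
    simp only [range_one, sum_singleton, pow_zero, if_true, one_mul]
    rw [hg]
    simp

theorem fam_rho (ω : Conf) (u : Idx → ℝ) : fam.ρ ω u = rho ω u := rfl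

/-- The Banach lattice. -/
abbrev X : Type := fam.E

end Pool.Agent.H63.DHDC
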