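import Pool.Agent.H63.DHDC.Upper
import Pool.Agent.H63.DHDC.Count

set_option autoImplicit false

open Finset

namespace Pool.Agent.H63.DHDC

theorem gs1 (I a : ℕ) : ∑ i ∈ range I, (if a ≤ i then (1 / 2 : ℝ) ^ i else 0) ≤ 2 * (1 / 2) ^ a := by
  rw [← sum_filter]
  have h : (range I).filter (a ≤ ·) ⊆ Ico a (a + I) := by
    intro x hx
    rw [mem_filter, mem_range] at hx
    exact mem_Ico.mpr ⟨hx.2, by omega⟩
  refine (sum_le_sum_of_subset_of_nonneg h fun _ _ _ => by positivity).trans ?_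
  rw [sum_Ico_eq_sum_range, add_tsub_cancel_left]
  simp_rw [pow_add]
  rw [← mul_sum, mul_comm]
  exact mul_le_mul_of_nonneg_right (geom_half I) (by positivity)

theorem gs2 (I a : ℕ) : ∑ i ∈ range I, (if i ≤ a then (2 : ℝ) ^ i else 0) ≤ 2 * 2 ^ a := by
  rw [← sum_filter]
  have h : (range I).filter (· ≤ a) ⊆ range (a + 1) := by
    intro x hx
    rw [mem_filter, mem_range] at hx
    exact mem_range.mpr (by omega)
  refine (sum_le_sum_of_subset_of_nonneg h fun _ _ _ => by positivity).trans ?_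
  rw [geom_sum_eq (by norm_num), pow_succ]
  have : (0:ℝ) < 2 ^ a := by positivity
  norm_num
  linarith

/-- The vector showing that the span is not complemented. -/
noncomputable def uS (k ν : ℕ) (S : Finset ℕ) : Idx → ℝ := fun x =>
  if x.1 ∈ S ∧ rr k ≤ pos S x.1 then
    (2 ^ k / eps k ^ rr k) * (1 / 2) ^ ν * (xv x.1 x.2 * ind (row k (last (rr k) S x.1)) x.2)
  else 0

theorem rr_pos (k : ℕ) : 0 < rr k := by unfold rr; positivity

theorem inner_le {k i n : ℕ} {S T : Finset ℕ} (hk : k < n) {g : F n → ℝ} (h : Adm i T n g) :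
    ∑ t, g t * (xv n t * ind (row k (last (rr k) S n)) t) ≤
      (if Disjoint (last (rr k) S n) (last (rr k) T n) then pb (row k (last (rr k) S n)) else 0) +
        dl i := by
  have hd := (dl_pos i).le
  rcases h.2 with h2 | h2
  · by_cases hdis : Disjoint (last (rr k) S n) (last (rr k) T n)
    · rw [if_pos hdis]
      have hsub : row k (last (rr k) S n) ⊆ Q n :=
        row_subset hk fun m hm => (mem_last.mp hm).2.1
      have h3 : ∑ t, g t * (xv n t * ind (row k (last (rr k) S n)) t) ≤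
          ∑ t : F n, ind (row k (last (rr k) S n)) t * (xv n t * xv n t) := by
        refine sum_le_sum fun t _ => ?_
        have h4 : g t ≤ xv n t := (h2 t).trans (by
          have := mul_le_mul_of_nonneg_left (indH_le_one n T t) (xv_pos n t).le
          linarith)
        have h5 : 0 ≤ xv n t * ind (row k (last (rr k) S n)) t :=
          mul_nonneg (xv_pos n t).le (ind_nonneg _ _)
        nlinarith [mul_le_mul_of_nonneg_right h4 h5]
      rw [sum_ind_xv_sq hsub] at h3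
      linarith
    · rw [if_neg hdis, zero_add]
      rw [not_disjoint_iff] at hdis
      obtain ⟨m, hm1, hm2⟩ := hdis
      rw [sum_eq_zero]
      · exact hd
      · intro t _
        by_cases hz : row k (last (rr k) S n) ⊆ (t : Finset (ℕ × ℕ))
        · have h4 : (k, m) ∈ (t : Finset (ℕ × ℕ)) := hz (mem_image_of_mem _ hm1)
          have h5 : indH n T t = 0 := by
            unfold indH
            rw [if_neg]
            intro hH
            exact hH k hk m hm2 h4
          have h6 : g t = 0 := le_antisymm (by have := h2 t; rwa [h5, mul_zero] at this) (h.1 t)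
          rw [h6, zero_mul]
        · have : ind (row k (last (rr k) S n)) (t : Finset (ℕ × ℕ)) = 0 := by
            unfold ind; rw [if_neg hz]
          rw [this]; ring
  · have h3 : ∑ t, g t * (xv n t * ind (row k (last (rr k) S n)) t) ≤ ∑ t, g t * xv n t := by
      refine sum_le_sum fun t _ => mul_le_mul_of_nonneg_left ?_ (h.1 t)
      have := mul_le_mul_of_nonneg_left (ind_le_one (row k (last (rr k) S n)) t) (xv_pos n t).le
      linarith
    have h4 : (0:ℝ) ≤ if Disjoint (last (rr k) S n) (last (rr k) T n) then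
        pb (row k (last (rr k) S n)) else 0 := by
      split_ifs
      · exact (pb_pos _).le
      · exact le_rfl
    linarith [h2.2]

theorem scale_le {k ν : ℕ} {S : Finset ℕ} (hS : S.card = 4 ^ ν) (hk : ∀ n ∈ S, k < n) {i : ℕ}
    {T : Finset ℕ} {g : (n : ℕ) → F n → ℝ} (h : AdmT i T g) :
    al i T g (uS k ν S) ≤
      (if i + k ≤ ν then 2 ^ k * 2 ^ i * (1 / 2) ^ ν else 0) +
      (if ν + k ≤ i then 2 ^ k * 2 ^ ν * (1 / 2) ^ i else 0) +
      (if ν < i + k ∧ i < ν + k then (1 / 2) ^ k else 0) +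
      2 ^ k * (1 / 2) ^ ν * (1 / 2) ^ i +
      (2 ^ k / eps k ^ rr k) * ((if i ≤ ν then (1 / 2) ^ ν else 0) +
        (if ν + 1 ≤ i then (1 / 2) ^ i else 0)) := by
  classical
  set r := rr k with hr
  set p : ℝ := eps k ^ r with hp
  have hp0 : 0 < p := pow_pos (eps_pos k) r
  set Bd := ((S ∩ T).filter fun n => Disjoint (last r S n) (last r T n)).card with hBd
  have h1 : ∑ n ∈ T, ∑ t, g n t * |uS k ν S ⟨n, t⟩| ≤
      (2 ^ k / p) * (1 / 2) ^ ν * (p * Bd + (S ∩ T).card * dl i) := by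
    have e1 : ∀ n ∈ T, ∑ t, g n t * |uS k ν S ⟨n, t⟩| ≤
        (2 ^ k / p) * (1 / 2) ^ ν * (if n ∈ S then
          ((if Disjoint (last r S n) (last r T n) then p else 0) + dl i) else 0) := by
      intro n hn
      by_cases hnS : n ∈ S
      · rw [if_pos hnS]
        by_cases hpos : r ≤ pos S n
        · have e2 : ∀ t : F n, g n t * |uS k ν S ⟨n, t⟩| = (2 ^ k / p) * (1 / 2) ^ ν *
              (g n t * (xv n t * ind (row k (last r S n)) t)) := by
            intro t
            unfold uS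
            rw [if_pos ⟨hnS, hpos⟩, abs_of_nonneg]
            · ring
            · refine mul_nonneg (by positivity) (mul_nonneg (xv_pos _ _).le (ind_nonneg _ _))
          simp_rw [e2]
          rw [← mul_sum]
          refine mul_le_mul_of_nonneg_left ?_ (by positivity)
          have e3 := inner_le (S := S) (hk n hnS) (h.2 n hn)
          rw [pb_row, card_last_eq hpos] at e3
          exact e3
        · have e2 : ∀ t : F n, g n t * |uS k ν S ⟨n, t⟩| = 0 := by
            intro t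
            unfold uS
            rw [if_neg (fun hh => hpos hh.2)]
            simp
          simp_rw [e2]
          rw [sum_const_zero]
          have := dl_pos i
          refine mul_nonneg (by positivity) (add_nonneg ?_ this.le)
          split_ifs
          · exact hp0.le
          · exact le_rfl
      · rw [if_neg hnS, mul_zero]
        refine le_of_eq (sum_eq_zero fun t _ => ?_)
        unfold uS
        rw [if_neg (fun hh => hnS hh.1)]
        simp
    refine (sum_le_sum e1).trans ?_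
    rw [← mul_sum, ← sum_filter]
    refine mul_le_mul_of_nonneg_left (le_of_eq ?_) (by positivity)
    have e4 : T.filter (· ∈ S) = S ∩ T := by ext n; simp [and_comm]
    rw [e4, sum_add_distrib, ← sum_filter, sum_const, sum_const, nsmul_eq_mul, nsmul_eq_mul,
      mul_comm p]
  have hal : al i T g (uS k ν S) ≤ 2 ^ k * ((1 / 2) ^ i * (1 / 2) ^ ν * Bd) +
      (2 ^ k / p) * ((1 / 2) ^ i * (1 / 2) ^ ν * ((S ∩ T).card * dl i)) := by
    unfold al
    refine (mul_le_mul_of_nonneg_left h1 (by positivity)).trans (le_of_eq ?_)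
    field_simp
  have hT : ((S ∩ T).card : ℝ) ≤ 4 ^ i := by
    exact_mod_cast (card_le_card inter_subset_right).trans h.1
  have hSc : ((S ∩ T).card : ℝ) ≤ 4 ^ ν := by
    exact_mod_cast hS ▸ card_le_card (inter_subset_left (s₁ := S) (s₂ := T))
  have hB1 : (Bd : ℝ) ≤ (S ∩ T).card := by exact_mod_cast card_filter_le _ _
  have hB2 : (Bd : ℝ) ≤ (4 ^ ν + 4 ^ i) / r + 1 := by
    have e1 := card_bad_le (rr_pos k) S T
    have e2 : ((S.card + T.card) / r : ℕ) ≤ ((4 ^ ν + 4 ^ i : ℕ) : ℝ) / r := by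
      refine (Nat.cast_div_le).trans ?_
      refine div_le_div_of_nonneg_right ?_ (by positivity)
      exact_mod_cast Nat.add_le_add hS.le h.1
    have e3 : (Bd : ℝ) ≤ ((S.card + T.card) / r : ℕ) + 1 := by exact_mod_cast e1
    push_cast at e2
    linarith
  have P : ∀ a b : ℕ, (0:ℝ) < (1 / 2) ^ a * (1 / 2) ^ b := fun a b => by positivity
  -- first part
  have hF : 2 ^ k * ((1 / 2) ^ i * (1 / 2) ^ ν * (Bd : ℝ)) ≤
      (if i + k ≤ ν then 2 ^ k * 2 ^ i * (1 / 2) ^ ν else 0) +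
      (if ν + k ≤ i then 2 ^ k * 2 ^ ν * (1 / 2) ^ i else 0) +
      (if ν < i + k ∧ i < ν + k then (1 / 2) ^ k else 0) +
      2 ^ k * (1 / 2) ^ ν * (1 / 2) ^ i := by
    have q1 : (0:ℝ) ≤ if i + k ≤ ν then 2 ^ k * 2 ^ i * (1 / 2) ^ ν else 0 := by positivity
    have q2 : (0:ℝ) ≤ if ν + k ≤ i then 2 ^ k * 2 ^ ν * (1 / 2) ^ i else 0 := by positivity
    have q3 : (0:ℝ) ≤ if ν < i + k ∧ i < ν + k then (1 / 2) ^ k else 0 := by positivity
    have q4 : (0:ℝ) ≤ 2 ^ k * (1 / 2) ^ ν * (1 / 2) ^ i := by positivity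
    by_cases c1 : i + k ≤ ν
    · rw [if_pos c1] at q1 ⊢
      have e1 : 2 ^ k * ((1 / 2) ^ i * (1 / 2) ^ ν * (Bd : ℝ)) ≤
          2 ^ k * ((1 / 2) ^ i * (1 / 2) ^ ν * 4 ^ i) := by
        refine mul_le_mul_of_nonneg_left (mul_le_mul_of_nonneg_left (hB1.trans hT) (P _ _).le)
          (by positivity)
      have e2 : (2:ℝ) ^ k * ((1 / 2) ^ i * (1 / 2) ^ ν * 4 ^ i) = 2 ^ k * 2 ^ i * (1 / 2) ^ ν := by
        rw [← half_four i]; ring
      linarith
    · by_cases c2 : ν + k ≤ i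
      · rw [if_pos c2] at q2 ⊢
        have e1 : 2 ^ k * ((1 / 2) ^ i * (1 / 2) ^ ν * (Bd : ℝ)) ≤
            2 ^ k * ((1 / 2) ^ i * (1 / 2) ^ ν * 4 ^ ν) := by
          refine mul_le_mul_of_nonneg_left (mul_le_mul_of_nonneg_left (hB1.trans hSc) (P _ _).le)
            (by positivity)
        have e2 : (2:ℝ) ^ k * ((1 / 2) ^ i * (1 / 2) ^ ν * 4 ^ ν) =
            2 ^ k * 2 ^ ν * (1 / 2) ^ i := by
          rw [← half_four ν]; ring
        linarith
      · have c3 : ν < i + k ∧ i < ν + k := ⟨by omega, by omega⟩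
        rw [if_pos c3] at q3 ⊢
        have e1 : 2 ^ k * ((1 / 2) ^ i * (1 / 2) ^ ν * (Bd : ℝ)) ≤
            2 ^ k * ((1 / 2) ^ i * (1 / 2) ^ ν * ((4 ^ ν + 4 ^ i) / r + 1)) := by
          refine mul_le_mul_of_nonneg_left (mul_le_mul_of_nonneg_left hB2 (P _ _).le)
            (by positivity)
        have hrr : (r : ℝ) = 2 ^ (3 * k + 1) := by rw [hr]; unfold rr; push_cast; ring
        have hr0 : (0:ℝ) < r := by rw [hrr]; positivity
        have e2 : (1 / 2 : ℝ) ^ i * (1 / 2) ^ ν * 4 ^ ν ≤ 2 ^ k := by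
          have e3 : (2:ℝ) ^ ν ≤ 2 ^ i * 2 ^ k := by
            rw [← pow_add]; exact pow_le_pow_right₀ (by norm_num) (by omega)
          calc (1 / 2 : ℝ) ^ i * (1 / 2) ^ ν * 4 ^ ν = (1 / 2) ^ i * 2 ^ ν := by
                rw [mul_assoc, half_four]
            _ ≤ (1 / 2) ^ i * (2 ^ i * 2 ^ k) := mul_le_mul_of_nonneg_left e3 (by positivity)
            _ = 2 ^ k := by rw [← mul_assoc, half_two, one_mul]
        have e4 : (1 / 2 : ℝ) ^ i * (1 / 2) ^ ν * 4 ^ i ≤ 2 ^ k := by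
          have e3 : (2:ℝ) ^ i ≤ 2 ^ ν * 2 ^ k := by
            rw [← pow_add]; exact pow_le_pow_right₀ (by norm_num) (by omega)
          calc (1 / 2 : ℝ) ^ i * (1 / 2) ^ ν * 4 ^ i = (1 / 2) ^ ν * 2 ^ i := by
                rw [← half_four i]; ring
            _ ≤ (1 / 2) ^ ν * (2 ^ ν * 2 ^ k) := mul_le_mul_of_nonneg_left e3 (by positivity)
            _ = 2 ^ k := by rw [← mul_assoc, half_two, one_mul]
        have e5 : (2:ℝ) ^ k * ((1 / 2) ^ i * (1 / 2) ^ ν * ((4 ^ ν + 4 ^ i) / r + 1)) =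
            2 ^ k / r * ((1 / 2) ^ i * (1 / 2) ^ ν * 4 ^ ν + (1 / 2) ^ i * (1 / 2) ^ ν * 4 ^ i) +
              2 ^ k * (1 / 2) ^ ν * (1 / 2) ^ i := by
          field_simp
        have e6 : (2:ℝ) ^ k / r * ((1 / 2) ^ i * (1 / 2) ^ ν * 4 ^ ν +
            (1 / 2) ^ i * (1 / 2) ^ ν * 4 ^ i) ≤ 2 ^ k / r * (2 ^ k + 2 ^ k) :=
          mul_le_mul_of_nonneg_left (add_le_add e2 e4) (by positivity)
        have e7 : (2:ℝ) ^ k / r * (2 ^ k + 2 ^ k) = (1 / 2) ^ k := by
          rw [hrr, pow_succ, pow_mul', show (2:ℝ) ^ k / ((2 ^ k) ^ 3 * 2) * (2 ^ k + 2 ^ k) =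
            1 / 2 ^ k by field_simp; ring, one_div, one_div, inv_pow]
        linarith
  -- second part
  have hG : (2 ^ k / p) * ((1 / 2) ^ i * (1 / 2) ^ ν * ((S ∩ T).card * dl i)) ≤
      (2 ^ k / p) * ((if i ≤ ν then (1 / 2) ^ ν else 0) +
        (if ν + 1 ≤ i then (1 / 2) ^ i else 0)) := by
    refine mul_le_mul_of_nonneg_left ?_ (by positivity)
    unfold dl
    by_cases c1 : i ≤ ν
    · rw [if_pos c1, if_neg (by omega), add_zero]
      have e1 : (1 / 2 : ℝ) ^ i * (1 / 2) ^ ν * ((S ∩ T).card * (1 / 2) ^ i) ≤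
          (1 / 2) ^ i * (1 / 2) ^ ν * (4 ^ i * (1 / 2) ^ i) := by
        exact mul_le_mul_of_nonneg_left (mul_le_mul_of_nonneg_right hT (by positivity)) (P _ _).le
      refine e1.trans (le_of_eq ?_)
      rw [mul_comm ((4:ℝ) ^ i), half_four]
      calc (1 / 2 : ℝ) ^ i * (1 / 2) ^ ν * 2 ^ i = ((1 / 2) ^ i * 2 ^ i) * (1 / 2) ^ ν := by ring
        _ = _ := by rw [half_two, one_mul]
    · rw [if_neg c1, if_pos (by omega), zero_add]
      have e1 : (1 / 2 : ℝ) ^ i * (1 / 2) ^ ν * ((S ∩ T).card * (1 / 2) ^ i) ≤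
          (1 / 2) ^ i * (1 / 2) ^ ν * (4 ^ ν * (1 / 2) ^ i) := by
        exact mul_le_mul_of_nonneg_left (mul_le_mul_of_nonneg_right hSc (by positivity)) (P _ _).le
      refine e1.trans ?_
      have e2 : (1 / 2 : ℝ) ^ i * (1 / 2) ^ ν * (4 ^ ν * (1 / 2) ^ i) =
          (1 / 2) ^ i * ((1 / 2) ^ i * 2 ^ ν) := by rw [← half_four ν]; ring
      rw [e2]
      have e5 : (2:ℝ) ^ ν ≤ 2 ^ i := pow_le_pow_right₀ (by norm_num) (by omega)
      have e3 : (1 / 2 : ℝ) ^ i * 2 ^ ν ≤ (1 / 2) ^ i * 2 ^ i :=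
        mul_le_mul_of_nonneg_left e5 (by positivity)
      rw [half_two] at e3
      have e4 : (0:ℝ) < (1 / 2) ^ i := by positivity
      nlinarith
  linarith

theorem two_mul_le_two_pow (k : ℕ) : 2 * k ≤ 2 ^ k := by
  induction k with
  | zero => simp
  | succ n ih =>
    rw [pow_succ]
    rcases Nat.eq_zero_or_pos n with h | h
    · subst h; norm_num
    · have : 2 ≤ 2 ^ n := by
        calc 2 = 2 ^ 1 := by norm_num
          _ ≤ 2 ^ n := Nat.pow_le_pow_right (by norm_num) h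
      omega

/-- The vector has bounded norm. -/
theorem uS_bound {k ν : ℕ} {S : Finset ℕ} (hS : S.card = 4 ^ ν) (hk : ∀ n ∈ S, k < n)
    (hν : k + 1 ≤ ν) (hp : (2 ^ k / eps k ^ rr k) * ((ν + 2) * (1 / 2) ^ ν) ≤ 1) (ω : Conf) :
    rho ω (uS k ν S) ≤ 7 := by
  have hp0 : 0 < eps k ^ rr k := pow_pos (eps_pos k) _
  unfold rho
  have h1 : ∀ i ∈ range ω.I, ω.β i * al i (ω.T i) (ω.g i) (uS k ν S) ≤
      (2 ^ k * (1 / 2) ^ ν * (if i ≤ ν - k then 2 ^ i else 0)) +
      (2 ^ k * 2 ^ ν * (if ν + k ≤ i then (1 / 2) ^ i else 0)) +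
      (if ν < i + k ∧ i < ν + k then (1 / 2) ^ k else 0) +
      2 ^ k * (1 / 2) ^ ν * (1 / 2) ^ i +
      (2 ^ k / eps k ^ rr k) * ((if i ≤ ν then (1 / 2) ^ ν else 0) +
        (if ν + 1 ≤ i then (1 / 2) ^ i else 0)) := by
    intro i hi
    have e1 := scale_le (k := k) (ν := ν) hS hk (ω.adm i)
    have e2 := al_nonneg (ω.adm i) (uS k ν S)
    have e3 := ω.β_le (mem_range.mp hi)
    have e4 : ω.β i * al i (ω.T i) (ω.g i) (uS k ν S) ≤ al i (ω.T i) (ω.g i) (uS k ν S) := by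
      nlinarith
    refine e4.trans (e1.trans (le_of_eq ?_))
    congr 1; congr 1; congr 1; congr 1
    · by_cases c : i + k ≤ ν
      · rw [if_pos c, if_pos (by omega)]; ring
      · rw [if_neg c, if_neg (by omega)]; ring
    · by_cases c : ν + k ≤ i
      · rw [if_pos c, if_pos c]
      · rw [if_neg c, if_neg c]; ring
  refine (sum_le_sum h1).trans ?_
  simp_rw [sum_add_distrib, ← mul_sum, sum_add_distrib]
  have s1 : (2:ℝ) ^ k * (1 / 2) ^ ν * ∑ i ∈ range ω.I, (if i ≤ ν - k then (2:ℝ) ^ i else 0) ≤ 2 := by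
    refine (mul_le_mul_of_nonneg_left (gs2 ω.I (ν - k)) (by positivity)).trans (le_of_eq ?_)
    have e1 : (2:ℝ) ^ k * 2 ^ (ν - k) = 2 ^ ν := by rw [← pow_add]; congr 1; omega
    calc (2:ℝ) ^ k * (1 / 2) ^ ν * (2 * 2 ^ (ν - k)) = 2 * ((1 / 2) ^ ν * (2 ^ k * 2 ^ (ν - k))) := by
          ring
      _ = 2 := by rw [e1, half_two]; ring
  have s2 : (2:ℝ) ^ k * 2 ^ ν * ∑ i ∈ range ω.I, (if ν + k ≤ i then (1 / 2 : ℝ) ^ i else 0) ≤ 2 := by
    refine (mul_le_mul_of_nonneg_left (gs1 ω.I (ν + k)) (by positivity)).trans (le_of_eq ?_)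
    rw [pow_add]
    calc (2:ℝ) ^ k * 2 ^ ν * (2 * ((1 / 2) ^ ν * (1 / 2) ^ k)) =
        2 * ((1 / 2) ^ k * 2 ^ k) * ((1 / 2) ^ ν * 2 ^ ν) := by ring
      _ = 2 := by rw [half_two, half_two]; ring
  have s3 : ∑ i ∈ range ω.I, (if ν < i + k ∧ i < ν + k then (1 / 2 : ℝ) ^ k else 0) ≤ 1 := by
    rw [← sum_filter, sum_const, nsmul_eq_mul]
    have e1 : ((range ω.I).filter fun i => ν < i + k ∧ i < ν + k) ⊆ Ico (ν + 1 - k) (ν + k) := by
      intro i hi
      rw [mem_filter] at hi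
      rw [mem_Ico]; omega
    have e2 := card_le_card e1
    rw [Nat.card_Ico] at e2
    have e3 : ((range ω.I).filter fun i => ν < i + k ∧ i < ν + k).card ≤ 2 ^ k :=
      e2.trans (le_trans (by omega) (two_mul_le_two_pow k))
    have e4 : (((range ω.I).filter fun i => ν < i + k ∧ i < ν + k).card : ℝ) ≤ 2 ^ k := by
      exact_mod_cast e3
    calc (((range ω.I).filter fun i => ν < i + k ∧ i < ν + k).card : ℝ) * (1 / 2) ^ k ≤
        2 ^ k * (1 / 2) ^ k := mul_le_mul_of_nonneg_right e4 (by positivity)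
      _ = 1 := by rw [mul_comm, half_two]
  have s4 : (2:ℝ) ^ k * (1 / 2) ^ ν * ∑ i ∈ range ω.I, (1 / 2 : ℝ) ^ i ≤ 1 := by
    have e1 : (2:ℝ) ^ k * 2 ≤ 2 ^ ν := by
      rw [← pow_succ]; exact pow_le_pow_right₀ (by norm_num) hν
    calc (2:ℝ) ^ k * (1 / 2) ^ ν * ∑ i ∈ range ω.I, (1 / 2 : ℝ) ^ i ≤
        2 ^ k * (1 / 2) ^ ν * 2 := mul_le_mul_of_nonneg_left (geom_half _) (by positivity)
      _ = (1 / 2) ^ ν * (2 ^ k * 2) := by ring
      _ ≤ (1 / 2) ^ ν * 2 ^ ν := mul_le_mul_of_nonneg_left e1 (by positivity)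
      _ = 1 := half_two ν
  have s5 : (2 ^ k / eps k ^ rr k) * (∑ i ∈ range ω.I, (if i ≤ ν then (1 / 2 : ℝ) ^ ν else 0) +
      ∑ i ∈ range ω.I, (if ν + 1 ≤ i then (1 / 2 : ℝ) ^ i else 0)) ≤ 1 := by
    refine le_trans (mul_le_mul_of_nonneg_left ?_ (by positivity)) hp
    have e1 := gs1 ω.I (ν + 1)
    have e2 : ∑ i ∈ range ω.I, (if i ≤ ν then (1 / 2 : ℝ) ^ ν else 0) ≤ (ν + 1) * (1 / 2) ^ ν := by
      rw [← sum_filter, sum_const, nsmul_eq_mul]
      refine mul_le_mul_of_nonneg_right ?_ (by positivity)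
      have e3 : ((range ω.I).filter (· ≤ ν)) ⊆ range (ν + 1) := by
        intro i hi
        rw [mem_filter] at hi
        exact mem_range.mpr (by omega)
      have e4 := card_le_card e3
      rw [card_range] at e4
      exact_mod_cast e4
    have e3 : 2 * (1 / 2 : ℝ) ^ (ν + 1) = (1 / 2) ^ ν := by rw [pow_succ]; ring
    rw [e3] at e1
    linarith
  linarith

end Pool.Agent.H63.DHDC
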