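import Pool.Agent.H63.DHDC.DH
import Pool.Agent.H63.DHDC.Small

set_option autoImplicit false

open Finset Filter Topology

namespace Pool.Agent.H63.DHDC

open Fam

theorem level_good (n : ℕ) (u : Idx → ℝ) : fam.Good ({x : Idx | x.1 = n}.indicator u) := by
  refine fam.good_of_finite ((range (n + 1)).sigma fun m => (univ : Finset (F m))) fun x hx => ?_
  refine Set.indicator_of_notMem (fun h => hx ?_) _
  simp only [mem_sigma, mem_range, mem_univ, and_true]
  have : x.1 = n := h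
  omega

/-- Restriction of a function to one level. -/
noncomputable def lev (n : ℕ) (u : Idx → ℝ) : X := mkE ({x : Idx | x.1 = n}.indicator u) (level_good n u)

theorem fn_lev_self (n : ℕ) (u : Idx → ℝ) (t : F n) : fn (lev n u) ⟨n, t⟩ = u ⟨n, t⟩ :=
  Set.indicator_of_mem (show (⟨n, t⟩ : Idx) ∈ {x : Idx | x.1 = n} from rfl) _

theorem fn_lev_ne {n m : ℕ} (h : m ≠ n) (u : Idx → ℝ) (t : F m) : fn (lev n u) ⟨m, t⟩ = 0 :=
  Set.indicator_of_notMem (show (⟨m, t⟩ : Idx) ∉ {x : Idx | x.1 = n} from h) _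

theorem norm_lev_le (n : ℕ) (u : Idx → ℝ) :
    ‖lev n u‖ ≤ 2 * Real.sqrt (∑ t : F n, u ⟨n, t⟩ ^ 2) := by
  rw [norm_le_iff']
  intro ω
  have h := rho_le_of_level ω (u := fn (lev n u)) (n₀ := n) fun m hm t => fn_lev_ne hm u t
  simpa only [fn_lev_self] using h

/-- The disjoint sequence. -/
noncomputable def xx (n : ℕ) : X := lev n fun x => xv x.1 x.2

/-- Unit vectors. -/
noncomputable def ev (x : Idx) : X := lev x.1 (Set.indicator {x} fun _ => (1:ℝ))

theorem lev_eq_sum (n : ℕ) (u : Idx → ℝ) : lev n u = ∑ t : F n, u ⟨n, t⟩ • ev ⟨n, t⟩ := by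
  classical
  refine fn_inj ?_
  rw [Fam.fn_sum]
  ext ⟨m, s⟩
  rw [Finset.sum_apply]
  by_cases hm : m = n
  · subst hm
    rw [fn_lev_self, sum_eq_single s]
    · rw [fn_smul, Pi.smul_apply, smul_eq_mul]
      unfold ev
      rw [fn_lev_self, Set.indicator_of_mem (Set.mem_singleton _), mul_one]
    · intro t _ hts
      rw [fn_smul, Pi.smul_apply, smul_eq_mul]
      unfold ev
      rw [fn_lev_self, Set.indicator_of_notMem, mul_zero]
      intro h
      rw [Set.mem_singleton_iff, Sigma.mk.injEq] at h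
      exact hts (eq_of_heq h.2).symm
    · intro h; exact absurd (mem_univ _) h
  · rw [fn_lev_ne hm, sum_eq_zero]
    intro t _
    rw [fn_smul, Pi.smul_apply, smul_eq_mul]
    unfold ev
    rw [fn_lev_ne hm, mul_zero]

/-- Choice of signs. -/
theorem signs (S' S : Finset ℕ) (y : ℕ → ℕ → ℝ) : ∃ θ : ℕ → ℝ, (∀ l, |θ l| = 1) ∧
    ∑ l ∈ S', ∑ n ∈ S, y l n ^ 2 ≤ ∑ n ∈ S, (∑ l ∈ S', θ l * y l n) ^ 2 := by
  classical
  induction S' using Finset.induction_on with
  | empty => exact ⟨fun _ => 1, by simp, by simp⟩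
  | insert a S' ha ih =>
    obtain ⟨θ, h1, h2⟩ := ih
    obtain ⟨σ, hσ1, hσ2⟩ : ∃ σ : ℝ, |σ| = 1 ∧
        0 ≤ σ * ∑ n ∈ S, y a n * ∑ l ∈ S', θ l * y l n := by
      rcases le_total 0 (∑ n ∈ S, y a n * ∑ l ∈ S', θ l * y l n) with h | h
      · exact ⟨1, by simp, by linarith⟩
      · exact ⟨-1, by simp, by linarith⟩
    refine ⟨Function.update θ a σ, ?_, ?_⟩
    · intro l
      by_cases hl : l = a
      · subst hl; simp [hσ1]
      · simp [hl, h1]
    · have e1 : ∀ n, ∑ l ∈ insert a S', Function.update θ a σ l * y l n =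
          σ * y a n + ∑ l ∈ S', θ l * y l n := by
        intro n
        rw [sum_insert ha, Function.update_self]
        congr 1
        refine sum_congr rfl fun l hl => ?_
        have hla : l ≠ a := fun h => ha (h ▸ hl)
        rw [Function.update_of_ne hla]
      simp_rw [e1]
      have hσ3 : σ ^ 2 = 1 := by rw [← sq_abs, hσ1]; norm_num
      have e2 : ∀ n, (σ * y a n + ∑ l ∈ S', θ l * y l n) ^ 2 = y a n ^ 2 +
          2 * (σ * (y a n * ∑ l ∈ S', θ l * y l n)) + (∑ l ∈ S', θ l * y l n) ^ 2 := by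
        intro n
        calc _ = σ ^ 2 * y a n ^ 2 + 2 * (σ * (y a n * ∑ l ∈ S', θ l * y l n)) +
              (∑ l ∈ S', θ l * y l n) ^ 2 := by ring
          _ = _ := by rw [hσ3, one_mul]
      simp_rw [e2]
      rw [sum_insert ha, sum_add_distrib, sum_add_distrib, ← mul_sum, ← mul_sum]
      linarith

/-- Correlation with the sequence. -/
noncomputable def Lam (n : ℕ) : X →L[ℝ] ℝ := ∑ t : F n, xv n t • coordL fam ⟨n, t⟩

theorem Lam_apply (n : ℕ) (u : X) : Lam n u = ∑ t : F n, xv n t * fn u ⟨n, t⟩ := by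
  unfold Lam
  rw [_root_.sum_apply]
  rfl

theorem Lam_xx (n : ℕ) : Lam n (xx n) = 1 := by
  rw [Lam_apply]
  unfold xx
  simp_rw [fn_lev_self]
  exact sum_xv_sq n

/-- The closed subspace of level-wise multiples. -/
noncomputable def Wsub : Submodule ℝ X where
  carrier := {u | ∀ (n : ℕ) (t : F n), fn u ⟨n, t⟩ = Lam n u * xv n t}
  add_mem' := by
    intro u v hu hv n t
    rw [fn_add, Pi.add_apply, hu n t, hv n t, map_add]; ring
  zero_mem' := by intro n t; simp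
  smul_mem' := by
    intro c u hu n t
    rw [fn_smul, Pi.smul_apply, hu n t, map_smul, smul_eq_mul, smul_eq_mul]; ring

theorem Wsub_closed : IsClosed (Wsub : Set X) := by
  have : (Wsub : Set X) = ⋂ (n : ℕ) (t : F n), {u : X | coordL fam ⟨n, t⟩ u = Lam n u * xv n t} := by
    ext u
    simp only [Set.mem_iInter, Set.mem_ofPred_eq]
    exact Iff.rfl
  rw [this]
  refine isClosed_iInter fun n => isClosed_iInter fun t => isClosed_eq ?_ ?_
  · exact (coordL fam ⟨n, t⟩).continuous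
  · exact (Lam n).continuous.mul continuous_const

theorem xx_mem (m : ℕ) : xx m ∈ Wsub := by
  intro n t
  by_cases h : n = m
  · subst h
    rw [Lam_xx, one_mul]
    exact fn_lev_self _ _ _
  · have h1 : Lam n (xx m) = 0 := by
      rw [Lam_apply]
      exact sum_eq_zero fun t _ => by unfold xx; rw [fn_lev_ne h, mul_zero]
    rw [h1, zero_mul]
    exact fn_lev_ne h _ _

theorem main_bound {v : X} (hv : v ∈ Wsub) (S : Finset ℕ) :
    ∑ n ∈ S, Lam n v ^ 2 ≤ 20 * ‖v‖ ^ 2 := by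
  classical
  have h := lower (v := fun n => fn (xx n)) (lv := id) (κ := 1 / 2) (by norm_num) (s := S)
    (c := fun n => Lam n v) (fun _ _ _ _ h => h) ?_ (w := fn v) ?_ (rho_le_norm v)
  · linarith
  · intro i T _ _ j _
    refine ⟨fun t => xv j t * indH j (T.image id) t, adm_H _ _ _, ?_⟩
    have h1 := half_le_xv j (T.image id)
    refine h1.trans (le_of_eq (sum_congr rfl fun t _ => ?_))
    unfold xx
    simp only [id]
    rw [fn_lev_self, abs_of_pos (xv_pos j t)]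
  · intro j _ t
    simp only [id]
    unfold xx
    rw [fn_lev_self, hv j t, abs_mul]

/-- No subsequence has complemented span. -/
theorem not_compl {φ : ℕ → ℕ} (hφ : StrictMono φ) (P : X →L[ℝ] X) (hP : ∀ v, P (P v) = P v)
    (hr : Set.range P = closure (Submodule.span ℝ (Set.range fun j => xx (φ j)) : Set X)) :
    False := by
  classical
  have hPW : ∀ v, P v ∈ Wsub := by
    intro v
    have h1 : P v ∈ closure (Submodule.span ℝ (Set.range fun j => xx (φ j)) : Set X) :=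
      hr ▸ Set.mem_range_self v
    refine closure_minimal ?_ Wsub_closed h1
    rw [SetLike.coe_subset_coe, Submodule.span_le]
    rintro _ ⟨j, rfl⟩
    exact xx_mem _
  have hfix : ∀ j, P (xx (φ j)) = xx (φ j) := by
    intro j
    have h1 : xx (φ j) ∈ Set.range P := by
      rw [hr]
      exact subset_closure (Submodule.subset_span (Set.mem_range_self j))
    obtain ⟨w, hw⟩ := h1
    rw [← hw, hP]
  have hb : ∀ (v : X) (S : Finset ℕ), ∑ n ∈ S, Lam n (P v) ^ 2 ≤ 20 * (‖P‖ * ‖v‖) ^ 2 := by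
    intro v S
    refine (main_bound (hPW v) S).trans ?_
    have h1 := P.le_opNorm v
    have h2 := pow_le_pow_left₀ (norm_nonneg _) h1 2
    linarith
  let gg : (n : ℕ) → F n → ℝ := fun n t => Lam n (P (ev ⟨n, t⟩))
  have hgg : ∀ n (u : Idx → ℝ), Lam n (P (lev n u)) = ∑ t, u ⟨n, t⟩ * gg n t := by
    intro n u
    rw [lev_eq_sum, map_sum, map_sum]
    refine sum_congr rfl fun t _ => ?_
    rw [map_smul, map_smul, smul_eq_mul]
  have hG : ∀ n, ∑ t, gg n t ^ 2 ≤ 80 * ‖P‖ ^ 2 := by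
    intro n
    set G := ∑ t, gg n t ^ 2 with hGdef
    have hG0 : 0 ≤ G := sum_nonneg fun _ _ => sq_nonneg _
    have h1 := hb (lev n fun x => gg x.1 x.2) {n}
    rw [sum_singleton, hgg] at h1
    have h2 : ∑ t, gg n t * gg n t = G := sum_congr rfl fun t _ => by ring
    simp only at h1
    rw [h2] at h1
    have h3 := norm_lev_le n fun x => gg x.1 x.2
    have h4 : ‖lev n fun x => gg x.1 x.2‖ ^ 2 ≤ 4 * G := by
      calc ‖lev n fun x => gg x.1 x.2‖ ^ 2 ≤ (2 * Real.sqrt G) ^ 2 :=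
            pow_le_pow_left₀ (norm_nonneg _) h3 2
        _ = 4 * G := by rw [mul_pow, Real.sq_sqrt hG0]; norm_num
    have h5 : G ^ 2 ≤ (80 * ‖P‖ ^ 2) * G := by
      calc G ^ 2 ≤ 20 * (‖P‖ * ‖lev n fun x => gg x.1 x.2‖) ^ 2 := h1
        _ = 20 * ‖P‖ ^ 2 * ‖lev n fun x => gg x.1 x.2‖ ^ 2 := by ring
        _ ≤ 20 * ‖P‖ ^ 2 * (4 * G) := mul_le_mul_of_nonneg_left h4 (by positivity)
        _ = _ := by ring
    rcases eq_or_lt_of_le hG0 with h0 | h0
    · rw [← h0]; positivity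
    · rw [sq] at h5
      exact le_of_mul_le_mul_right h5 h0
  have hone : ∀ j, ∑ t, gg (φ j) t * xv (φ j) t = 1 := by
    intro j
    have h1 := hgg (φ j) fun x => xv x.1 x.2
    have h2 : lev (φ j) (fun x => xv x.1 x.2) = xx (φ j) := rfl
    rw [h2, hfix, Lam_xx] at h1
    rw [h1]
    exact sum_congr rfl fun t _ => mul_comm _ _
  -- choice of the parameters
  obtain ⟨k, hk⟩ : ∃ k : ℕ, 7840 * ‖P‖ ^ 2 < (4:ℝ) ^ k := pow_unbounded_of_one_lt _ (by norm_num)
  set r := rr k with hrdef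
  set p : ℝ := eps k ^ r with hp
  have hp0 : 0 < p := pow_pos (eps_pos k) r
  obtain ⟨L, hL⟩ := exists_nat_ge (4 * (80 * ‖P‖ ^ 2) / p)
  have hV : ∀ n, ∃ V : Finset ℕ, V.card ≤ L * r ∧ ((k < n ∧ n ∈ Set.range φ) →
      ∀ R : Finset ℕ, (∀ m ∈ R, m < n) → R.card = r →
      Disjoint R V → p / 2 ≤ ∑ t : F n, ind (row k R) t * (gg n t * xv n t)) := by
    intro n
    by_cases hn : k < n ∧ n ∈ Set.range φ
    · obtain ⟨j, rfl⟩ := hn.2
      obtain ⟨V, hV1, hV2⟩ := exists_exceptional hn.1 (rr_pos k) (hG (φ j)) (hone j) hL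
      exact ⟨V, hV1, fun _ => hV2⟩
    · exact ⟨∅, by simp, fun h => absurd h hn⟩
  choose V hV1 hV2 using hV
  have hν : ∃ ν : ℕ, k + 1 ≤ ν ∧ (2 ^ k / p) * ((ν + 2) * (1 / 2) ^ ν) ≤ 1 ∧ 2 * r ≤ 4 ^ ν := by
    have t1 : Tendsto (fun ν : ℕ => (2 ^ k / p) * (((ν : ℝ) + 2) * (1 / 2) ^ ν)) atTop (𝓝 0) := by
      have a1 : Tendsto (fun ν : ℕ => (ν : ℝ) * (1 / 2) ^ ν) atTop (𝓝 0) :=
        tendsto_self_mul_const_pow_of_lt_one (by norm_num) (by norm_num)
      have a2 : Tendsto (fun ν : ℕ => (1 / 2 : ℝ) ^ ν) atTop (𝓝 0) :=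
        tendsto_pow_atTop_nhds_zero_of_lt_one (by norm_num) (by norm_num)
      have a3 := (a1.add (a2.const_mul 2)).const_mul (2 ^ k / p)
      simp only [mul_zero, add_zero] at a3
      refine a3.congr fun ν => ?_
      ring
    have t2 : ∀ᶠ ν : ℕ in atTop, (2 ^ k / p) * (((ν : ℝ) + 2) * (1 / 2) ^ ν) < 1 :=
      t1.eventually (gt_mem_nhds one_pos)
    obtain ⟨ν, h1, h2, h3⟩ := (t2.and ((eventually_ge_atTop (k + 1)).and
      (eventually_ge_atTop (2 * r)))).exists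
    exact ⟨ν, h2, h1.le, h3.trans (Nat.lt_pow_self (by norm_num)).le⟩
  obtain ⟨ν, hν1, hν2, hν3⟩ := hν
  set B := L * r with hB
  let M : Finset ℕ := (Ico (k + 1) (k + 1 + 4 ^ ν * (B + 1))).image φ
  have hM : ∀ n ∈ M, k < n ∧ n ∈ Set.range φ := by
    intro n hn
    obtain ⟨j, hj, rfl⟩ := mem_image.mp hn
    rw [mem_Ico] at hj
    exact ⟨lt_of_lt_of_le (by omega) (hφ.le_apply (x := j)), Set.mem_range_self j⟩
  have hMc : 4 ^ ν * (B + 1) ≤ M.card := by
    simp only [M]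
    rw [card_image_of_injective _ hφ.injective, Nat.card_Ico]
    omega
  obtain ⟨S, hSM, hSc, hSf⟩ := exists_free (V := V) (B := B) (4 ^ ν) M (fun n _ => hV1 n) hMc
  have hSk : ∀ n ∈ S, k < n := fun n hn => (hM n (hSM hn)).1
  have hbd := uS_bound hSc hSk hν1 hν2
  -- diagonal values
  have hdiag : ∀ n ∈ S, r ≤ pos S n → 2 ^ k * (1 / 2) ^ ν / 2 ≤ Lam n (P (lev n (uS k ν S))) := by
    intro n hn hpos
    rw [hgg]
    have h1 : ∀ t : F n, uS k ν S ⟨n, t⟩ * gg n t = (2 ^ k / p) * (1 / 2) ^ ν *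
        (ind (row k (last r S n)) t * (gg n t * xv n t)) := by
      intro t
      unfold uS
      rw [if_pos ⟨hn, hpos⟩]
      ring
    simp_rw [h1]
    rw [← mul_sum]
    have h2 := hV2 n (hM n (hSM hn)) (last r S n) (fun m hm => (mem_last.mp hm).2.1)
      (card_last_eq hpos) (by
        rw [disjoint_left]
        intro m hm
        exact hSf n hn m (mem_last.mp hm).1 (mem_last.mp hm).2.1)
    have h3 : (0:ℝ) ≤ (2 ^ k / p) * (1 / 2) ^ ν := by positivity
    calc (2:ℝ) ^ k * (1 / 2) ^ ν / 2 = (2 ^ k / p) * (1 / 2) ^ ν * (p / 2) := by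
          field_simp
      _ ≤ _ := mul_le_mul_of_nonneg_left h2 h3
  obtain ⟨θ, hθ1, hθ2⟩ := signs S S fun l n => Lam n (P (lev l (uS k ν S)))
  set vθ : X := ∑ l ∈ S, θ l • lev l (uS k ν S) with hvθ
  have hvθn : ‖vθ‖ ≤ 7 := by
    rw [norm_le_iff']
    intro ω
    refine le_trans (fam.mono ω _ (uS k ν S) fun x => ?_) (hbd ω)
    obtain ⟨m, t⟩ := x
    rw [hvθ, Fam.fn_sum, Finset.sum_apply]
    by_cases hm : m ∈ S
    · rw [sum_eq_single m]
      · rw [fn_smul, Pi.smul_apply, smul_eq_mul, abs_mul, hθ1, one_mul, fn_lev_self]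
      · intro l _ hl
        rw [fn_smul, Pi.smul_apply, fn_lev_ne hl.symm, smul_zero]
      · intro h; exact absurd hm h
    · rw [sum_eq_zero]
      · simp
      · intro l hl
        have : m ≠ l := fun h => hm (h ▸ hl)
        rw [fn_smul, Pi.smul_apply, fn_lev_ne this, smul_zero]
  have h1 := hb vθ S
  have h2 : ∀ n, Lam n (P vθ) = ∑ l ∈ S, θ l * Lam n (P (lev l (uS k ν S))) := by
    intro n
    rw [hvθ, map_sum, map_sum]
    refine sum_congr rfl fun l _ => ?_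
    rw [map_smul, map_smul, smul_eq_mul]
  simp_rw [h2] at h1
  have h3 : ∑ n ∈ S.filter (fun n => r ≤ pos S n), (2 ^ k * (1 / 2) ^ ν / 2 : ℝ) ^ 2 ≤
      ∑ l ∈ S, ∑ n ∈ S, Lam n (P (lev l (uS k ν S))) ^ 2 := by
    have h4 : ∀ n ∈ S.filter (fun n => r ≤ pos S n), (2 ^ k * (1 / 2) ^ ν / 2 : ℝ) ^ 2 ≤
        ∑ m ∈ S, Lam m (P (lev n (uS k ν S))) ^ 2 := by
      intro n hn
      rw [mem_filter] at hn
      have h5 := pow_le_pow_left₀ (by positivity) (hdiag n hn.1 hn.2) 2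
      exact h5.trans (single_le_sum (f := fun m => Lam m (P (lev n (uS k ν S))) ^ 2)
        (fun m _ => sq_nonneg _) hn.1)
    exact (sum_le_sum h4).trans (sum_le_sum_of_subset_of_nonneg (filter_subset _ _)
      fun _ _ _ => sum_nonneg fun _ _ => sq_nonneg _)
  rw [sum_const, nsmul_eq_mul] at h3
  have h4 : (4 ^ ν : ℝ) / 2 ≤ (S.filter (fun n => r ≤ pos S n)).card := by
    have e1 := card_early S r
    have e2 : (S.filter fun n => pos S n < r).card + (S.filter fun n => ¬ pos S n < r).card =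
        S.card := card_filter_add_card_filter_not _
    have e3 : (S.filter fun n => ¬ pos S n < r) = S.filter (fun n => r ≤ pos S n) := by
      simp only [not_lt]
    rw [e3, hSc] at e2
    have e4 : 4 ^ ν ≤ 2 * (S.filter (fun n => r ≤ pos S n)).card := by omega
    have e5 : (4 ^ ν : ℝ) ≤ 2 * (S.filter (fun n => r ≤ pos S n)).card := by exact_mod_cast e4
    linarith
  have h5 : (4:ℝ) ^ k / 8 ≤ (S.filter (fun n => r ≤ pos S n)).card *
      (2 ^ k * (1 / 2) ^ ν / 2 : ℝ) ^ 2 := by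
    refine le_trans (le_of_eq ?_) (mul_le_mul_of_nonneg_right h4 (sq_nonneg _))
    have e1 : (4:ℝ) ^ k = (2 ^ k) ^ 2 := by rw [← pow_mul, mul_comm, pow_mul]; norm_num
    have e2 : (4:ℝ) ^ ν * ((1 / 2) ^ ν) ^ 2 = 1 := by
      rw [← pow_mul, mul_comm ν, pow_mul, ← mul_pow]; norm_num
    calc (4:ℝ) ^ k / 8 = (2 ^ k) ^ 2 / 8 * (4 ^ ν * ((1 / 2) ^ ν) ^ 2) := by rw [e1, e2, mul_one]
      _ = _ := by ring
  have h6 : 20 * (‖P‖ * ‖vθ‖) ^ 2 ≤ 980 * ‖P‖ ^ 2 := by
    have e1 : ‖vθ‖ ^ 2 ≤ 49 := by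
      have := pow_le_pow_left₀ (norm_nonneg _) hvθn 2
      norm_num at this ⊢
      exact this
    rw [mul_pow]
    nlinarith [sq_nonneg ‖P‖, mul_le_mul_of_nonneg_left e1 (sq_nonneg ‖P‖)]
  linarith

end Pool.Agent.H63.DHDC
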