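import Mathlib

set_option autoImplicit false

open Set Filter Topology

namespace Pool.Agent.H63.DHDC

/-- A family of finitely determined lattice seminorms on `ι → ℝ`. -/
structure Fam (ι Ω : Type) where
  ρ : Ω → (ι → ℝ) → ℝ
  add_le : ∀ ω u v, ρ ω (u + v) ≤ ρ ω u + ρ ω v
  smul : ∀ ω (c : ℝ) u, ρ ω (c • u) = |c| * ρ ω u
  mono : ∀ ω u v, (∀ x, |u x| ≤ |v x|) → ρ ω u ≤ ρ ω v
  cont : ∀ ω, Continuous (ρ ω)
  bdd : ∀ x, ∃ C, ∀ ω, ρ ω (Set.indicator {x} (fun _ => (1:ℝ))) ≤ C
  pos : ∀ x, ∃ ω, ∃ c > 0, ∀ u : ι → ℝ, c * |u x| ≤ ρ ω u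

variable {ι Ω : Type} (S : Fam ι Ω)

namespace Fam

theorem zero (ω : Ω) : S.ρ ω 0 = 0 := by
  have := S.smul ω 0 0
  simpa using this

theorem nonneg (ω : Ω) (u : ι → ℝ) : 0 ≤ S.ρ ω u := by
  have := S.mono ω 0 u (fun x => by simp)
  rwa [S.zero] at this

theorem neg (ω : Ω) (u : ι → ℝ) : S.ρ ω (-u) = S.ρ ω u :=
  le_antisymm (S.mono ω _ _ fun x => by simp) (S.mono ω _ _ fun x => by simp)

theorem congr_abs (ω : Ω) {u v : ι → ℝ} (h : ∀ x, |u x| = |v x|) : S.ρ ω u = S.ρ ω v :=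
  le_antisymm (S.mono ω _ _ fun x => (h x).le) (S.mono ω _ _ fun x => (h x).ge)

theorem sum_le (ω : Ω) {J : Type} (s : Finset J) (v : J → ι → ℝ) :
    S.ρ ω (∑ j ∈ s, v j) ≤ ∑ j ∈ s, S.ρ ω (v j) := by
  classical
  induction s using Finset.induction_on with
  | empty => simp [S.zero]
  | insert a s ha ih =>
    rw [Finset.sum_insert ha, Finset.sum_insert ha]
    exact (S.add_le _ _ _).trans (by linarith)

/-- Elements with uniformly small tails. -/
def Good (u : ι → ℝ) : Prop :=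
  ∀ ε > 0, ∃ F : Finset ι, ∀ ω, S.ρ ω ((↑F : Set ι)ᶜ.indicator u) ≤ ε

theorem abs_ind_le (A : Set ι) (u : ι → ℝ) (x : ι) : |A.indicator u x| ≤ |u x| := by
  by_cases h : x ∈ A <;> simp [h]

theorem abs_ind_mono {A B : Set ι} (h : A ⊆ B) (u : ι → ℝ) (x : ι) :
    |A.indicator u x| ≤ |B.indicator u x| := by
  by_cases hx : x ∈ A
  · simp [hx, h hx]
  · simp [hx]

theorem Good.add {u v : ι → ℝ} (hu : S.Good u) (hv : S.Good v) : S.Good (u + v) := by
  classical
  intro ε hε
  obtain ⟨F, hF⟩ := hu (ε / 2) (by positivity)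
  obtain ⟨G, hG⟩ := hv (ε / 2) (by positivity)
  refine ⟨F ∪ G, fun ω => ?_⟩
  rw [Set.indicator_add']
  refine (S.add_le _ _ _).trans ?_
  have h1 : S.ρ ω ((↑(F ∪ G) : Set ι)ᶜ.indicator u) ≤ ε / 2 :=
    (S.mono ω _ _ (abs_ind_mono (compl_subset_compl.mpr (by simp)) u)).trans (hF ω)
  have h2 : S.ρ ω ((↑(F ∪ G) : Set ι)ᶜ.indicator v) ≤ ε / 2 :=
    (S.mono ω _ _ (abs_ind_mono (compl_subset_compl.mpr (by simp)) v)).trans (hG ω)
  linarith

theorem Good.smul {u : ι → ℝ} (hu : S.Good u) (c : ℝ) : S.Good (c • u) := by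
  intro ε hε
  obtain ⟨F, hF⟩ := hu (ε / (|c| + 1)) (by positivity)
  refine ⟨F, fun ω => ?_⟩
  have h : (↑F : Set ι)ᶜ.indicator (c • u) = c • (↑F : Set ι)ᶜ.indicator u := by
    ext x; by_cases hx : x ∈ (↑F : Set ι)ᶜ <;> simp [hx]
  rw [h, S.smul]
  have h2 : |c| * S.ρ ω ((↑F : Set ι)ᶜ.indicator u) ≤ |c| * (ε / (|c| + 1)) :=
    mul_le_mul_of_nonneg_left (hF ω) (abs_nonneg c)
  refine h2.trans ?_
  rw [mul_div_assoc', div_le_iff₀ (by positivity)]
  nlinarith [abs_nonneg c]

theorem Good.mono {u v : ι → ℝ} (hv : S.Good v) (h : ∀ x, |u x| ≤ |v x|) : S.Good u := by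
  intro ε hε
  obtain ⟨F, hF⟩ := hv ε hε
  refine ⟨F, fun ω => (S.mono ω _ _ fun x => ?_).trans (hF ω)⟩
  by_cases hx : x ∈ (↑F : Set ι)ᶜ <;> simp [hx, h x]

theorem Good.abs {u : ι → ℝ} (hu : S.Good u) : S.Good (|u|) :=
  hu.mono S fun x => by simp

theorem good_of_finite {u : ι → ℝ} (F : Finset ι) (h : ∀ x ∉ F, u x = 0) : S.Good u := by
  intro ε hε
  refine ⟨F, fun ω => ?_⟩
  have : (↑F : Set ι)ᶜ.indicator u = 0 := by
    ext x
    by_cases hx : x ∈ F
    · simp [hx]
    · simp [hx, h x hx]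
  rw [this, S.zero]
  exact hε.le

theorem ind_bdd (u : ι → ℝ) (F : Finset ι) : ∃ C, ∀ ω, S.ρ ω ((↑F : Set ι).indicator u) ≤ C := by
  classical
  choose C hC using S.bdd
  refine ⟨∑ x ∈ F, |u x| * C x, fun ω => ?_⟩
  have h : (↑F : Set ι).indicator u = ∑ x ∈ F, u x • Set.indicator {x} (fun _ => (1:ℝ)) := by
    ext y
    rw [Finset.sum_apply]
    by_cases hy : y ∈ F
    · rw [Finset.sum_eq_single y]
      · simp [hy]
      · intro b _ hb; simp [hb.symm]
      · intro h; exact absurd hy h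
    · rw [Finset.sum_eq_zero]
      · simp [hy]
      · intro b hb
        have : y ≠ b := fun h => hy (h ▸ hb)
        simp [this]
  rw [h]
  refine (S.sum_le _ _ _).trans (Finset.sum_le_sum fun x _ => ?_)
  rw [S.smul]
  exact mul_le_mul_of_nonneg_left (hC x ω) (abs_nonneg _)

theorem Good.bdd {u : ι → ℝ} (hu : S.Good u) : BddAbove (Set.range fun ω => S.ρ ω u) := by
  obtain ⟨F, hF⟩ := hu 1 one_pos
  obtain ⟨C, hC⟩ := S.ind_bdd u F
  refine ⟨C + 1, ?_⟩
  rintro _ ⟨ω, rfl⟩
  have h : u = (↑F : Set ι).indicator u + (↑F : Set ι)ᶜ.indicator u := by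
    rw [Set.indicator_self_add_compl]
  calc S.ρ ω u = S.ρ ω ((↑F : Set ι).indicator u + (↑F : Set ι)ᶜ.indicator u) := by rw [← h]
    _ ≤ S.ρ ω ((↑F : Set ι).indicator u) + S.ρ ω ((↑F : Set ι)ᶜ.indicator u) := S.add_le _ _ _
    _ ≤ C + 1 := add_le_add (hC ω) (hF ω)

/-- The submodule of good functions. -/
def sub : Submodule ℝ (ι → ℝ) where
  carrier := {u | S.Good u}
  add_mem' := fun hu hv => Good.add S hu hv
  zero_mem' := S.good_of_finite ∅ (by simp)
  smul_mem' := fun c _ hu => Good.smul S hu c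

/-- The space. -/
def E : Type := ↥S.sub

instance : AddCommGroup S.E := inferInstanceAs (AddCommGroup ↥S.sub)
instance : Module ℝ S.E := inferInstanceAs (Module ℝ ↥S.sub)

variable {S}

/-- Underlying function. -/
def fn (u : S.E) : ι → ℝ := Subtype.val u

theorem fn_good (u : S.E) : S.Good (fn u) := Subtype.property u

/-- Constructor. -/
def mkE (u : ι → ℝ) (h : S.Good u) : S.E := ⟨u, h⟩

@[simp] theorem fn_mkE (u : ι → ℝ) (h : S.Good u) : fn (mkE u h) = u := rfl
@[simp] theorem fn_add (u v : S.E) : fn (u + v) = fn u + fn v := rfl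
@[simp] theorem fn_sub (u v : S.E) : fn (u - v) = fn u - fn v := rfl
@[simp] theorem fn_neg (u : S.E) : fn (-u) = -fn u := rfl
@[simp] theorem fn_zero : fn (0 : S.E) = 0 := rfl
@[simp] theorem fn_smul (c : ℝ) (u : S.E) : fn (c • u) = c • fn u := rfl

theorem fn_inj {u v : S.E} (h : fn u = fn v) : u = v := Subtype.ext h

theorem fn_injective : Function.Injective (fn : S.E → ι → ℝ) := fun _ _ => fn_inj

/-- `fn` as a linear map. -/
def fnL : S.E →ₗ[ℝ] (ι → ℝ) where
  toFun := fn
  map_add' := fn_add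
  map_smul' := fn_smul

theorem fn_sum {J : Type} (s : Finset J) (v : J → S.E) : fn (∑ j ∈ s, v j) = ∑ j ∈ s, fn (v j) :=
  map_sum (fnL (S := S)) v s

noncomputable instance : Norm S.E := ⟨fun u => ⨆ ω, S.ρ ω (fn u)⟩

theorem norm_def (u : S.E) : ‖u‖ = ⨆ ω, S.ρ ω (fn u) := rfl

theorem le_norm (u : S.E) (ω : Ω) : S.ρ ω (fn u) ≤ ‖u‖ :=
  le_ciSup (Good.bdd S (fn_good u)) ω

variable [Nonempty Ω]

theorem norm_le_iff (u : S.E) {C : ℝ} : ‖u‖ ≤ C ↔ ∀ ω, S.ρ ω (fn u) ≤ C :=
  ⟨fun h ω => (le_norm u ω).trans h, fun h => ciSup_le h⟩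

theorem exists_lt_of_lt_norm (u : S.E) {C : ℝ} (h : C < ‖u‖) : ∃ ω, C < S.ρ ω (fn u) :=
  exists_lt_of_lt_ciSup h

theorem normCore : NormedSpace.Core ℝ S.E where
  norm_nonneg u := (S.nonneg (Classical.arbitrary Ω) _).trans (le_norm u _)
  norm_smul c u := by
    rw [norm_def, norm_def, Real.norm_eq_abs, Real.mul_iSup_of_nonneg (abs_nonneg c)]
    simp only [fn_smul, S.smul]
  norm_triangle u v := by
    rw [norm_le_iff]
    intro ω
    rw [fn_add]
    exact (S.add_le _ _ _).trans (add_le_add (le_norm u ω) (le_norm v ω))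
  norm_eq_zero_iff u := by
    constructor
    · intro h
      refine fn_inj (funext fun x => ?_)
      obtain ⟨ω, c, hc, hx⟩ := S.pos x
      have h1 := (hx (fn u)).trans (le_norm u ω)
      rw [h] at h1
      have : |fn u x| ≤ 0 := by
        by_contra h2
        push Not at h2
        have := mul_pos hc h2
        linarith
      simpa using this
    · rintro rfl
      rw [norm_def]
      simp [S.zero]

noncomputable instance : NormedAddCommGroup S.E := NormedAddCommGroup.ofCore normCore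
noncomputable instance : NormedSpace ℝ S.E := NormedSpace.ofCore normCore

theorem norm_mono {u v : S.E} (h : ∀ x, |fn u x| ≤ |fn v x|) : ‖u‖ ≤ ‖v‖ :=
  (norm_le_iff u).mpr fun ω => (S.mono ω _ _ h).trans (le_norm v ω)

theorem coord_bound (S : Fam ι Ω) (x : ι) : ∃ C, 0 ≤ C ∧ ∀ u : S.E, |fn u x| ≤ C * ‖u‖ := by
  obtain ⟨ω, c, hc, hx⟩ := S.pos x
  refine ⟨c⁻¹, by positivity, fun u => ?_⟩
  have h1 := (hx (fn u)).trans (le_norm u ω)
  rw [inv_mul_eq_div, le_div_iff₀ hc]
  linarith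

/-- Coordinates as continuous functionals. -/
noncomputable def coordL (S : Fam ι Ω) (x : ι) : S.E →L[ℝ] ℝ :=
  LinearMap.mkContinuousOfExistsBound
    { toFun := fun u => fn u x
      map_add' := fun _ _ => rfl
      map_smul' := fun _ _ => rfl }
    (by
      obtain ⟨C, _, hC⟩ := coord_bound S x
      exact ⟨C, fun u => hC u⟩)

@[simp] theorem coordL_apply (x : ι) (u : S.E) : coordL S x u = fn u x := rfl

noncomputable instance : Lattice S.E where
  le u v := fn u ≤ fn v
  le_refl u := le_refl (fn u)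
  le_trans u v w h1 h2 := le_trans (a := fn u) (b := fn v) h1 h2
  le_antisymm u v h1 h2 := fn_inj (le_antisymm h1 h2)
  sup u v := mkE (fn u ⊔ fn v) (((Good.abs S (fn_good u)).add S (Good.abs S (fn_good v))).mono S
    fun x => by
      simp only [Pi.sup_apply, Pi.add_apply, Pi.abs_apply]
      rw [abs_of_nonneg (by positivity : 0 ≤ |fn u x| + |fn v x|)]
      rcases le_total (fn u x) (fn v x) with h | h
      · rw [sup_eq_right.mpr h]; linarith [abs_nonneg (fn u x)]
      · rw [sup_eq_left.mpr h]; linarith [abs_nonneg (fn v x)])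
  le_sup_left u v := le_sup_left (a := fn u) (b := fn v)
  le_sup_right u v := le_sup_right (a := fn u) (b := fn v)
  sup_le u v w h1 h2 := sup_le (a := fn u) (b := fn v) h1 h2
  inf u v := mkE (fn u ⊓ fn v) (((Good.abs S (fn_good u)).add S (Good.abs S (fn_good v))).mono S
    fun x => by
      simp only [Pi.inf_apply, Pi.add_apply, Pi.abs_apply]
      rw [abs_of_nonneg (by positivity : 0 ≤ |fn u x| + |fn v x|)]
      rcases le_total (fn u x) (fn v x) with h | h
      · rw [inf_eq_left.mpr h]; linarith [abs_nonneg (fn v x)]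
      · rw [inf_eq_right.mpr h]; linarith [abs_nonneg (fn u x)])
  inf_le_left u v := inf_le_left (a := fn u) (b := fn v)
  inf_le_right u v := inf_le_right (a := fn u) (b := fn v)
  le_inf u v w h1 h2 := show fn u ≤ fn v ⊓ fn w from le_inf h1 h2

theorem le_def (u v : S.E) : u ≤ v ↔ fn u ≤ fn v := Iff.rfl
@[simp] theorem fn_sup (u v : S.E) : fn (u ⊔ v) = fn u ⊔ fn v := rfl
@[simp] theorem fn_inf (u v : S.E) : fn (u ⊓ v) = fn u ⊓ fn v := rfl
@[simp] theorem fn_abs (u : S.E) : fn |u| = |fn u| := rfl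

instance : IsOrderedAddMonoid S.E where
  add_le_add_left u v h w := by
    rw [le_def] at *
    simpa using h

instance : HasSolidNorm S.E where
  solid u v h := norm_mono fun x => h x

instance : PosSMulMono ℝ S.E where
  smul_le_smul_of_nonneg_left c hc u v h := by
    intro x
    exact mul_le_mul_of_nonneg_left (h x) hc

instance : CompleteSpace S.E := by
  refine Metric.complete_of_cauchySeq_tendsto fun u hu => ?_
  rw [Metric.cauchySeq_iff] at hu
  have hc : ∀ x, CauchySeq fun n => fn (u n) x := by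
    intro x
    obtain ⟨C, hC0, hC⟩ := coord_bound S x
    rw [Metric.cauchySeq_iff]
    intro ε hε
    obtain ⟨N, hN⟩ := hu (ε / (C + 1)) (by positivity)
    refine ⟨N, fun m hm n hn => ?_⟩
    have h1 := hN m hm n hn
    rw [dist_eq_norm] at h1 ⊢
    have h2 := hC (u m - u n)
    rw [fn_sub, Pi.sub_apply] at h2
    rw [Real.norm_eq_abs]
    refine h2.trans_lt ?_
    rw [lt_div_iff₀ (by positivity)] at h1
    nlinarith [norm_nonneg (u m - u n)]
  choose U hU using fun x => cauchySeq_tendsto_of_complete (hc x)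
  have hUt : Tendsto (fun n => fn (u n)) atTop (𝓝 U) := tendsto_pi_nhds.mpr hU
  have key : ∀ ε > 0, ∃ N, ∀ n ≥ N, ∀ ω, S.ρ ω (fn (u n) - U) ≤ ε := by
    intro ε hε
    obtain ⟨N, hN⟩ := hu ε hε
    refine ⟨N, fun n hn ω => ?_⟩
    have h1 : Tendsto (fun m => S.ρ ω (fn (u n) - fn (u m))) atTop (𝓝 (S.ρ ω (fn (u n) - U))) :=
      ((S.cont ω).tendsto _).comp (tendsto_const_nhds.sub hUt)
    refine le_of_tendsto h1 ?_
    filter_upwards [eventually_ge_atTop N] with m hm
    have h2 := hN n hn m hm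
    rw [dist_eq_norm] at h2
    exact (le_norm (u n - u m) ω).trans h2.le
  have hg : S.Good U := by
    intro ε hε
    obtain ⟨N, hN⟩ := key (ε / 2) (by positivity)
    obtain ⟨F, hF⟩ := fn_good (u N) (ε / 2) (by positivity)
    refine ⟨F, fun ω => ?_⟩
    have h : (↑F : Set ι)ᶜ.indicator U = (↑F : Set ι)ᶜ.indicator (fn (u N)) +
        (↑F : Set ι)ᶜ.indicator (U - fn (u N)) := by
      rw [← Set.indicator_add']; congr 1; ring
    rw [h]
    refine (S.add_le _ _ _).trans ?_
    have h2 : S.ρ ω ((↑F : Set ι)ᶜ.indicator (U - fn (u N))) ≤ ε / 2 := by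
      refine (S.mono ω _ (fn (u N) - U) fun x => ?_).trans (hN N le_rfl ω)
      refine (abs_ind_le _ _ x).trans ?_
      simp only [Pi.sub_apply]
      rw [abs_sub_comm]
    have h3 := hF ω
    linarith
  refine ⟨mkE U hg, ?_⟩
  rw [Metric.tendsto_atTop]
  intro ε hε
  obtain ⟨N, hN⟩ := key (ε / 2) (by positivity)
  refine ⟨N, fun n hn => ?_⟩
  rw [dist_eq_norm]
  refine lt_of_le_of_lt ((norm_le_iff _).mpr fun ω => ?_) (half_lt_self hε)
  exact hN n hn ω

/-- Restriction of an element to a set. -/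
noncomputable def restr (A : Set ι) (u : S.E) : S.E :=
  mkE (A.indicator (fn u)) ((fn_good u).mono S (abs_ind_le A _))

@[simp] theorem fn_restr (A : Set ι) (u : S.E) : fn (restr A u) = A.indicator (fn u) := rfl

theorem exists_tail (u : S.E) {ε : ℝ} (hε : 0 < ε) :
    ∃ F : Finset ι, ‖u - restr (↑F) u‖ ≤ ε := by
  obtain ⟨F, hF⟩ := fn_good u ε hε
  refine ⟨F, (norm_le_iff _).mpr fun ω => ?_⟩
  have : fn (u - restr (↑F) u) = (↑F : Set ι)ᶜ.indicator (fn u) := by
    rw [fn_sub, fn_restr, Set.indicator_compl]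
  rw [this]
  exact hF ω

theorem separable (S : Fam ι Ω) [Countable ι] : TopologicalSpace.SeparableSpace S.E := by
  classical
  let e : ι → S.E := fun x => mkE (Set.indicator {x} (fun _ => (1:ℝ)))
    (S.good_of_finite {x} (fun y hy => by simp at hy; simp [hy]))
  have hsep : TopologicalSpace.IsSeparable (Submodule.span ℝ (Set.range e) : Set S.E) :=
    (Set.countable_range e).isSeparable.span
  have hd : (univ : Set S.E) ⊆ closure (Submodule.span ℝ (Set.range e) : Set S.E) := by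
    intro u _
    rw [Metric.mem_closure_iff]
    intro ε hε
    obtain ⟨F, hF⟩ := exists_tail u (half_pos hε)
    refine ⟨restr (↑F) u, ?_, ?_⟩
    · have : restr (↑F) u = ∑ x ∈ F, fn u x • e x := by
        refine fn_inj ?_
        rw [fn_sum, fn_restr]
        ext y
        rw [Finset.sum_apply]
        by_cases hy : y ∈ F
        · rw [Finset.sum_eq_single y]
          · simp [hy, e]
          · intro b _ hb; simp [hb.symm, e]
          · intro h; exact absurd hy h
        · rw [Finset.sum_eq_zero]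
          · simp [hy]
          · intro b hb
            have : y ≠ b := fun h => hy (h ▸ hb)
            simp [this, e]
      rw [this]
      exact Submodule.sum_mem _ fun x _ => Submodule.smul_mem _ _
        (Submodule.subset_span (mem_range_self x))
    · rw [dist_eq_norm]
      linarith
  have := hsep.closure.mono hd
  exact TopologicalSpace.isSeparable_univ_iff.mp this

end Fam

end Pool.Agent.H63.DHDC
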