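import Pool.Agent.H63.DHDC.Norm

set_option autoImplicit false

open Finset

namespace Pool.Agent.H63.DHDC

theorem nonneg_of_rho {u : Idx → ℝ} {C : ℝ} (hC : ∀ ω, rho ω u ≤ C) : 0 ≤ C :=
  (fam.nonneg (Classical.arbitrary Conf) u).trans (hC _)

theorem al_le_of_rho {u : Idx → ℝ} {C : ℝ} (hC : ∀ ω, rho ω u ≤ C) {d : ℕ} {T : Finset ℕ}
    {g : (n : ℕ) → F n → ℝ} (h : AdmT d T g) : al d T g u ≤ C := by
  have h1 := sum_al_sq_le hC (d + 1) (fun i => if i = d then T else ∅) (fun _ => g) (fun i => by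
    by_cases hi : i = d
    · subst hi; simpa using h
    · simp only [hi, if_false]; exact admT_empty i g)
  rw [sum_range_succ] at h1
  simp only [if_true] at h1
  have h2 : 0 ≤ ∑ x ∈ range d, al x (if x = d then T else ∅) g u ^ 2 :=
    sum_nonneg fun i _ => sq_nonneg _
  have h3 := nonneg_of_rho hC
  have h4 : al d T g u ^ 2 ≤ C ^ 2 := by linarith
  exact le_of_sq_le_sq₀ h4 h3
where
  le_of_sq_le_sq₀ {a b : ℝ} (h : a ^ 2 ≤ b ^ 2) (hb : 0 ≤ b) : a ≤ b := by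
    nlinarith [sq_nonneg (a - b), sq_nonneg (a + b)]

/-- The norm at scale `d`. -/
noncomputable def Nd (d : ℕ) (u : Idx → ℝ) : ℝ :=
  sSup {a | ∃ (T : Finset ℕ) (g : (n : ℕ) → F n → ℝ), AdmT d T g ∧ a = al d T g u}

theorem Nd_nonempty (d : ℕ) (u : Idx → ℝ) :
    {a | ∃ (T : Finset ℕ) (g : (n : ℕ) → F n → ℝ), AdmT d T g ∧ a = al d T g u}.Nonempty :=
  ⟨0, ∅, fun _ _ => 0, admT_empty _ _, (al_empty _ _ _).symm⟩

theorem Nd_bdd {u : Idx → ℝ} {C : ℝ} (hC : ∀ ω, rho ω u ≤ C) (d : ℕ) :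
    BddAbove {a | ∃ (T : Finset ℕ) (g : (n : ℕ) → F n → ℝ), AdmT d T g ∧ a = al d T g u} := by
  refine ⟨C, ?_⟩
  rintro _ ⟨T, g, h, rfl⟩
  exact al_le_of_rho hC h

theorem al_le_Nd {u : Idx → ℝ} {C : ℝ} (hC : ∀ ω, rho ω u ≤ C) {d : ℕ} {T : Finset ℕ}
    {g : (n : ℕ) → F n → ℝ} (h : AdmT d T g) : al d T g u ≤ Nd d u :=
  le_csSup (Nd_bdd hC d) ⟨T, g, h, rfl⟩

theorem Nd_nonneg {u : Idx → ℝ} {C : ℝ} (hC : ∀ ω, rho ω u ≤ C) (d : ℕ) : 0 ≤ Nd d u := by
  have := al_le_Nd hC (admT_empty d (fun _ _ => 0))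
  rwa [al_empty] at this

theorem sum_Nd_sq_le {u : Idx → ℝ} {C : ℝ} (hC : ∀ ω, rho ω u ≤ C) (D : ℕ) :
    ∑ d ∈ range D, Nd d u ^ 2 ≤ C ^ 2 := by
  have hC0 := nonneg_of_rho hC
  refine le_of_forall_pos_le_add fun δ hδ => ?_
  set ε : ℝ := min 1 (δ / (D * (2 * C + 1) + 1)) with hε
  have hpos : 0 < (D * (2 * C + 1) + 1 : ℝ) := by positivity
  have hε0 : 0 < ε := lt_min one_pos (by positivity)
  have hε1 : ε ≤ 1 := min_le_left _ _
  have hε2 : ε * (D * (2 * C + 1) + 1) ≤ δ := by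
    have : ε ≤ δ / (D * (2 * C + 1) + 1) := min_le_right _ _
    rwa [le_div_iff₀ hpos] at this
  have hch : ∀ d, ∃ (T : Finset ℕ) (g : (n : ℕ) → F n → ℝ), AdmT d T g ∧ Nd d u - ε < al d T g u := by
    intro d
    obtain ⟨a, ⟨T, g, h1, h2⟩, h3⟩ := exists_lt_of_lt_csSup (Nd_nonempty d u)
      (show Nd d u - ε < sSup _ by unfold Nd; linarith)
    exact ⟨T, g, h1, h2 ▸ h3⟩
  choose T g h1 h2 using hch
  have h3 := sum_al_sq_le hC D T g h1
  have h4 : ∀ d ∈ range D, Nd d u ^ 2 ≤ al d (T d) (g d) u ^ 2 + ε * (2 * C + 1) := by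
    intro d _
    have h5 := al_le_of_rho hC (h1 d)
    have h6 := al_nonneg (h1 d) u
    have h7 := Nd_nonneg hC d
    have h8 := (h2 d).le
    have h9 : Nd d u ≤ al d (T d) (g d) u + ε := by linarith
    calc Nd d u ^ 2 ≤ (al d (T d) (g d) u + ε) ^ 2 := pow_le_pow_left₀ h7 h9 2
      _ = al d (T d) (g d) u ^ 2 + ε * (2 * al d (T d) (g d) u + ε) := by ring
      _ ≤ _ := by
        have : ε * (2 * al d (T d) (g d) u + ε) ≤ ε * (2 * C + 1) :=
          mul_le_mul_of_nonneg_left (by linarith) hε0.le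
        linarith
  have h5 := sum_le_sum h4
  rw [sum_add_distrib, sum_const, card_range, nsmul_eq_mul] at h5
  nlinarith

theorem al_sum_le {i : ℕ} {T : Finset ℕ} {g : (n : ℕ) → F n → ℝ} (h : AdmT i T g)
    (J : Finset ℕ) (c : ℕ → ℝ) (v : ℕ → Idx → ℝ) :
    al i T g (∑ j ∈ J, c j • v j) ≤ ∑ j ∈ J, |c j| * al i T g (v j) := by
  induction J using Finset.induction_on with
  | empty => simp [al]
  | insert a s ha ih =>
    rw [sum_insert ha, sum_insert ha]
    refine (al_add_le h _ _).trans ?_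
    rw [al_smul]
    linarith

/-- Interaction of the scales. -/
noncomputable def kap (i i' : ℕ) : ℝ := (1 / 2) ^ i * (1 / 2) ^ i' * min (4 ^ i) (4 ^ i')

theorem kap_comm (i i' : ℕ) : kap i i' = kap i' i := by
  unfold kap; rw [min_comm]; ring

theorem kap_nonneg (i i' : ℕ) : 0 ≤ kap i i' := by
  unfold kap; positivity

theorem half_four (i : ℕ) : (1 / 2 : ℝ) ^ i * 4 ^ i = 2 ^ i := by
  rw [← mul_pow]; norm_num

theorem half_two (i : ℕ) : (1 / 2 : ℝ) ^ i * 2 ^ i = 1 := by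
  rw [← mul_pow]; norm_num

theorem kap_row (I i : ℕ) : ∑ i' ∈ range I, kap i i' ≤ 4 := by
  have h1 : ∀ i' ∈ range I, kap i i' ≤ (if i' ≤ i then (1 / 2) ^ i * 2 ^ i' else 0) +
      (if i ≤ i' then 2 ^ i * (1 / 2) ^ i' else 0) := by
    intro i' _
    unfold kap
    have p1 : (0:ℝ) ≤ (1 / 2) ^ i * 2 ^ i' := by positivity
    have p2 : (0:ℝ) ≤ 2 ^ i * (1 / 2) ^ i' := by positivity
    rcases le_total i' i with h | h
    · rw [if_pos h]
      have e : (1 / 2 : ℝ) ^ i * (1 / 2) ^ i' * min (4 ^ i) (4 ^ i') ≤ (1 / 2) ^ i * 2 ^ i' := by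
        rw [← half_four i', mul_assoc]
        exact mul_le_mul_of_nonneg_left (mul_le_mul_of_nonneg_left (min_le_right _ _)
          (by positivity)) (by positivity)
      split_ifs <;> linarith
    · rw [if_pos h]
      have e : (1 / 2 : ℝ) ^ i * (1 / 2) ^ i' * min (4 ^ i) (4 ^ i') ≤ 2 ^ i * (1 / 2) ^ i' := by
        rw [← half_four i, mul_comm ((1 / 2 : ℝ) ^ i), mul_assoc,
          mul_comm ((1 / 2 : ℝ) ^ i * 4 ^ i)]
        exact mul_le_mul_of_nonneg_left (mul_le_mul_of_nonneg_left (min_le_left _ _)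
          (by positivity)) (by positivity)
      split_ifs <;> linarith
  refine (sum_le_sum h1).trans ?_
  rw [sum_add_distrib]
  have h2 : ∑ i' ∈ range I, (if i' ≤ i then (1 / 2 : ℝ) ^ i * 2 ^ i' else 0) ≤ 2 := by
    rw [← sum_filter]
    have : (range I).filter (· ≤ i) ⊆ range (i + 1) := by
      intro x hx
      rw [mem_filter] at hx
      exact mem_range.mpr (by omega)
    refine (sum_le_sum_of_subset_of_nonneg this fun _ _ _ => by positivity).trans ?_
    rw [← mul_sum, geom_sum_eq (by norm_num)]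
    have h3 := half_two i
    have h4 : (0:ℝ) < (1 / 2) ^ i := by positivity
    rw [pow_succ]
    norm_num at h3 ⊢
    nlinarith
  have h3 : ∑ i' ∈ range I, (if i ≤ i' then (2 : ℝ) ^ i * (1 / 2) ^ i' else 0) ≤ 2 := by
    rw [← sum_filter]
    have : (range I).filter (i ≤ ·) ⊆ Ico i (i + I) := by
      intro x hx
      rw [mem_filter, mem_range] at hx
      exact mem_Ico.mpr ⟨hx.2, by omega⟩
    refine (sum_le_sum_of_subset_of_nonneg this fun _ _ _ => by positivity).trans ?_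
    rw [← mul_sum, sum_Ico_eq_sum_range, add_tsub_cancel_left]
    simp_rw [pow_add]
    rw [← mul_sum]
    have h4 := geom_half I
    have h5 := half_two i
    have h6 : (0:ℝ) < 2 ^ i * (1 / 2) ^ i := by positivity
    calc (2:ℝ) ^ i * ((1 / 2) ^ i * ∑ k ∈ range I, (1 / 2) ^ k) =
        (2 ^ i * (1 / 2) ^ i) * ∑ k ∈ range I, (1 / 2) ^ k := by ring
      _ ≤ (2 ^ i * (1 / 2) ^ i) * 2 := mul_le_mul_of_nonneg_left h4 h6.le
      _ = 2 := by rw [mul_comm ((2:ℝ) ^ i), h5]; norm_num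
  linarith

theorem schur (I : ℕ) {β : ℕ → ℝ} :
    ∑ i ∈ range I, ∑ i' ∈ range I, β i * β i' * kap i i' ≤ 4 * ∑ i ∈ range I, β i ^ 2 := by
  have h1 : ∀ i ∈ range I, ∀ i' ∈ range I, β i * β i' * kap i i' ≤
      1 / 2 * (β i ^ 2 * kap i i') + 1 / 2 * (β i' ^ 2 * kap i' i) := by
    intro i _ i' _
    rw [kap_comm i' i]
    nlinarith [mul_nonneg (sq_nonneg (β i - β i')) (kap_nonneg i i')]
  refine (sum_le_sum fun i hi => sum_le_sum (h1 i hi)).trans ?_
  simp_rw [sum_add_distrib, ← mul_sum]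
  have h2 : ∑ i ∈ range I, ∑ i' ∈ range I, β i' ^ 2 * kap i' i =
      ∑ i ∈ range I, β i ^ 2 * ∑ i' ∈ range I, kap i i' := by
    rw [sum_comm]
    simp_rw [mul_sum]
  rw [h2]
  have h3 : ∑ i ∈ range I, β i ^ 2 * ∑ i' ∈ range I, kap i i' ≤ ∑ i ∈ range I, β i ^ 2 * 4 :=
    sum_le_sum fun i _ => mul_le_mul_of_nonneg_left (kap_row I i) (sq_nonneg _)
  rw [← sum_mul] at h3
  linarith

/-- Upper square estimate for successive blocks. -/
theorem upper {J : Finset ℕ} {v : ℕ → Idx → ℝ} {lo hi : ℕ → ℕ}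
    (hsupp : ∀ j ∈ J, ∀ (n : ℕ) (t : F n), v j ⟨n, t⟩ ≠ 0 → lo j ≤ n ∧ n < hi j)
    (hdisj : ∀ j ∈ J, ∀ l ∈ J, j ≠ l → ∀ n, lo j ≤ n → n < hi j → lo l ≤ n → n < hi l → False)
    (hv : ∀ j ∈ J, ∀ ω, rho ω (v j) ≤ 1) (c : ℕ → ℝ) (ω : Conf) :
    rho ω (∑ j ∈ J, c j • v j) ≤ 4 * Real.sqrt (∑ j ∈ J, c j ^ 2) := by
  classical
  let TT : ℕ → ℕ → Finset ℕ := fun i j => (ω.T i).filter fun n => lo j ≤ n ∧ n < hi j
  let dd : ℕ → ℕ → ℕ := fun i j => Nat.clog 4 (TT i j).card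
  have hTsub : ∀ i j, TT i j ⊆ ω.T i := fun i j => filter_subset _ _
  have hd1 : ∀ i j, dd i j ≤ i := fun i j =>
    Nat.clog_le_of_le_pow ((card_le_card (hTsub i j)).trans (ω.adm i).1)
  have hd2 : ∀ i j, (TT i j).card ≤ 4 ^ dd i j := fun i j => Nat.le_pow_clog (by norm_num) _
  have hd3 : ∀ i j, (TT i j).card ≠ 0 → 4 ^ dd i j ≤ 4 * (TT i j).card := by
    intro i j hne
    rcases Nat.lt_or_ge 1 (TT i j).card with h | h
    · have h1 : 4 ^ (dd i j).pred < (TT i j).card :=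
        Nat.pow_pred_clog_lt_self (b := 4) (by norm_num) h
      rw [Nat.pred_eq_sub_one] at h1
      have h2 : 0 < dd i j := Nat.clog_pos (by norm_num) h
      have h3 : 4 ^ dd i j = 4 * 4 ^ (dd i j - 1) := by
        rw [← pow_succ']; congr 1; omega
      rw [h3]
      exact Nat.mul_le_mul_left 4 h1.le
    · have h1 : (TT i j).card = 1 := by omega
      simp only [dd, h1]
      simp
  have hadm : ∀ i j, AdmT (dd i j) (TT i j) (ω.g i) := by
    intro i j
    refine ⟨hd2 i j, fun n hn => ?_⟩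
    have hn' := mem_filter.mp hn
    refine ((ω.adm i).2 n hn'.1).mono (hd1 i j) (hTsub i j) ?_
    intro m hm l hl hml hln
    have hm' := mem_filter.mp hm
    exact mem_filter.mpr ⟨hl, hm'.2.1.trans hml, hln.trans hn'.2.2⟩
  have hal : ∀ i, ∀ j ∈ J, al i (ω.T i) (ω.g i) (v j) ≤
      (1 / 2) ^ i * (if (TT i j).card = 0 then 0 else 2 ^ dd i j * Nd (dd i j) (v j)) := by
    intro i j hj
    have h1 : ∑ n ∈ ω.T i, ∑ t, ω.g i n t * |v j ⟨n, t⟩| =
        ∑ n ∈ TT i j, ∑ t, ω.g i n t * |v j ⟨n, t⟩| := by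
      symm
      refine sum_subset (hTsub i j) fun n hn hn' => sum_eq_zero fun t _ => ?_
      by_cases h0 : v j ⟨n, t⟩ = 0
      · rw [h0]; simp
      · exact absurd (mem_filter.mpr ⟨hn, hsupp j hj n t h0⟩) hn'
    unfold al
    rw [h1]
    refine mul_le_mul_of_nonneg_left ?_ (by positivity)
    split_ifs with h0
    · rw [card_eq_zero] at h0
      rw [h0]; simp
    · have h2 := al_le_Nd (hv j hj) (hadm i j)
      unfold al at h2
      have h3 : (0:ℝ) < 2 ^ dd i j := by positivity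
      have h4 := mul_le_mul_of_nonneg_left h2 h3.le
      rw [← mul_assoc, mul_comm ((2:ℝ) ^ dd i j), half_two, one_mul] at h4
      exact h4
  -- reduce to the double sum
  let y : ℕ → ℕ → ℝ := fun j d => ∑ i ∈ range ω.I,
    if (TT i j).card ≠ 0 ∧ dd i j = d then ω.β i * ((1 / 2) ^ i * 2 ^ d) else 0
  have hstep : rho ω (∑ j ∈ J, c j • v j) ≤
      ∑ p ∈ J ×ˢ range ω.I, (|c p.1| * Nd p.2 (v p.1)) * y p.1 p.2 := by
    unfold rho
    have h1 : ∀ i ∈ range ω.I, ω.β i * al i (ω.T i) (ω.g i) (∑ j ∈ J, c j • v j) ≤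
        ∑ j ∈ J, |c j| * (ω.β i * ((1 / 2) ^ i *
          (if (TT i j).card = 0 then 0 else 2 ^ dd i j * Nd (dd i j) (v j)))) := by
      intro i _
      refine (mul_le_mul_of_nonneg_left (al_sum_le (ω.adm i) J c v) (ω.β_nonneg i)).trans ?_
      rw [mul_sum]
      refine sum_le_sum fun j hj => ?_
      rw [mul_left_comm]
      exact mul_le_mul_of_nonneg_left (mul_le_mul_of_nonneg_left (hal i j hj) (ω.β_nonneg i))
        (abs_nonneg _)
    refine (sum_le_sum h1).trans (le_of_eq ?_)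
    rw [sum_comm, sum_product]
    refine sum_congr rfl fun j _ => ?_
    simp only [y, mul_sum]
    rw [sum_comm]
    refine sum_congr rfl fun i hi => ?_
    rw [sum_eq_single (dd i j)]
    · by_cases h0 : (TT i j).card = 0
      · simp [h0]
      · simp only [h0, if_false, ne_eq, not_false_eq_true, and_self, if_true]
        ring
    · intro d _ hd
      rw [if_neg (fun h => hd h.2.symm), mul_zero]
    · intro h
      exact absurd (mem_range.mpr (lt_of_le_of_lt (hd1 i j) (mem_range.mp hi))) h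
  have hA : ∑ p ∈ J ×ˢ range ω.I, (|c p.1| * Nd p.2 (v p.1)) ^ 2 ≤ ∑ j ∈ J, c j ^ 2 := by
    rw [sum_product]
    refine sum_le_sum fun j hj => ?_
    simp only [mul_pow, sq_abs]
    rw [← mul_sum]
    have h1 := sum_Nd_sq_le (hv j hj) ω.I
    nlinarith [sq_nonneg (c j)]
  have hB : ∑ p ∈ J ×ˢ range ω.I, y p.1 p.2 ^ 2 ≤ 16 := by
    have e1 : ∀ j d, y j d ^ 2 = ∑ i ∈ range ω.I, ∑ i' ∈ range ω.I,
        (ω.β i * ω.β i' * ((1 / 2) ^ i * (1 / 2) ^ i')) *
          (if ((TT i j).card ≠ 0 ∧ dd i j = d) ∧ ((TT i' j).card ≠ 0 ∧ dd i' j = d) then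
            4 ^ d else 0) := by
      intro j d
      simp only [y]
      rw [sq, sum_mul_sum]
      refine sum_congr rfl fun i _ => sum_congr rfl fun i' _ => ?_
      have h4 : (4:ℝ) ^ d = 2 ^ d * 2 ^ d := by rw [← mul_pow]; norm_num
      by_cases hp : (TT i j).card ≠ 0 ∧ dd i j = d
      · by_cases hq : (TT i' j).card ≠ 0 ∧ dd i' j = d
        · rw [if_pos hp, if_pos hq, if_pos ⟨hp, hq⟩, h4]; ring
        · have hpq : ¬ (((TT i j).card ≠ 0 ∧ dd i j = d) ∧ ((TT i' j).card ≠ 0 ∧ dd i' j = d)) :=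
            fun h => hq h.2
          rw [if_neg hq, if_neg hpq]; ring
      · have hpq : ¬ (((TT i j).card ≠ 0 ∧ dd i j = d) ∧ ((TT i' j).card ≠ 0 ∧ dd i' j = d)) :=
            fun h => hp h.1
        rw [if_neg hp, if_neg hpq]; ring
    rw [sum_product]
    simp_rw [e1]
    have e2 : ∑ j ∈ J, ∑ d ∈ range ω.I, ∑ i ∈ range ω.I, ∑ i' ∈ range ω.I,
        (ω.β i * ω.β i' * ((1 / 2) ^ i * (1 / 2) ^ i')) *
          (if ((TT i j).card ≠ 0 ∧ dd i j = d) ∧ ((TT i' j).card ≠ 0 ∧ dd i' j = d) then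
            (4:ℝ) ^ d else 0) =
        ∑ i ∈ range ω.I, ∑ i' ∈ range ω.I, (ω.β i * ω.β i' * ((1 / 2) ^ i * (1 / 2) ^ i')) *
          ∑ j ∈ J, ∑ d ∈ range ω.I,
          (if ((TT i j).card ≠ 0 ∧ dd i j = d) ∧ ((TT i' j).card ≠ 0 ∧ dd i' j = d) then
            (4:ℝ) ^ d else 0) := by
      calc _ = ∑ j ∈ J, ∑ i ∈ range ω.I, ∑ d ∈ range ω.I, ∑ i' ∈ range ω.I,
            (ω.β i * ω.β i' * ((1 / 2) ^ i * (1 / 2) ^ i')) *
            (if ((TT i j).card ≠ 0 ∧ dd i j = d) ∧ ((TT i' j).card ≠ 0 ∧ dd i' j = d) then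
            (4:ℝ) ^ d else 0) := sum_congr rfl fun j _ => sum_comm
        _ = ∑ i ∈ range ω.I, ∑ j ∈ J, ∑ d ∈ range ω.I, ∑ i' ∈ range ω.I,
            (ω.β i * ω.β i' * ((1 / 2) ^ i * (1 / 2) ^ i')) *
            (if ((TT i j).card ≠ 0 ∧ dd i j = d) ∧ ((TT i' j).card ≠ 0 ∧ dd i' j = d) then
            (4:ℝ) ^ d else 0) := sum_comm
        _ = _ := by
          refine sum_congr rfl fun i _ => ?_
          calc _ = ∑ j ∈ J, ∑ i' ∈ range ω.I, ∑ d ∈ range ω.I,
                (ω.β i * ω.β i' * ((1 / 2) ^ i * (1 / 2) ^ i')) *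
                (if ((TT i j).card ≠ 0 ∧ dd i j = d) ∧ ((TT i' j).card ≠ 0 ∧ dd i' j = d) then
                (4:ℝ) ^ d else 0) := sum_congr rfl fun j _ => sum_comm
            _ = _ := by
              rw [sum_comm]
              refine sum_congr rfl fun i' _ => ?_
              simp_rw [mul_sum]
    rw [e2]
    have hcard : ∀ i, ∑ j ∈ J, ((TT i j).card : ℝ) ≤ 4 ^ i := by
      intro i
      have h1 : ∑ j ∈ J, (TT i j).card ≤ 4 ^ i := by
        rw [← card_biUnion]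
        · exact (card_le_card (biUnion_subset.mpr fun j _ => hTsub i j)).trans (ω.adm i).1
        · intro j hj l hl hjl
          rw [Function.onFun, disjoint_left]
          intro n hn1 hn2
          have h1 := (mem_filter.mp hn1).2
          have h2 := (mem_filter.mp hn2).2
          exact hdisj j hj l hl hjl n h1.1 h1.2 h2.1 h2.2
      exact_mod_cast h1
    have e3 : ∀ i i', ∑ j ∈ J, ∑ d ∈ range ω.I,
          (if ((TT i j).card ≠ 0 ∧ dd i j = d) ∧ ((TT i' j).card ≠ 0 ∧ dd i' j = d) then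
            (4:ℝ) ^ d else 0) ≤ 4 * min (4 ^ i) (4 ^ i') := by
      intro i i'
      have h0 : ∀ j ∈ J, ∑ d ∈ range ω.I,
          (if ((TT i j).card ≠ 0 ∧ dd i j = d) ∧ ((TT i' j).card ≠ 0 ∧ dd i' j = d) then
            (4:ℝ) ^ d else 0) ≤ 4 * (TT i j).card ∧ ∑ d ∈ range ω.I,
          (if ((TT i j).card ≠ 0 ∧ dd i j = d) ∧ ((TT i' j).card ≠ 0 ∧ dd i' j = d) then
            (4:ℝ) ^ d else 0) ≤ 4 * (TT i' j).card := by
        intro j _
        by_cases hp : ((TT i j).card ≠ 0 ∧ (TT i' j).card ≠ 0) ∧ dd i j = dd i' j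
        · have h1 : ∑ d ∈ range ω.I,
              (if ((TT i j).card ≠ 0 ∧ dd i j = d) ∧ ((TT i' j).card ≠ 0 ∧ dd i' j = d) then
              (4:ℝ) ^ d else 0) ≤ 4 ^ dd i j := by
            have : ∀ d ∈ range ω.I, (if ((TT i j).card ≠ 0 ∧ dd i j = d) ∧
                ((TT i' j).card ≠ 0 ∧ dd i' j = d) then (4:ℝ) ^ d else 0) ≤
                if dd i j = d then (4:ℝ) ^ dd i j else 0 := by
              intro d _
              split_ifs with h1 h2 h2
              · rw [h2]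
              · exact absurd h1.1.2 h2
              · positivity
              · exact le_rfl
            refine (sum_le_sum this).trans ?_
            rw [sum_ite_eq]
            split_ifs
            · exact le_rfl
            · positivity
          have h2 : (4:ℝ) ^ dd i j ≤ 4 * (TT i j).card := by exact_mod_cast hd3 i j hp.1.1
          have h3 : (4:ℝ) ^ dd i' j ≤ 4 * (TT i' j).card := by exact_mod_cast hd3 i' j hp.1.2
          rw [← hp.2] at h3
          exact ⟨h1.trans h2, h1.trans h3⟩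
        · have h1 : ∑ d ∈ range ω.I,
              (if ((TT i j).card ≠ 0 ∧ dd i j = d) ∧ ((TT i' j).card ≠ 0 ∧ dd i' j = d) then
              (4:ℝ) ^ d else 0) = 0 := by
            refine sum_eq_zero fun d _ => if_neg fun h => hp ⟨⟨h.1.1, h.2.1⟩, ?_⟩
            rw [h.1.2, h.2.2]
          rw [h1]
          exact ⟨by positivity, by positivity⟩
      rw [mul_min_of_nonneg _ _ (by norm_num : (0:ℝ) ≤ 4)]
      refine le_min ?_ ?_
      · refine (sum_le_sum fun j hj => (h0 j hj).1).trans ?_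
        rw [← mul_sum]
        exact mul_le_mul_of_nonneg_left (hcard i) (by norm_num)
      · refine (sum_le_sum fun j hj => (h0 j hj).2).trans ?_
        rw [← mul_sum]
        exact mul_le_mul_of_nonneg_left (hcard i') (by norm_num)
    have e4 : ∀ i ∈ range ω.I, ∀ i' ∈ range ω.I,
        (ω.β i * ω.β i' * ((1 / 2) ^ i * (1 / 2) ^ i')) *
          ∑ j ∈ J, ∑ d ∈ range ω.I,
          (if ((TT i j).card ≠ 0 ∧ dd i j = d) ∧ ((TT i' j).card ≠ 0 ∧ dd i' j = d) then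
            (4:ℝ) ^ d else 0) ≤ 4 * (ω.β i * ω.β i' * kap i i') := by
      intro i _ i' _
      have h1 : 0 ≤ ω.β i * ω.β i' * ((1 / 2) ^ i * (1 / 2) ^ i') := by
        have := ω.β_nonneg i
        have := ω.β_nonneg i'
        positivity
      refine (mul_le_mul_of_nonneg_left (e3 i i') h1).trans (le_of_eq ?_)
      unfold kap
      ring
    refine (sum_le_sum fun i hi => sum_le_sum (e4 i hi)).trans ?_
    simp_rw [← mul_sum]
    have h1 := schur ω.I (β := ω.β)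
    have h2 := ω.β_sq
    linarith
  have hCS := sum_mul_sq_le_sq_mul_sq (J ×ˢ range ω.I)
    (fun p : ℕ × ℕ => |c p.1| * Nd p.2 (v p.1)) (fun p => y p.1 p.2)
  set Z := ∑ p ∈ J ×ˢ range ω.I, (|c p.1| * Nd p.2 (v p.1)) * y p.1 p.2
  have hS0 : 0 ≤ ∑ j ∈ J, c j ^ 2 := sum_nonneg fun j _ => sq_nonneg _
  have hZ : Z ^ 2 ≤ 16 * ∑ j ∈ J, c j ^ 2 := by
    refine hCS.trans ?_
    rw [mul_comm (16:ℝ)]
    exact mul_le_mul hA hB (sum_nonneg fun p _ => sq_nonneg _) hS0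
  refine hstep.trans ?_
  have h5 : Z ≤ Real.sqrt (16 * ∑ j ∈ J, c j ^ 2) := Real.le_sqrt_of_sq_le hZ
  rw [Real.sqrt_mul (by norm_num)] at h5
  have h6 : Real.sqrt 16 = 4 := by
    rw [show (16:ℝ) = 4 ^ 2 by norm_num]; exact Real.sqrt_sq (by norm_num)
  rwa [h6] at h5

end Pool.Agent.H63.DHDC
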